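import Pool.Agent.H59.L.S8.R755.KF.Defs
import Pool.Agent.H59.L.S8.TH264.MP.PL

/-!
# Log-concavity of the volumes of the fibres of a convex body
-/

set_option autoImplicit false

namespace Pool.Agent.R755.KF

open MeasureTheory Set Filter Topology
open scoped ENNReal InnerProductSpace
open Pool.Agent.R754.KG (E un sl Rv)

namespace K1aux

theorem sl_closed {N d : ℕ} {K : Set (E N × E d)} (hK : IsCompact K) (t : E d) :
    MeasurableSet (sl K t) := by
  have h1 : IsClosed (sl K t) := hK.isClosed.preimage (by fun_prop : Continuous fun x : E N => (x, t))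
  exact h1.measurableSet

theorem sl_fin {N d : ℕ} {K : Set (E N × E d)} (hK : IsCompact K) (t : E d) :
    volume (sl K t) ≠ ⊤ := by
  have h1 : Bornology.IsBounded (sl K t) := by
    have h2 : sl K t ⊆ Prod.fst '' K := fun x hx => ⟨(x, t), hx, rfl⟩
    exact (hK.image continuous_fst).isBounded.subset h2
  exact h1.measure_lt_top.ne

theorem vol_eq {N : ℕ} (A : Set (E N)) (hA : MeasurableSet A) :
    volume A = ∫⁻ s : Fin N → ℝ, A.indicator (fun _ => (1 : ℝ≥0∞)) (WithLp.toLp 2 s) := by
  have hmp := (EuclideanSpace.volume_preserving_symm_measurableEquiv_toLp (Fin N)).symm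
  have h1 : ∫⁻ x : E N, A.indicator (fun _ => (1 : ℝ≥0∞)) x =
      ∫⁻ s : Fin N → ℝ, A.indicator (fun _ => (1 : ℝ≥0∞)) (WithLp.toLp 2 s) :=
    (hmp.lintegral_comp (measurable_const.indicator hA)).symm
  rw [← h1, lintegral_indicator hA]
  simp

theorem vol_pl {N : ℕ} (A B C : Set (E N)) (hA : MeasurableSet A) (hB : MeasurableSet B)
    (hC : MeasurableSet C) (l : ℝ) (hl0 : 0 < l) (hl1 : l < 1)
    (H : ∀ x ∈ A, ∀ y ∈ B, (1 - l) • x + l • y ∈ C) :
    volume A ^ (1 - l) * volume B ^ l ≤ volume C := by
  have hmp := (EuclideanSpace.volume_preserving_symm_measurableEquiv_toLp (Fin N)).symm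
  have hcont : Measurable (fun s : Fin N → ℝ => (WithLp.toLp 2 s : E N)) := hmp.measurable
  rw [vol_eq A hA, vol_eq B hB, vol_eq C hC]
  have key := Pool.Agent.TH264.MP.pl N (1 - l) (by linarith) (by linarith)
    (fun s => A.indicator (fun _ => (1 : ℝ≥0∞)) (WithLp.toLp 2 s))
    (fun s => B.indicator (fun _ => (1 : ℝ≥0∞)) (WithLp.toLp 2 s))
    (fun s => C.indicator (fun _ => (1 : ℝ≥0∞)) (WithLp.toLp 2 s))
    ((measurable_const.indicator hA).comp hcont) ((measurable_const.indicator hB).comp hcont)
    ((measurable_const.indicator hC).comp hcont) (by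
      intro x y
      have h1l : (0 : ℝ) < 1 - l := by linarith
      have h2l : (0 : ℝ) < 1 - (1 - l) := by linarith
      by_cases hx : (WithLp.toLp 2 x : E N) ∈ A
      · by_cases hy : (WithLp.toLp 2 y : E N) ∈ B
        · have h1 := H _ hx _ hy
          have e : (WithLp.toLp 2 ((1 - l) • x + (1 - (1 - l)) • y) : E N) =
              (1 - l) • WithLp.toLp 2 x + l • WithLp.toLp 2 y := by
            rw [show (1 - (1 - l)) = l by ring]
            rfl
          simp only
          rw [e, indicator_of_mem hx, indicator_of_mem hy, indicator_of_mem h1]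
          simp
        · simp only
          rw [indicator_of_notMem hy, ENNReal.zero_rpow_of_pos h2l, mul_zero]
          exact zero_le
      · simp only
        rw [indicator_of_notMem hx, ENNReal.zero_rpow_of_pos h1l, zero_mul]
        exact zero_le)
  rw [show (1 - (1 - l)) = l by ring] at key
  exact key

end K1aux

/-- K1 -/
theorem geo : S_GEO := by
  intro N d K hK t0 t1 l hl0 hl1
  have h := K1aux.vol_pl (sl K t0) (sl K t1) (sl K ((1 - l) • t0 + l • t1))
    (K1aux.sl_closed hK.comp _) (K1aux.sl_closed hK.comp _) (K1aux.sl_closed hK.comp _) l hl0 hl1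
    (by
      intro x hx y hy
      have h := hK.conv (show (x, t0) ∈ K from hx) (show (y, t1) ∈ K from hy)
        (show (0 : ℝ) ≤ 1 - l by linarith) hl0.le (by ring)
      rw [Prod.smul_mk, Prod.smul_mk, Prod.mk_add_mk] at h
      exact h)
  have h2 := ENNReal.toReal_mono (K1aux.sl_fin hK.comp _) h
  rw [ENNReal.toReal_mul, ← ENNReal.toReal_rpow, ← ENNReal.toReal_rpow] at h2
  exact h2

end Pool.Agent.R755.KF
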