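import Pool.Agent.H59.L.S8.R755.KF.Defs
import Pool.Agent.H59.L.S8.H888R2.KT.N0
import Pool.Agent.H59.L.S8.H888R2.KT.N7

/-!
# G2 (helper141): the semigroup property of Gaussian averages
-/

set_option autoImplicit false

namespace Pool.Agent.R755.KF

open MeasureTheory Set Filter Topology
open scoped ENNReal InnerProductSpace
open Pool.Agent.H888R2.KT (gs gc gc_pos)
open Pool.Agent.H888R2.KT.N7x (cont_gs)
open Pool.Agent.R754.KG (E un sl Rv)

namespace G2aux

/-- the product of two Gaussian kernels -/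
theorem ker {k : ℕ} (h : ℝ) (hh : 0 < h) (x u y : E k) :
    Real.exp (-(‖u - y‖ ^ 2 / (2 * h))) * Real.exp (-(‖x - u‖ ^ 2 / (2 * h))) =
      Real.exp (-(‖x - y‖ ^ 2 / (2 * (2 * h)))) *
        Real.exp (-(‖(1 / 2 : ℝ) • (x + y) - u‖ ^ 2 / (2 * (h / 2)))) := by
  rw [← Real.exp_add, ← Real.exp_add]
  congr 1
  have p := parallelogram_law_with_norm ℝ (x - u) (u - y)
  have e1 : (x - u) + (u - y) = x - y := by abel
  have e2 : ‖(1 / 2 : ℝ) • (x + y) - u‖ = ‖(x - u) - (u - y)‖ / 2 := by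
    have : (1 / 2 : ℝ) • (x + y) - u = (1 / 2 : ℝ) • ((x - u) - (u - y)) := by
      module
    rw [this, norm_smul]
    norm_num
    ring
  rw [e1] at p
  rw [e2]
  field_simp
  nlinarith [p]

theorem conv {k : ℕ} (h : ℝ) (hh : 0 < h) (f : E k → ℝ) (hf : Continuous f) (B : ℝ)
    (hb : ∀ y, |f y| ≤ B) (x : E k) :
    gs h (gs h f) x = gc (Fin k) (h / 2) * gc (Fin k) (2 * h) / gc (Fin k) h ^ 2 *
      gs (2 * h) f x := by
  obtain ⟨gp, g1, g2, -⟩ := gc_pos (κ := Fin k) h hh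
  obtain ⟨gp2, -, -, -⟩ := gc_pos (κ := Fin k) (2 * h) (by positivity)
  obtain ⟨-, l1, -, -⟩ := gc_pos (κ := Fin k) (h / 2) (by positivity)
  have hB0 : 0 ≤ B := (abs_nonneg _).trans (hb 0)
  have iF : Integrable (Function.uncurry fun u y : E k =>
      f y * (Real.exp (-(‖u - y‖ ^ 2 / (2 * h))) * Real.exp (-(‖x - u‖ ^ 2 / (2 * h)))))
      (volume.prod volume) := by
    have hcont : Continuous (Function.uncurry fun u y : E k =>
      f y * (Real.exp (-(‖u - y‖ ^ 2 / (2 * h))) * Real.exp (-(‖x - u‖ ^ 2 / (2 * h))))) := by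
      have h1 : Continuous fun p : E k × E k => f p.2 := hf.comp continuous_snd
      have h2 : Continuous fun p : E k × E k => Real.exp (-(‖p.1 - p.2‖ ^ 2 / (2 * h))) *
        Real.exp (-(‖x - p.1‖ ^ 2 / (2 * h))) := by fun_prop
      exact h1.mul h2
    rw [integrable_prod_iff hcont.aestronglyMeasurable]
    have hn : ∀ u y : E k, ‖f y * (Real.exp (-(‖u - y‖ ^ 2 / (2 * h))) *
        Real.exp (-(‖x - u‖ ^ 2 / (2 * h))))‖ ≤
        B * Real.exp (-(‖x - u‖ ^ 2 / (2 * h))) * Real.exp (-(‖u - y‖ ^ 2 / (2 * h))) := by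
      intro u y
      rw [norm_mul, Real.norm_eq_abs, Real.norm_of_nonneg (by positivity)]
      calc |f y| * (Real.exp (-(‖u - y‖ ^ 2 / (2 * h))) * Real.exp (-(‖x - u‖ ^ 2 / (2 * h))))
          ≤ B * (Real.exp (-(‖u - y‖ ^ 2 / (2 * h))) * Real.exp (-(‖x - u‖ ^ 2 / (2 * h)))) :=
            mul_le_mul_of_nonneg_right (hb y) (by positivity)
        _ = _ := by ring
    have iu : ∀ u : E k, Integrable fun y => f y * (Real.exp (-(‖u - y‖ ^ 2 / (2 * h))) *
        Real.exp (-(‖x - u‖ ^ 2 / (2 * h)))) := by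
      intro u
      refine ((g2 u).const_mul (B * Real.exp (-(‖x - u‖ ^ 2 / (2 * h))))).mono' (by fun_prop)
        (Filter.Eventually.of_forall fun y => hn u y)
    refine ⟨Filter.Eventually.of_forall fun u => iu u, ?_⟩
    refine (((g2 x).const_mul (B * gc (Fin k) h))).mono'
      (hcont.norm.aestronglyMeasurable.integral_prod_right')
      (Filter.Eventually.of_forall fun u => ?_)
    rw [Real.norm_of_nonneg (integral_nonneg fun y => norm_nonneg _)]
    calc ∫ y, ‖f y * (Real.exp (-(‖u - y‖ ^ 2 / (2 * h))) *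
          Real.exp (-(‖x - u‖ ^ 2 / (2 * h))))‖
        ≤ ∫ y, B * Real.exp (-(‖x - u‖ ^ 2 / (2 * h))) * Real.exp (-(‖u - y‖ ^ 2 / (2 * h))) :=
          integral_mono (iu u).norm ((g2 u).const_mul _) fun y => hn u y
      _ = B * gc (Fin k) h * Real.exp (-(‖x - u‖ ^ 2 / (2 * h))) := by
          rw [integral_const_mul, g1 u]
          ring
  have e1 : gs h (gs h f) x = (∫ u : E k, ∫ y : E k, f y * (Real.exp (-(‖u - y‖ ^ 2 / (2 * h))) *
      Real.exp (-(‖x - u‖ ^ 2 / (2 * h))))) / gc (Fin k) h ^ 2 := by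
    unfold gs
    rw [pow_two, ← div_div]
    congr 1
    rw [← integral_div]
    refine integral_congr_ae (Filter.Eventually.of_forall fun u => ?_)
    simp only
    rw [div_mul_eq_mul_div, ← integral_mul_const]
    congr 1
    refine integral_congr_ae (Filter.Eventually.of_forall fun y => ?_)
    simp only
    ring
  have e2 : ∀ y : E k, ∫ u : E k, f y * (Real.exp (-(‖u - y‖ ^ 2 / (2 * h))) *
      Real.exp (-(‖x - u‖ ^ 2 / (2 * h)))) =
      gc (Fin k) (h / 2) * (f y * Real.exp (-(‖x - y‖ ^ 2 / (2 * (2 * h))))) := by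
    intro y
    have h3 : ∀ u : E k, f y * (Real.exp (-(‖u - y‖ ^ 2 / (2 * h))) *
      Real.exp (-(‖x - u‖ ^ 2 / (2 * h)))) =
      f y * Real.exp (-(‖x - y‖ ^ 2 / (2 * (2 * h)))) *
        Real.exp (-(‖(1 / 2 : ℝ) • (x + y) - u‖ ^ 2 / (2 * (h / 2)))) := by
      intro u
      rw [ker h hh x u y]
      ring
    rw [integral_congr_ae (Filter.Eventually.of_forall h3), integral_const_mul, l1]
    ring
  rw [e1, integral_integral_swap iF, integral_congr_ae (Filter.Eventually.of_forall e2),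
    integral_const_mul]
  have e4 : ∫ y : E k, f y * Real.exp (-(‖x - y‖ ^ 2 / (2 * (2 * h)))) =
      gc (Fin k) (2 * h) * gs (2 * h) f x := by
    unfold gs
    rw [mul_div_cancel₀ _ gp2.ne']
  rw [e4]
  ring

theorem gs_one {k : ℕ} (h : ℝ) (hh : 0 < h) (x : E k) : gs h (fun _ : E k => (1 : ℝ)) x = 1 := by
  obtain ⟨gp, g1, -, -⟩ := gc_pos (κ := Fin k) h hh
  unfold gs
  simp only [one_mul]
  rw [g1, div_self gp.ne']

end G2aux

open G2aux

theorem sg : S_SG := by
  intro k h B f hh hf hb x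
  have h1 := conv h hh (fun _ : E k => (1 : ℝ)) continuous_const 1 (fun _ => by simp) x
  have h2 : gs h (fun _ : E k => (1 : ℝ)) = fun _ => (1 : ℝ) := by
    funext y
    exact gs_one h hh y
  rw [h2, gs_one h hh, gs_one (2 * h) (by positivity), mul_one] at h1
  rw [conv h hh f hf B hb x, ← h1, one_mul]

end Pool.Agent.R755.KF
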