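import Pool.Agent.H59.L.S8.R755.KF.Defs
import Pool.Agent.H59.L.S8.H888R2.KT.N0
import Pool.Agent.H59.L.S8.H888R2.KT.N6a
import Pool.Agent.H59.L.S8.H888R2.KT.N7

/-!
# G3 (helper141): functions of a sum of two independent Gaussian variables
-/

set_option autoImplicit false

namespace Pool.Agent.R755.KF

open MeasureTheory Set Filter Topology
open scoped ENNReal InnerProductSpace
open Pool.Agent.H888R2.KT (gs gc gc_pos)
open Pool.Agent.H888R2.KT.N7x (cont_gs)
open Pool.Agent.R754.KG (E un sl Rv)

namespace G3aux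

/-- the Gaussian law with variance `h` in each direction -/
noncomputable def ga (k : ℕ) (h : ℝ) : Measure (E k) :=
  volume.withDensity fun z => ENNReal.ofReal (Real.exp (-(‖z‖ ^ 2 / (2 * h))) / gc (Fin k) h)

theorem gs_ga {k : ℕ} (h : ℝ) (hh : 0 < h) (φ : E k → ℝ) (x : E k) :
    gs h φ x = ∫ z, φ (x + z) ∂(ga k h) := by
  have gp := (gc_pos (κ := Fin k) h hh).1
  rw [Pool.Agent.H888R2.KT.N6ax.gs_eq, ga, integral_withDensity_eq_integral_toReal_smul
    (by fun_prop) (Filter.Eventually.of_forall fun x => ENNReal.ofReal_lt_top), ← integral_div]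
  refine integral_congr_ae (Filter.Eventually.of_forall fun z => ?_)
  simp only [smul_eq_mul, Pool.Agent.H888R2.KT.N6ax.g]
  rw [ENNReal.toReal_ofReal (by positivity)]
  ring

theorem ga_prob (k : ℕ) (h : ℝ) (hh : 0 < h) : IsProbabilityMeasure (ga k h) := by
  have gp := (gc_pos (κ := Fin k) h hh).1
  constructor
  rw [ga, withDensity_apply _ MeasurableSet.univ, Measure.restrict_univ,
    ← ofReal_integral_eq_lintegral_ofReal]
  · rw [integral_div]
    have : ∫ z : E k, Real.exp (-(‖z‖ ^ 2 / (2 * h))) = gc (Fin k) h := rfl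
    rw [this, div_self gp.ne', ENNReal.ofReal_one]
  · exact (Pool.Agent.H888R2.KT.N0x.gauss_int' (κ := Fin k) h hh).div_const _
  · exact Filter.Eventually.of_forall fun z => by positivity

theorem ibd {α : Type*} [TopologicalSpace α] [MeasurableSpace α] [OpensMeasurableSpace α]
    [SecondCountableTopology α] (γ : Measure α) [IsProbabilityMeasure γ] (u : α → ℝ)
    (hu : Continuous u) (C : ℝ) (hC : ∀ z, |u z| ≤ C) : Integrable u γ :=
  Integrable.of_bound hu.aestronglyMeasurable C (Filter.Eventually.of_forall hC)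

end G3aux

open G3aux

theorem an : S_AN := by
  intro k h B f hh hf hb x
  have := ga_prob k h hh
  have hB0 : 0 ≤ B := (abs_nonneg _).trans (hb 0)
  have hsq : ∀ y, |f y ^ 2| ≤ B ^ 2 := fun y => by
    rw [abs_pow]
    exact pow_le_pow_left₀ (abs_nonneg _) (hb y) 2
  set γ := ga k h with hγ
  have hS : Continuous (gs h f) := cont_gs h hh f hf B hb
  have hS2 : Continuous (gs h fun y => f y ^ 2) := cont_gs h hh _ (hf.pow 2) (B ^ 2) hsq
  have hSb : ∀ y, |gs h f y| ≤ B := by
    intro y
    rw [gs_ga h hh]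
    have := norm_integral_le_of_norm_le_const (μ := γ) (f := fun z => f (y + z)) (C := B)
      (Filter.Eventually.of_forall fun z => hb _)
    simpa using this
  have hS2b : ∀ y, |gs h (fun y => f y ^ 2) y| ≤ B ^ 2 := by
    intro y
    rw [gs_ga h hh]
    have := norm_integral_le_of_norm_le_const (μ := γ) (f := fun z => f (y + z) ^ 2) (C := B ^ 2)
      (Filter.Eventually.of_forall fun z => hsq _)
    simpa using this
  set A : E k → ℝ := fun z => gs h f (x + z) with hA
  have hAc : Continuous A := hS.comp (by fun_prop)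
  have hAb : ∀ z, |A z| ≤ B := fun z => hSb _
  have hAeq : ∀ z, A z = ∫ z', f (x + z + z') ∂γ := fun z => gs_ga h hh f (x + z)
  have hAeq2 : ∀ z', A z' = ∫ z, f (x + z + z') ∂γ := fun z' => by
    rw [hAeq]
    refine integral_congr_ae (Filter.Eventually.of_forall fun z => ?_)
    show f _ = f _
    congr 1
    abel
  set M := ∫ z, A z ∂γ with hM
  have iA : Integrable A γ := ibd γ A hAc B hAb
  have iA2 : Integrable (fun z => A z ^ 2) γ := ibd γ _ (hAc.pow 2) (B ^ 2) fun z => by
    rw [abs_pow]
    exact pow_le_pow_left₀ (abs_nonneg _) (hAb z) 2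
  have e1 : gs h (fun y => gs h f y ^ 2) x = ∫ z, A z ^ 2 ∂γ := gs_ga h hh _ x
  have e2 : gs h (gs h fun y => f y ^ 2) x = ∫ z, gs h (fun y => f y ^ 2) (x + z) ∂γ :=
    gs_ga h hh _ x
  have e3 : gs h (gs h f) x = M := gs_ga h hh _ x
  rw [e1, e2, e3]
  -- the mixed term
  have iF : Integrable (Function.uncurry fun z z' => f (x + z + z') * A z') (γ.prod γ) := by
    refine ibd _ _ ?_ (B * B) ?_
    · have h1 : Continuous fun p : E k × E k => f (x + p.1 + p.2) := hf.comp (by fun_prop)
      have h2 : Continuous fun p : E k × E k => A p.2 := hAc.comp continuous_snd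
      exact h1.mul h2
    · rintro ⟨z, z'⟩
      simp only [Function.uncurry_apply_pair, abs_mul]
      exact mul_le_mul (hb _) (hAb _) (abs_nonneg _) hB0
  have iG : Integrable (fun z => ∫ z', f (x + z + z') * A z' ∂γ) γ := iF.integral_prod_left
  have eG : ∫ z, ∫ z', f (x + z + z') * A z' ∂γ ∂γ = ∫ z, A z ^ 2 ∂γ := by
    rw [integral_integral_swap iF]
    refine integral_congr_ae (Filter.Eventually.of_forall fun z' => ?_)
    simp only
    rw [integral_mul_const, ← hAeq2 z', pow_two]
  have key : ∀ z, A z ^ 2 - 2 * M * A z + M ^ 2 ≤ gs h (fun y => f y ^ 2) (x + z) -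
      2 * (∫ z', f (x + z + z') * A z' ∂γ) + ∫ z', A z' ^ 2 ∂γ := by
    intro z
    have hfz : Continuous fun z' => f (x + z + z') := hf.comp (by fun_prop)
    have j1 : Integrable (fun z' => f (x + z + z')) γ := ibd γ _ hfz B fun z' => hb _
    have j2 : Integrable (fun z' => f (x + z + z') ^ 2) γ :=
      ibd γ _ (hfz.pow 2) (B ^ 2) fun z' => hsq _
    have j3 : Integrable (fun z' => f (x + z + z') * A z') γ :=
      ibd γ _ (hfz.mul hAc) (B * B) fun z' => by
        rw [abs_mul]
        exact mul_le_mul (hb _) (hAb _) (abs_nonneg _) hB0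
    have h1 : 0 ≤ ∫ z', (f (x + z + z') - A z' - (A z - M)) ^ 2 ∂γ :=
      integral_nonneg fun z' => sq_nonneg _
    have h2 : ∫ z', (f (x + z + z') - A z' - (A z - M)) ^ 2 ∂γ =
        (gs h (fun y => f y ^ 2) (x + z) - 2 * (∫ z', f (x + z + z') * A z' ∂γ) +
          ∫ z', A z' ^ 2 ∂γ) - (A z - M) ^ 2 := by
      have h3 : ∀ z', (f (x + z + z') - A z' - (A z - M)) ^ 2 =
          (f (x + z + z') ^ 2 - 2 * (f (x + z + z') * A z') + A z' ^ 2) -
          (2 * (A z - M) * f (x + z + z') - 2 * (A z - M) * A z' - (A z - M) ^ 2) := by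
        intro z'
        ring
      rw [integral_congr_ae (Filter.Eventually.of_forall h3)]
      have k1 : Integrable (fun z' => f (x + z + z') ^ 2 - 2 * (f (x + z + z') * A z')) γ :=
        j2.sub (j3.const_mul 2)
      have k2 : Integrable (fun z' => f (x + z + z') ^ 2 - 2 * (f (x + z + z') * A z') + A z' ^ 2)
        γ := k1.add iA2
      have k3 : Integrable (fun z' => 2 * (A z - M) * f (x + z + z')) γ := j1.const_mul _
      have k4 : Integrable (fun z' => 2 * (A z - M) * A z') γ := iA.const_mul _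
      have k5 : Integrable (fun z' => 2 * (A z - M) * f (x + z + z') - 2 * (A z - M) * A z') γ :=
        k3.sub k4
      have k6 : Integrable (fun z' => 2 * (A z - M) * f (x + z + z') - 2 * (A z - M) * A z' -
        (A z - M) ^ 2) γ := k5.sub (integrable_const _)
      rw [integral_sub k2 k6, integral_add k1 iA2, integral_sub j2 (j3.const_mul 2),
        integral_sub k5 (integrable_const _), integral_sub k3 k4, integral_const_mul,
        integral_const_mul, integral_const_mul, integral_const, ← hAeq z, ← hM]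
      have e5 : ∫ z', f (x + z + z') ^ 2 ∂γ = gs h (fun y => f y ^ 2) (x + z) :=
        (gs_ga h hh (fun y => f y ^ 2) (x + z)).symm
      rw [e5]
      simp only [probReal_univ, one_smul]
      ring
    rw [h2] at h1
    nlinarith [h1]
  have hL : Integrable (fun z => A z ^ 2 - 2 * M * A z + M ^ 2) γ :=
    (iA2.sub (iA.const_mul _)).add (integrable_const _)
  have iS2 : Integrable (fun z => gs h (fun y => f y ^ 2) (x + z)) γ :=
    ibd γ _ (hS2.comp (by fun_prop)) (B ^ 2) fun z => hS2b _
  have k1 : Integrable (fun z => gs h (fun y => f y ^ 2) (x + z) -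
      2 * (∫ z', f (x + z + z') * A z' ∂γ)) γ := iS2.sub (iG.const_mul 2)
  have hR : Integrable (fun z => gs h (fun y => f y ^ 2) (x + z) -
      2 * (∫ z', f (x + z + z') * A z' ∂γ) + ∫ z', A z' ^ 2 ∂γ) γ := k1.add (integrable_const _)
  have h1 := integral_mono hL hR key
  have e6 : ∫ z, (A z ^ 2 - 2 * M * A z + M ^ 2) ∂γ = (∫ z, A z ^ 2 ∂γ) - M ^ 2 := by
    have k2 : Integrable (fun z => A z ^ 2 - 2 * M * A z) γ := iA2.sub (iA.const_mul _)
    rw [integral_add k2 (integrable_const _), integral_sub iA2 (iA.const_mul _),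
      integral_const_mul, integral_const, ← hM]
    simp only [probReal_univ, one_smul]
    ring
  have e7 : ∫ z, (gs h (fun y => f y ^ 2) (x + z) -
      2 * (∫ z', f (x + z + z') * A z' ∂γ) + ∫ z', A z' ^ 2 ∂γ) ∂γ =
      (∫ z, gs h (fun y => f y ^ 2) (x + z) ∂γ) - ∫ z, A z ^ 2 ∂γ := by
    rw [integral_add k1 (integrable_const _), integral_sub iS2 (iG.const_mul 2),
      integral_const_mul, eG, integral_const]
    simp only [probReal_univ, one_smul]
    ring
  rw [e6, e7] at h1
  linarith

end Pool.Agent.R755.KF
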