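import Pool.Agent.H59.L.S8.R755.KF.Defs
import Pool.Agent.H59.L.S8.H888R2.KT.N0
import Pool.Agent.H59.L.S8.H888R2.KT.N0b
import Pool.Agent.H59.L.S8.H888R2.KT.N6b

/-! Task G4 (helper711): derivative of the Gaussian average of a bounded continuous function and
Bessel's inequality. -/

set_option autoImplicit false

namespace Pool.Agent.R755.KF

open MeasureTheory Set Filter Topology
open scoped ENNReal InnerProductSpace
open Pool.Agent.H888R2.KT (gs gc gc_pos gauss2)

namespace G4aux

variable {κ : Type} [Fintype κ]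

/-- the dominating function -/
noncomputable def dom (h B : ℝ) (x0 y : EuclideanSpace ℝ κ) : ℝ :=
  (B * Real.exp (1 / (2 * h)) / h) * ((‖x0 - y‖ + 1) * Real.exp (-(‖x0 - y‖ ^ 2 / (2 * (2 * h)))))

theorem dom_int (h : ℝ) (hh : 0 < h) (B : ℝ) (x0 : EuclideanSpace ℝ κ) :
    Integrable (dom h B x0) := by
  obtain ⟨-, -, g2, g3⟩ := gc_pos (κ := κ) (2 * h) (by positivity)
  refine (((g3 x0).add (g2 x0)).const_mul (B * Real.exp (1 / (2 * h)) / h)).congr
    (Filter.Eventually.of_forall fun y => ?_)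
  simp only [Pi.add_apply, dom]
  ring

/-- the derivative of the integrand -/
noncomputable def dk (h : ℝ) (f : EuclideanSpace ℝ κ → ℝ) (x y : EuclideanSpace ℝ κ) :
    EuclideanSpace ℝ κ →L[ℝ] ℝ :=
  (f y * Real.exp (-(‖x - y‖ ^ 2 / (2 * h)))) • ((1 / h) • innerSL ℝ (y - x))

theorem dk_deriv (h : ℝ) (f : EuclideanSpace ℝ κ → ℝ) (x y : EuclideanSpace ℝ κ) :
    HasFDerivAt (fun x => f y * Real.exp (-(‖x - y‖ ^ 2 / (2 * h)))) (dk h f x y) x := by
  have h1 := (Pool.Agent.H888R2.KT.N6bx.fderiv_kernel h y x 0).1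
  have h2 := h1.const_mul (f y)
  have h3 : (fun x : EuclideanSpace ℝ κ => f y * Real.exp (-(‖x - y‖ ^ 2 / (2 * h)))) =
      fun x => f y * Real.exp (-(‖y - x‖ ^ 2 / (2 * h))) := by
    funext x
    rw [norm_sub_rev]
  rw [h3]
  refine h2.congr_fderiv ?_
  unfold dk
  rw [norm_sub_rev x y, smul_smul]

theorem dk_bound (h : ℝ) (hh : 0 < h) (B : ℝ) (f : EuclideanSpace ℝ κ → ℝ)
    (hb : ∀ y, |f y| ≤ B) (x0 x y : EuclideanSpace ℝ κ) (hx : x ∈ Metric.ball x0 1) :
    ‖dk h f x y‖ ≤ dom h B x0 y := by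
  have hB0 : 0 ≤ B := le_trans (abs_nonneg _) (hb 0)
  have hd : ‖x - x0‖ < 1 := by rwa [Metric.mem_ball, dist_eq_norm] at hx
  have h1 : ‖y - x‖ ≤ ‖x0 - y‖ + 1 := by
    calc ‖y - x‖ = ‖(x0 - y) + (x - x0)‖ := by
          rw [← norm_neg]
          congr 1
          abel
      _ ≤ ‖x0 - y‖ + ‖x - x0‖ := norm_add_le _ _
      _ ≤ ‖x0 - y‖ + 1 := by linarith
  have h2 : ‖x0 - y‖ ≤ ‖x - y‖ + 1 := by
    calc ‖x0 - y‖ = ‖(x - y) - (x - x0)‖ := by
          congr 1
          abel
      _ ≤ ‖x - y‖ + ‖x - x0‖ := norm_sub_le _ _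
      _ ≤ ‖x - y‖ + 1 := by linarith
  have h3 : ‖x0 - y‖ ^ 2 ≤ 2 * ‖x - y‖ ^ 2 + 2 := by
    have h4 : ‖x0 - y‖ ^ 2 ≤ (‖x - y‖ + 1) ^ 2 := by gcongr
    nlinarith [sq_nonneg (‖x - y‖ - 1)]
  have h5 : Real.exp (-(‖x - y‖ ^ 2 / (2 * h))) ≤
      Real.exp (1 / (2 * h)) * Real.exp (-(‖x0 - y‖ ^ 2 / (2 * (2 * h)))) := by
    rw [← Real.exp_add, Real.exp_le_exp]
    have h6 : 1 / (2 * h) + -(‖x0 - y‖ ^ 2 / (2 * (2 * h))) - -(‖x - y‖ ^ 2 / (2 * h)) =
        (2 * ‖x - y‖ ^ 2 + 2 - ‖x0 - y‖ ^ 2) / (4 * h) := by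
      field_simp
      ring
    have h7 : 0 ≤ (2 * ‖x - y‖ ^ 2 + 2 - ‖x0 - y‖ ^ 2) / (4 * h) := by
      apply div_nonneg <;> linarith
    linarith
  unfold dk dom
  rw [norm_smul, norm_smul, innerSL_apply_norm, norm_mul, Real.norm_eq_abs, Real.norm_eq_abs,
    Real.norm_eq_abs, abs_of_pos (Real.exp_pos _), abs_of_pos (by positivity : 0 < 1 / h)]
  calc |f y| * Real.exp (-(‖x - y‖ ^ 2 / (2 * h))) * (1 / h * ‖y - x‖) ≤
      B * (Real.exp (1 / (2 * h)) * Real.exp (-(‖x0 - y‖ ^ 2 / (2 * (2 * h))))) *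
        (1 / h * (‖x0 - y‖ + 1)) := by
        gcongr
        exact hb y
    _ = _ := by ring

theorem kc (h : ℝ) : Continuous fun p : EuclideanSpace ℝ κ × EuclideanSpace ℝ κ =>
    Real.exp (-(‖p.1 - p.2‖ ^ 2 / (2 * h))) := by fun_prop

theorem deriv_gs (h : ℝ) (hh : 0 < h) (B : ℝ) (f : EuclideanSpace ℝ κ → ℝ) (hf : Continuous f)
    (hb : ∀ y, |f y| ≤ B) :
    ContDiff ℝ 1 (gs h f) ∧
    (∀ x w, fderiv ℝ (gs h f) x w = gs h (fun y => f y * (⟪y - x, w⟫_ℝ / h)) x) := by
  obtain ⟨gp, g1, g2, g3⟩ := gc_pos (κ := κ) h hh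
  have hker : ∀ x : EuclideanSpace ℝ κ,
      Continuous fun y => f y * Real.exp (-(‖x - y‖ ^ 2 / (2 * h))) := by
    intro x
    exact hf.mul (by fun_prop)
  have hdkc : ∀ x : EuclideanSpace ℝ κ, Continuous fun y => dk h f x y := by
    intro x
    unfold dk
    have h1 : Continuous fun y : EuclideanSpace ℝ κ => innerSL ℝ (y - x) :=
      (innerSL ℝ).continuous.comp (by fun_prop)
    exact (hker x).smul (h1.const_smul (1 / h))
  have hdkc' : ∀ y : EuclideanSpace ℝ κ, Continuous fun x => dk h f x y := by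
    intro y
    unfold dk
    have h1 : Continuous fun x : EuclideanSpace ℝ κ => innerSL ℝ (y - x) :=
      (innerSL ℝ).continuous.comp (by fun_prop)
    have h2 : Continuous fun x : EuclideanSpace ℝ κ =>
      f y * Real.exp (-(‖x - y‖ ^ 2 / (2 * h))) := by fun_prop
    exact h2.smul (h1.const_smul (1 / h))
  have hint : ∀ x : EuclideanSpace ℝ κ,
      Integrable fun y => f y * Real.exp (-(‖x - y‖ ^ 2 / (2 * h))) := by
    intro x
    refine ((g2 x).const_mul B).mono' (hker x).aestronglyMeasurable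
      (Filter.Eventually.of_forall fun y => ?_)
    rw [norm_mul, Real.norm_eq_abs, Real.norm_eq_abs, abs_of_pos (Real.exp_pos _)]
    exact mul_le_mul_of_nonneg_right (hb y) (Real.exp_pos _).le
  have hdint : ∀ x : EuclideanSpace ℝ κ, Integrable fun y => dk h f x y := by
    intro x
    exact (dom_int h hh B x).mono' (hdkc x).aestronglyMeasurable
      (Filter.Eventually.of_forall fun y => dk_bound h hh B f hb x x y
        (Metric.mem_ball_self one_pos))
  have hder : ∀ x : EuclideanSpace ℝ κ, HasFDerivAt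
      (fun x => ∫ y, f y * Real.exp (-(‖x - y‖ ^ 2 / (2 * h)))) (∫ y, dk h f x y) x := by
    intro x
    exact hasFDerivAt_integral_of_dominated_of_fderiv_le (s := Metric.ball x 1)
      (bound := dom h B x) (F' := fun x y => dk h f x y) (Metric.ball_mem_nhds x one_pos)
      (Filter.Eventually.of_forall fun z => (hker z).aestronglyMeasurable) (hint x)
      (hdkc x).aestronglyMeasurable
      (Filter.Eventually.of_forall fun y z hz => dk_bound h hh B f hb x z y hz)
      (dom_int h hh B x)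
      (Filter.Eventually.of_forall fun y z _ => dk_deriv h f z y)
  have hcd : Continuous (fun x : EuclideanSpace ℝ κ => ∫ y, dk h f x y) := by
    rw [continuous_iff_continuousAt]
    intro x
    apply continuousAt_of_dominated (bound := dom h B x)
    · exact Filter.Eventually.of_forall fun z => (hdkc z).aestronglyMeasurable
    · filter_upwards [Metric.ball_mem_nhds x one_pos] with z hz
      exact Filter.Eventually.of_forall fun y => dk_bound h hh B f hb x z y hz
    · exact dom_int h hh B x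
    · exact Filter.Eventually.of_forall fun y => (hdkc' y).continuousAt
  have hgs : gs h f = fun x => (gc κ h)⁻¹ • ∫ y, f y * Real.exp (-(‖x - y‖ ^ 2 / (2 * h))) := by
    funext x
    unfold gs
    rw [div_eq_inv_mul, smul_eq_mul]
  have hder2 : ∀ x, HasFDerivAt (gs h f) ((gc κ h)⁻¹ • ∫ y, dk h f x y) x := by
    intro x
    rw [hgs]
    exact (hder x).fun_const_smul _
  constructor
  · rw [contDiff_one_iff_fderiv]
    refine ⟨fun x => (hder2 x).differentiableAt, ?_⟩
    have : fderiv ℝ (gs h f) = fun x => (gc κ h)⁻¹ • ∫ y, dk h f x y := by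
      funext x
      exact (hder2 x).fderiv
    rw [this]
    exact hcd.const_smul (gc κ h)⁻¹
  · intro x w
    rw [(hder2 x).fderiv, _root_.smul_apply,
      ContinuousLinearMap.integral_apply (hdint x), smul_eq_mul]
    unfold gs
    rw [div_eq_inv_mul]
    congr 1
    refine integral_congr_ae (Filter.Eventually.of_forall fun y => ?_)
    simp only [dk, _root_.smul_apply, smul_eq_mul, innerSL_apply_apply]
    ring

theorem bessel (h : ℝ) (hh : 0 < h) (φ : EuclideanSpace ℝ κ → ℝ) (hφc : Continuous φ) (B : ℝ)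
    (hb : ∀ y, |φ y| ≤ B) (x : EuclideanSpace ℝ κ) :
    h * ‖fderiv ℝ (gs h φ) x‖ ^ 2 ≤ gs h (fun y => φ y ^ 2) x - (gs h φ x) ^ 2 := by
  obtain ⟨gp, g1, g2, g3⟩ := gc_pos (κ := κ) h hh
  set k : EuclideanSpace ℝ κ → ℝ := fun y => Real.exp (-(‖x - y‖ ^ 2 / (2 * h))) with hk
  have hk0 : ∀ y, 0 ≤ k y := fun y => (Real.exp_pos _).le
  have hkc : Continuous k := by fun_prop
  have hB0 : 0 ≤ B := le_trans (abs_nonneg _) (hb 0)
  have Ik : Integrable k := g2 x
  have I1 : Integrable fun y => ‖x - y‖ * k y := g3 x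
  -- main one-dimensional estimate
  have key : ∀ w : EuclideanSpace ℝ κ, h * (fderiv ℝ (gs h φ) x w) ^ 2 ≤
      (gs h (fun y => φ y ^ 2) x - (gs h φ x) ^ 2) * ‖w‖ ^ 2 := by
    intro w
    obtain ⟨q1, q2, q3⟩ := gauss2 (κ := κ) h hh w
    set z : EuclideanSpace ℝ κ → ℝ := fun y => ⟪y - x, w⟫_ℝ with hz
    have hzc : Continuous z := by fun_prop
    have hzb : ∀ y, |z y| ≤ ‖w‖ * ‖x - y‖ := by
      intro y
      rw [norm_sub_rev, mul_comm]
      exact abs_real_inner_le_norm _ _
    -- integrability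
    have Iz2 : Integrable fun y => z y ^ 2 * k y := by
      have := q1.comp_sub_right x
      refine this.congr (Filter.Eventually.of_forall fun y => ?_)
      simp only [hz, hk]
      rw [norm_sub_rev y x]
    have Iz : Integrable fun y => z y * k y := by
      refine (I1.const_mul ‖w‖).mono' (hzc.mul hkc).aestronglyMeasurable
        (Filter.Eventually.of_forall fun y => ?_)
      rw [norm_mul, Real.norm_eq_abs, Real.norm_of_nonneg (hk0 y), ← mul_assoc]
      exact mul_le_mul_of_nonneg_right (hzb y) (hk0 y)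
    have Ibd : ∀ (a g : EuclideanSpace ℝ κ → ℝ) (C : ℝ), Continuous a → Continuous g →
        (∀ y, |a y| ≤ C) → Integrable (fun y => g y * k y) →
        Integrable fun y => a y * g y * k y := by
      intro a g C ha hg hC hI
      refine (hI.norm.const_mul C).mono' ((ha.mul hg).mul hkc).aestronglyMeasurable
        (Filter.Eventually.of_forall fun y => ?_)
      rw [mul_assoc, norm_mul]
      exact mul_le_mul_of_nonneg_right (hC y) (norm_nonneg _)
    have Iφ : Integrable fun y => φ y * k y := by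
      have := Ibd φ (fun _ => 1) B hφc continuous_const hb (by simpa using Ik)
      simpa using this
    have Iφ2 : Integrable fun y => φ y ^ 2 * k y := by
      have := Ibd φ φ B hφc hφc hb Iφ
      simpa [pow_two] using this
    have Iφz : Integrable fun y => φ y * z y * k y := Ibd φ z B hφc hzc hb Iz
    -- values of the integrals
    have E1 : ∫ y, φ y ^ 2 * k y = gc κ h * gs h (fun y => φ y ^ 2) x := by
      unfold gs
      rw [mul_div_cancel₀ _ gp.ne']
    have E2 : ∫ y, φ y * k y = gc κ h * gs h φ x := by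
      unfold gs
      rw [mul_div_cancel₀ _ gp.ne']
    have E3 : ∫ y, k y = gc κ h := g1 x
    have E4 : ∫ y, z y * k y = 0 := by
      rw [← q3, ← integral_sub_right_eq_self (fun y : EuclideanSpace ℝ κ =>
        ⟪y, w⟫_ℝ * Real.exp (-(‖y‖ ^ 2 / (2 * h)))) x]
      refine integral_congr_ae (Filter.Eventually.of_forall fun y => ?_)
      simp only [hz, hk]
      rw [norm_sub_rev y x]
    have E5 : ∫ y, z y ^ 2 * k y = h * ‖w‖ ^ 2 * gc κ h := by
      rw [← q2, ← integral_sub_right_eq_self (fun y : EuclideanSpace ℝ κ =>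
        ⟪y, w⟫_ℝ ^ 2 * Real.exp (-(‖y‖ ^ 2 / (2 * h)))) x]
      refine integral_congr_ae (Filter.Eventually.of_forall fun y => ?_)
      simp only [hz, hk]
      rw [norm_sub_rev y x]
    -- the derivative
    have E6 : ∫ y, φ y * z y * k y = gc κ h * h * fderiv ℝ (gs h φ) x w := by
      rw [(deriv_gs h hh B φ hφc hb).2 x w]
      unfold gs
      have h1 : ∫ y, φ y * (⟪y - x, w⟫_ℝ / h) * Real.exp (-(‖x - y‖ ^ 2 / (2 * h))) =
          (1 / h) * ∫ y, φ y * z y * k y := by
        rw [← integral_const_mul]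
        refine integral_congr_ae (Filter.Eventually.of_forall fun y => ?_)
        simp only [hz, hk]
        ring
      rw [h1]
      field_simp
    -- the quadratic polynomial
    set D := gs h (fun y => φ y ^ 2) x - (gs h φ x) ^ 2 with hD
    set c := gs h φ x with hc
    set a := fderiv ℝ (gs h φ) x w with ha
    have quad : ∀ t : ℝ, 0 ≤ D + t ^ 2 * (h * ‖w‖ ^ 2) - 2 * t * h * a := by
      intro t
      have h1 : 0 ≤ ∫ y, (φ y - c - t * z y) ^ 2 * k y :=
        integral_nonneg fun y => mul_nonneg (sq_nonneg _) (hk0 y)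
      have h2 : ∫ y, (φ y - c - t * z y) ^ 2 * k y =
          gc κ h * (D + t ^ 2 * (h * ‖w‖ ^ 2) - 2 * t * h * a) := by
        have h3 : ∀ y, (φ y - c - t * z y) ^ 2 * k y =
            (φ y ^ 2 * k y + c ^ 2 * k y + t ^ 2 * (z y ^ 2 * k y)) -
            (2 * c * (φ y * k y) + 2 * t * (φ y * z y * k y)) + 2 * c * t * (z y * k y) := by
          intro y
          ring
        rw [integral_congr_ae (Filter.Eventually.of_forall h3)]
        have s0 : Integrable fun y => c ^ 2 * k y := Ik.const_mul _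
        have s1 : Integrable fun y => φ y ^ 2 * k y + c ^ 2 * k y := Iφ2.add s0
        have s2 : Integrable fun y => t ^ 2 * (z y ^ 2 * k y) := Iz2.const_mul _
        have s3 : Integrable fun y => φ y ^ 2 * k y + c ^ 2 * k y + t ^ 2 * (z y ^ 2 * k y) :=
          s1.add s2
        have s4 : Integrable fun y => 2 * c * (φ y * k y) := Iφ.const_mul _
        have s5 : Integrable fun y => 2 * t * (φ y * z y * k y) := Iφz.const_mul _
        have s6 : Integrable fun y => 2 * c * (φ y * k y) + 2 * t * (φ y * z y * k y) := s4.add s5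
        have s7 : Integrable fun y => (φ y ^ 2 * k y + c ^ 2 * k y + t ^ 2 * (z y ^ 2 * k y)) -
            (2 * c * (φ y * k y) + 2 * t * (φ y * z y * k y)) := s3.sub s6
        have s8 : Integrable fun y => 2 * c * t * (z y * k y) := Iz.const_mul _
        rw [integral_add s7 s8, integral_sub s3 s6, integral_add s1 s2, integral_add Iφ2 s0,
          integral_add s4 s5,
          integral_const_mul, integral_const_mul, integral_const_mul, integral_const_mul,
          integral_const_mul, E1, E2, E3, E4, E5, E6]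
        rw [hD]
        ring
      rw [h2] at h1
      exact nonneg_of_mul_nonneg_right h1 gp
    by_cases hw : w = 0
    · rw [ha, hw, map_zero]
      simp
    · have hwn : 0 < ‖w‖ ^ 2 := by
        have := norm_pos_iff.2 hw
        positivity
      have h1 := quad (a / ‖w‖ ^ 2)
      have h2 : D + (a / ‖w‖ ^ 2) ^ 2 * (h * ‖w‖ ^ 2) - 2 * (a / ‖w‖ ^ 2) * h * a =
          D - h * a ^ 2 / ‖w‖ ^ 2 := by
        field_simp
        ring
      rw [h2, sub_nonneg, div_le_iff₀ hwn] at h1
      exact h1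
  -- conclusion
  have hD0 : 0 ≤ gs h (fun y => φ y ^ 2) x - (gs h φ x) ^ 2 := by
    by_cases hE : Nontrivial (EuclideanSpace ℝ κ)
    · obtain ⟨w, hw⟩ := exists_ne (0 : EuclideanSpace ℝ κ)
      have h1 := key w
      have h2 : 0 < ‖w‖ ^ 2 := by
        have := norm_pos_iff.2 hw
        positivity
      have h3 : 0 ≤ h * (fderiv ℝ (gs h φ) x w) ^ 2 := by positivity
      exact nonneg_of_mul_nonneg_left (h3.trans h1) h2
    · rw [not_nontrivial_iff_subsingleton] at hE
      -- all points are equal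
      have hconst : ∀ y, φ y = φ x := fun y => by rw [Subsingleton.elim y x]
      have e1 : gs h φ x = φ x := by
        unfold gs
        have : ∫ y, φ y * Real.exp (-(‖x - y‖ ^ 2 / (2 * h))) = φ x * gc κ h := by
          rw [← g1 x, ← integral_const_mul]
          refine integral_congr_ae (Filter.Eventually.of_forall fun y => ?_)
          simp only
          rw [hconst y]
        rw [this, mul_div_cancel_right₀ _ gp.ne']
      have e2 : gs h (fun y => φ y ^ 2) x = φ x ^ 2 := by
        unfold gs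
        have : ∫ y, φ y ^ 2 * Real.exp (-(‖x - y‖ ^ 2 / (2 * h))) = φ x ^ 2 * gc κ h := by
          rw [← g1 x, ← integral_const_mul]
          refine integral_congr_ae (Filter.Eventually.of_forall fun y => ?_)
          simp only
          rw [hconst y]
        rw [this, mul_div_cancel_right₀ _ gp.ne']
      rw [e1, e2, sub_self]
  set D := gs h (fun y => φ y ^ 2) x - (gs h φ x) ^ 2 with hD
  have hop : ‖fderiv ℝ (gs h φ) x‖ ≤ Real.sqrt (D / h) := by
    refine ContinuousLinearMap.opNorm_le_bound _ (Real.sqrt_nonneg _) fun w => ?_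
    rw [Real.norm_eq_abs]
    refine abs_le_of_sq_le_sq ?_ (by positivity)
    rw [mul_pow, Real.sq_sqrt (by positivity)]
    have h1 := key w
    rw [div_mul_eq_mul_div, le_div_iff₀ hh]
    linarith
  have h2 : ‖fderiv ℝ (gs h φ) x‖ ^ 2 ≤ D / h := by
    have := pow_le_pow_left₀ (norm_nonneg _) hop 2
    rwa [Real.sq_sqrt (by positivity)] at this
  rw [le_div_iff₀ hh] at h2
  linarith

end G4aux

theorem be : S_BE := by
  intro k h B f hh hf hb
  obtain ⟨h1, h2⟩ := G4aux.deriv_gs h hh B f hf hb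
  exact ⟨h1, h2, fun x => G4aux.bessel h hh f hf B hb x⟩

end Pool.Agent.R755.KF
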