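import Pool.Agent.H59.L.S8.R683.KFx

/-!
# K3: most of the body is over points which are well inside
-/

set_option autoImplicit false

namespace Pool.Agent.R755.KF

open MeasureTheory Set Filter Topology
open scoped ENNReal InnerProductSpace
open Pool.Agent.R754.KG (E un sl Rv lint_half lint_aff R_nonneg)

namespace K3aux

open Pool.Agent.R683.KFx

variable {N d : ℕ} {K : Set (E N × E d)}

theorem geo2 (h1 : S_GEO) (h : CB K) (t0 t1 : E d) :
    Real.sqrt (Rv K t0 * Rv K t1) ≤ Rv K ((1 / 2 : ℝ) • (t0 + t1)) := by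
  have k := h1 N d K h t0 t1 (1 / 2) (by norm_num) (by norm_num)
  have e1 : (1 - 1 / 2 : ℝ) • t0 + (1 / 2 : ℝ) • t1 = (1 / 2 : ℝ) • (t0 + t1) := by
    rw [smul_add]
    norm_num
  rw [e1] at k
  have e2 : (1 - 1 / 2 : ℝ) = 1 / 2 := by norm_num
  rw [e2, ← Real.sqrt_eq_rpow, ← Real.sqrt_eq_rpow, ← Real.sqrt_mul (R_nonneg _)] at k
  exact k

theorem tail1 (h1 : S_GEO) (h : CB K) {S ρ a : ℝ} (ha : 0 ≤ a) {ts : E d}
    (hts : (1 - ρ) * S ≤ Rv K ts) :
    ∫⁻ t in {t | Rv K t < (1 - ρ) * a ^ 2 * S}, volume (sl K t) ≤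
      ENNReal.ofReal (a * 2 ^ d) * volume K := by
  have hpt : ∀ t ∈ {t | Rv K t < (1 - ρ) * a ^ 2 * S}, volume (sl K t) ≤
      ENNReal.ofReal a * volume (sl K ((1 / 2 : ℝ) • (ts + t))) := by
    intro t ht
    have hR := R_nonneg (K := K) t
    have h2 := geo2 h1 h ts t
    rw [R_vol h t, R_vol h ((1 / 2 : ℝ) • (ts + t)), ← ENNReal.ofReal_mul ha]
    refine ENNReal.ofReal_le_ofReal ?_
    refine le_trans ?_ (mul_le_mul_of_nonneg_left h2 ha)
    have e : a * Real.sqrt (Rv K ts * Rv K t) = Real.sqrt (a ^ 2 * (Rv K ts * Rv K t)) := by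
      rw [Real.sqrt_mul (sq_nonneg a), Real.sqrt_sq ha]
    rw [e]
    refine Real.le_sqrt_of_sq_le ?_
    have h3 : Rv K t ≤ (1 - ρ) * a ^ 2 * S := le_of_lt ht
    calc Rv K t ^ 2 = Rv K t * Rv K t := sq _
      _ ≤ ((1 - ρ) * a ^ 2 * S) * Rv K t := mul_le_mul_of_nonneg_right h3 hR
      _ = (a ^ 2 * Rv K t) * ((1 - ρ) * S) := by ring
      _ ≤ (a ^ 2 * Rv K t) * Rv K ts := mul_le_mul_of_nonneg_left hts (by positivity)
      _ = _ := by ring
  calc ∫⁻ t in {t | Rv K t < (1 - ρ) * a ^ 2 * S}, volume (sl K t)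
      ≤ ∫⁻ t in {t | Rv K t < (1 - ρ) * a ^ 2 * S}, ENNReal.ofReal a *
          volume (sl K ((1 / 2 : ℝ) • (ts + t))) :=
        setLIntegral_mono' (R_meas h measurableSet_Iio) hpt
    _ ≤ ∫⁻ t, ENNReal.ofReal a *
          volume (sl K ((1 / 2 : ℝ) • (ts + t))) := setLIntegral_le_lintegral _ _
    _ = _ := by
        rw [lintegral_const_mul' _ _ ENNReal.ofReal_ne_top,
          lint_half (fun t => volume (sl K t)) ts, ← vol_fub h, ← mul_assoc,
          ← ENNReal.ofReal_mul ha]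
        simp

theorem shr (h1 : S_GEO) (h : CB K) {S ρ l : ℝ} (hρ : 0 ≤ ρ) (hρ1 : ρ < 1) (hl : 0 < l)
    (hl1 : l < 1) {ts : E d} (hts : (1 - ρ) * S ≤ Rv K ts) (hS : ∀ t, Rv K t ≤ S) (t : E d) :
    (1 - ρ) * Rv K t ≤ Rv K ((1 - l) • ts + l • t) := by
  refine le_trans ?_ (h1 N d K h ts t l hl hl1)
  have hR := R_nonneg (K := K) t
  have h2 : (1 - ρ) * Rv K t ≤ Rv K ts :=
    (mul_le_mul_of_nonneg_left (hS t) (by linarith)).trans hts
  rcases hR.lt_or_eq with hR | hR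
  · have h3 : ((1 - ρ) * Rv K t) ^ (1 - l) ≤ Rv K ts ^ (1 - l) :=
      Real.rpow_le_rpow (mul_nonneg (by linarith) hR.le) h2 (by linarith)
    rw [Real.mul_rpow (by linarith) hR.le] at h3
    have h4 : (1 - ρ) ^ (1 : ℝ) ≤ (1 - ρ) ^ (1 - l) :=
      Real.rpow_le_rpow_of_exponent_ge (by linarith) (by linarith) (by linarith)
    rw [Real.rpow_one] at h4
    have h5 : Rv K t ^ (1 - l) * Rv K t ^ l = Rv K t := by
      rw [← Real.rpow_add hR, sub_add_cancel, Real.rpow_one]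
    calc (1 - ρ) * Rv K t = (1 - ρ) * (Rv K t ^ (1 - l) * Rv K t ^ l) := by rw [h5]
      _ = (1 - ρ) * Rv K t ^ (1 - l) * Rv K t ^ l := by ring
      _ ≤ (1 - ρ) ^ (1 - l) * Rv K t ^ (1 - l) * Rv K t ^ l := by gcongr
      _ ≤ Rv K ts ^ (1 - l) * Rv K t ^ l := by gcongr
  · rw [← hR, mul_zero]
    exact mul_nonneg (Real.rpow_nonneg (R_nonneg _) _) (Real.rpow_nonneg le_rfl _)

theorem chg (g : ℝ) (hg : 0 < g) (ts : E d) (F : E d → ℝ≥0∞) :
    ∫⁻ t, F t = ENNReal.ofReal (g ^ d) * ∫⁻ t, F (ts + g • (t - ts)) := by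
  have hdet : LinearMap.det (g • (LinearMap.id : E d →ₗ[ℝ] E d)) = g ^ d := by
    rw [LinearMap.det_smul, LinearMap.det_id, mul_one]
    simp
  have h := lint_aff (g • (LinearMap.id : E d →ₗ[ℝ] E d)) (by rw [hdet]; positivity)
    (ts - g • ts) univ MeasurableSet.univ F
  have him : (fun p : E d => (ts - g • ts) + (g • (LinearMap.id : E d →ₗ[ℝ] E d)) p) '' univ =
      univ := by
    rw [image_univ, range_eq_univ]
    intro y
    refine ⟨g⁻¹ • (y - (ts - g • ts)), ?_⟩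
    simp only [LinearMap.smul_apply, LinearMap.id_apply, smul_smul]
    rw [mul_inv_cancel₀ hg.ne', one_smul]
    abel
  rw [him, hdet, abs_of_pos (by positivity)] at h
  simp only [Measure.restrict_univ, LinearMap.smul_apply, LinearMap.id_apply] at h
  rw [h]
  congr 1
  refine lintegral_congr fun t => ?_
  congr 1
  rw [smul_sub]
  abel

end K3aux

open K3aux Pool.Agent.R683.KFx in
/-- K3 -/
theorem tl (h1 : S_GEO) : S_TAIL := by
  intro d δ hδ
  obtain ⟨e, he⟩ : ∃ e : ℝ, e = min δ 1 := ⟨_, rfl⟩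
  have e0 : 0 < e := by rw [he]; exact lt_min hδ one_pos
  have e1 : e ≤ 1 := by rw [he]; exact min_le_right _ _
  have eδ : e ≤ δ := by rw [he]; exact min_le_left _ _
  obtain ⟨a, ha⟩ : ∃ a : ℝ, a = e / (4 * 2 ^ d) := ⟨_, rfl⟩
  obtain ⟨γ, hγ⟩ : ∃ γ : ℝ, γ = e / (4 * (d + 1)) := ⟨_, rfl⟩
  have a0 : 0 < a := by rw [ha]; positivity
  have γ0 : 0 < γ := by rw [hγ]; positivity
  have had : a * 2 ^ d = e / 4 := by rw [ha]; field_simp
  have a1 : a ≤ 1 / 4 := by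
    have : (1 : ℝ) ≤ 2 ^ d := one_le_pow₀ (by norm_num)
    nlinarith
  have ρ1 : e / 4 < 1 := by linarith
  refine ⟨(1 - e / 4) * a ^ 2, γ, e / 4, ?_, ?_, γ0, by positivity, ρ1, ?_⟩
  · have : 0 < 1 - e / 4 := by linarith
    positivity
  · nlinarith [sq_nonneg a]
  intro N K h S ts hS hR hts
  obtain ⟨w, hw⟩ : ∃ w : E d → ℝ≥0∞, w = fun t => volume (sl K t) := ⟨_, rfl⟩
  have hwm : Measurable w := by rw [hw]; exact vol_meas h
  obtain ⟨A, hA⟩ : ∃ A : Set (E d), A = {t | Rv K t < (1 - e / 4) * a ^ 2 * S} := ⟨_, rfl⟩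
  have hAm : MeasurableSet A := by rw [hA]; exact R_meas h measurableSet_Iio
  obtain ⟨Bd, hB⟩ : ∃ Bd : Set (E d), Bd =
      {t | Rv K (ts + (1 + γ) • (t - ts)) < (1 - e / 4) * a ^ 2 * S} := ⟨_, rfl⟩
  have hBm : MeasurableSet Bd := by
    rw [hB]
    refine (R_meas h).comp ?_ measurableSet_Iio
    exact ((measurable_id.sub_const ts).const_smul (1 + γ)).const_add ts
  have hV : volume K = ∫⁻ t, w t := by rw [hw]; exact vol_fub h
  have hVt : volume K ≠ ⊤ := kfin h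
  have t1 : ∫⁻ t in A, w t ≤ ENNReal.ofReal (e / 4) * volume K := by
    have k := tail1 h1 h a0.le hts
    rw [had] at k
    rw [hA, hw]
    exact k
  have t2 : (∫⁻ t in A, w t) + (∫⁻ t in Aᶜ, w t) = volume K := by
    rw [hV]
    exact lintegral_add_compl _ hAm
  have t3 : (∫⁻ t in Bd, w t) + (∫⁻ t in Bdᶜ, w t) = volume K := by
    rw [hV]
    exact lintegral_add_compl _ hBm
  have t4 : ENNReal.ofReal (1 - e / 4) * ∫⁻ t in Aᶜ, w t ≤
      ENNReal.ofReal ((1 + γ) ^ d) * ∫⁻ t in Bdᶜ, w t := by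
    rw [← lintegral_indicator hAm.compl, chg (1 + γ) (by positivity) ts, ← mul_assoc,
      mul_comm (ENNReal.ofReal (1 - e / 4)), mul_assoc]
    refine mul_le_mul_right ?_ _
    rw [← lintegral_const_mul' _ _ ENNReal.ofReal_ne_top, ← lintegral_indicator hBm.compl]
    refine lintegral_mono fun t => ?_
    by_cases ht : t ∈ Bd
    · have h2 : ts + (1 + γ) • (t - ts) ∈ A := by
        rw [hA]
        rw [hB] at ht
        exact ht
      simp [ht, h2]
    · have h2 : ts + (1 + γ) • (t - ts) ∉ A := by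
        rw [hA]
        rw [hB] at ht
        exact ht
      simp only [indicator_of_mem (mem_compl ht), indicator_of_mem (mem_compl h2), hw]
      rw [R_vol h, R_vol h, ← ENNReal.ofReal_mul (by linarith)]
      refine ENNReal.ofReal_le_ofReal ?_
      have k := shr h1 h (ρ := e / 4) (l := (1 + γ)⁻¹) (by positivity) ρ1 (by positivity)
        (inv_lt_one_of_one_lt₀ (by linarith)) hts hR (ts + (1 + γ) • (t - ts))
      have e5 : (1 - (1 + γ)⁻¹) • ts + (1 + γ)⁻¹ • (ts + (1 + γ) • (t - ts)) = t := by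
        rw [smul_add, smul_smul, inv_mul_cancel₀ (by positivity), one_smul, sub_smul, one_smul]
        abel
      rw [e5] at k
      exact k
  -- to real numbers
  have fA : ∫⁻ t in A, w t ≠ ⊤ := ne_top_of_le_ne_top hVt (t2 ▸ le_self_add)
  have fA' : ∫⁻ t in Aᶜ, w t ≠ ⊤ := ne_top_of_le_ne_top hVt (t2 ▸ le_add_self)
  have fB : ∫⁻ t in Bd, w t ≠ ⊤ := ne_top_of_le_ne_top hVt (t3 ▸ le_self_add)
  have fB' : ∫⁻ t in Bdᶜ, w t ≠ ⊤ := ne_top_of_le_ne_top hVt (t3 ▸ le_add_self)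
  obtain ⟨V, hVe⟩ : ∃ V : ℝ, V = (volume K).toReal := ⟨_, rfl⟩
  have V0 : 0 ≤ V := by rw [hVe]; positivity
  obtain ⟨x, hx⟩ : ∃ x : ℝ, x = (∫⁻ t in A, w t).toReal := ⟨_, rfl⟩
  obtain ⟨x', hx'⟩ : ∃ x : ℝ, x = (∫⁻ t in Aᶜ, w t).toReal := ⟨_, rfl⟩
  obtain ⟨y, hy⟩ : ∃ x : ℝ, x = (∫⁻ t in Bd, w t).toReal := ⟨_, rfl⟩
  obtain ⟨y', hy'⟩ : ∃ x : ℝ, x = (∫⁻ t in Bdᶜ, w t).toReal := ⟨_, rfl⟩
  have s1 : x ≤ e / 4 * V := by
    have := ENNReal.toReal_mono (ENNReal.mul_ne_top ENNReal.ofReal_ne_top hVt) t1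
    rw [ENNReal.toReal_mul, ENNReal.toReal_ofReal (by positivity)] at this
    rw [hx, hVe]
    exact this
  have s2 : x + x' = V := by
    rw [hx, hx', hVe, ← ENNReal.toReal_add fA fA', t2]
  have s3 : y + y' = V := by
    rw [hy, hy', hVe, ← ENNReal.toReal_add fB fB', t3]
  have s4 : (1 - e / 4) * x' ≤ (1 + γ) ^ d * y' := by
    have := ENNReal.toReal_mono (ENNReal.mul_ne_top ENNReal.ofReal_ne_top fB') t4
    rw [ENNReal.toReal_mul, ENNReal.toReal_mul, ENNReal.toReal_ofReal (by linarith),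
      ENNReal.toReal_ofReal (by positivity)] at this
    rw [hx', hy']
    exact this
  have y'0 : 0 ≤ y' := by rw [hy']; positivity
  have s5 : (1 - e / 4) * (1 + γ) ^ d ≤ 1 := by
    have b1 : 1 - (d : ℝ) * γ ≤ (1 - γ) ^ d := by
      have := one_add_mul_le_pow (a := -γ) (by
        have : γ ≤ 1 := by
          rw [hγ, div_le_one (by positivity)]
          have : (0 : ℝ) ≤ d := Nat.cast_nonneg d
          linarith
        linarith) d
      have e9 : 1 + (d : ℝ) * -γ = 1 - (d : ℝ) * γ := by ring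
      have e10 : (1 + -γ) = 1 - γ := by ring
      rw [e9, e10] at this
      exact this
    have b2 : (d : ℝ) * γ ≤ e / 4 := by
      rw [hγ, mul_div_assoc', div_le_div_iff₀ (by positivity) (by norm_num)]
      have : (0 : ℝ) ≤ d := Nat.cast_nonneg d
      nlinarith
    have b3 : (1 - e / 4) ≤ (1 - γ) ^ d := by linarith
    calc (1 - e / 4) * (1 + γ) ^ d ≤ (1 - γ) ^ d * (1 + γ) ^ d := by gcongr
      _ = (1 - γ ^ 2) ^ d := by rw [← mul_pow]; congr 1; ring
      _ ≤ 1 := by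
        have g1 : γ ≤ 1 := by
          rw [hγ, div_le_one (by positivity)]
          have : (0 : ℝ) ≤ d := Nat.cast_nonneg d
          linarith
        exact pow_le_one₀ (by nlinarith) (by nlinarith [sq_nonneg γ])
  have s6 : (1 - e / 4) * ((1 - e / 4) * x') ≤ y' := by
    calc (1 - e / 4) * ((1 - e / 4) * x') ≤ (1 - e / 4) * ((1 + γ) ^ d * y') :=
          mul_le_mul_of_nonneg_left s4 (by linarith)
      _ = ((1 - e / 4) * (1 + γ) ^ d) * y' := by ring
      _ ≤ 1 * y' := mul_le_mul_of_nonneg_right s5 y'0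
      _ = y' := one_mul _
  have s7 : y ≤ δ * V := by
    have c1 : (1 - e / 4) * V ≤ x' := by linarith
    have c2 : (1 - e / 4) * ((1 - e / 4) * ((1 - e / 4) * V)) ≤ y' := by
      refine le_trans ?_ s6
      have : 0 ≤ 1 - e / 4 := by linarith
      gcongr
    have c3 : (1 - e) * V ≤ (1 - e / 4) * ((1 - e / 4) * ((1 - e / 4) * V)) := by
      have : (1 - e / 4) * ((1 - e / 4) * ((1 - e / 4) * V)) - (1 - e) * V =
        (e / 4 + 3 * (e / 4) ^ 2 - (e / 4) ^ 3) * V := by ring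
      have c4 : 0 ≤ e / 4 + 3 * (e / 4) ^ 2 - (e / 4) ^ 3 := by
        have : 0 ≤ (e / 4) ^ 2 * (3 - e / 4) := mul_nonneg (sq_nonneg _) (by linarith)
        nlinarith
      have c5 := mul_nonneg c4 V0
      linarith
    have c6 : e * V ≤ δ * V := mul_le_mul_of_nonneg_right eδ V0
    linarith
  have s8 : ∫⁻ t in Bd, w t ≤ ENNReal.ofReal δ * volume K := by
    rw [← ENNReal.ofReal_toReal fB, ← ENNReal.ofReal_toReal hVt,
      ← ENNReal.ofReal_mul hδ.le]
    refine ENNReal.ofReal_le_ofReal ?_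
    rw [← hy, ← hVe]
    exact s7
  rw [hB, hw] at s8
  exact s8

end Pool.Agent.R755.KF
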