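import Pool.Agent.H59.L.S8.R755.KF.Defs

/-!
# K4: a subdivision of a segment for log-concave functions
-/

set_option autoImplicit false

namespace Pool.Agent.R755.KF

open MeasureTheory Set Filter Topology

theorem eta : S_ETA := by
  intro ε γ η hε hε1 hγ hη
  have hlη : 0 < Real.log (1 + η) := Real.log_pos (by linarith)
  have hlε : 0 ≤ -Real.log ε := by
    have := Real.log_nonpos hε.le hε1.le
    linarith
  obtain ⟨n0, hn0⟩ := exists_nat_ge (-Real.log ε / (2 * γ * Real.log (1 + η)))
  refine ⟨n0 + 1, η / (1 + η), by omega, by positivity, ?_, ?_⟩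
  · rw [div_lt_one (by linarith)]; linarith
  intro r S hS hr hlc h0 he j hj
  set n : ℕ := n0 + 1 with hn
  have hn' : (0 : ℝ) < n := by rw [hn]; positivity
  have hnn : -Real.log ε ≤ (n : ℝ) * (2 * γ * Real.log (1 + η)) := by
    rw [← div_le_iff₀ (by positivity)]
    refine hn0.trans ?_
    rw [hn]; push_cast; linarith
  have hρ : 1 - η / (1 + η) = 1 / (1 + η) := by field_simp; ring
  rw [hρ] at h0
  have hj' : (j : ℝ) + 1 ≤ n := by exact_mod_cast hj
  have hj0 : (0 : ℝ) ≤ j := Nat.cast_nonneg j
  set a : ℝ := (j : ℝ) / n with ha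
  set m : ℝ := ((j : ℝ) + 1 / 2) / n with hm
  set b : ℝ := ((j : ℝ) + 1) / n with hb
  have ha0 : 0 ≤ a := by positivity
  have ham : a < m := by
    rw [ha, hm]; exact div_lt_div_of_pos_right (by linarith) hn'
  have hmb : m < b := by
    rw [hb, hm]; exact div_lt_div_of_pos_right (by linarith) hn'
  have hb1 : b ≤ 1 := by rw [hb, div_le_one hn']; exact hj'
  have hbm : b - m = 1 / (2 * n) := by rw [hb, hm]; field_simp; ring
  have h0I : (0 : ℝ) ∈ Icc (0 : ℝ) (1 + γ) := ⟨le_refl _, by linarith⟩
  have heI : (1 + γ) ∈ Icc (0 : ℝ) (1 + γ) := ⟨by linarith, le_refl _⟩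
  have haI : a ∈ Icc (0 : ℝ) (1 + γ) := ⟨ha0, by linarith⟩
  have hmI : m ∈ Icc (0 : ℝ) (1 + γ) := ⟨by linarith, by linarith⟩
  have hbI : b ∈ Icc (0 : ℝ) (1 + γ) := ⟨by linarith, by linarith⟩
  have hU : ∀ x ∈ Icc (0 : ℝ) (1 + γ), ∀ y ∈ Icc (0 : ℝ) (1 + γ), ∀ l : ℝ, 0 < l → l < 1 →
      (1 - l) * Real.log (r x) + l * Real.log (r y) ≤ Real.log (r ((1 - l) * x + l * y)) := by
    intro x hx y hy l hl hl1
    have h1 := hlc x hx y hy l hl hl1
    have hx0 := (hr x hx).1
    have hy0 := (hr y hy).1
    have h2 := Real.log_le_log (by positivity) h1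
    rw [Real.log_mul (by positivity) (by positivity), Real.log_rpow hx0, Real.log_rpow hy0] at h2
    exact h2
  have hSx : ∀ x ∈ Icc (0 : ℝ) (1 + γ), Real.log (r x) ≤ Real.log S := fun x hx =>
    Real.log_le_log (hr x hx).1 (hr x hx).2
  -- the lower bounds at the end points
  have hL0 : Real.log S - Real.log (1 + η) ≤ Real.log (r 0) := by
    have h1 := Real.log_le_log (by positivity) h0
    rw [Real.log_mul (by positivity) (by positivity), Real.log_div (by norm_num) (by positivity),
      Real.log_one] at h1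
    linarith
  have hLe : Real.log S + Real.log ε ≤ Real.log (r (1 + γ)) := by
    have h1 := Real.log_le_log (by positivity) he
    rw [Real.log_mul (by positivity) (by positivity)] at h1
    linarith
  -- left estimate
  have hleft : Real.log (r m) - Real.log (r a) ≤ Real.log (1 + η) := by
    rcases eq_or_lt_of_le ha0 with h | h
    · rw [← h]
      have := hSx m hmI
      linarith
    · have hm0 : 0 < m := by linarith
      have h1 := hU 0 h0I m hmI (a / m) (by positivity) (by rw [div_lt_one hm0]; exact ham)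
      have h2 : (1 - a / m) * 0 + a / m * m = a := by
        rw [div_mul_cancel₀ _ hm0.ne']; ring
      rw [h2] at h1
      have h3 : 0 ≤ a / m := by positivity
      have h4 : a / m ≤ 1 := by rw [div_le_one hm0]; exact ham.le
      have h5 := hSx m hmI
      have h6 : Real.log (r m) - Real.log (r 0) ≤ Real.log (1 + η) := by linarith
      nlinarith [mul_le_mul_of_nonneg_left h6 (by linarith : 0 ≤ 1 - a / m)]
  -- right estimate
  have hright : Real.log (r m) - Real.log (r b) ≤ Real.log (1 + η) := by
    have hem : 0 < 1 + γ - m := by linarith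
    set l : ℝ := (b - m) / (1 + γ - m) with hl
    have hl0 : 0 < l := div_pos (by linarith) hem
    have hl1 : l < 1 := by rw [hl, div_lt_one hem]; linarith
    have h1 := hU m hmI (1 + γ) heI l hl0 hl1
    have h2 : (1 - l) * m + l * (1 + γ) = b := by
      have : l * (1 + γ - m) = b - m := by rw [hl]; exact div_mul_cancel₀ _ hem.ne'
      linarith
    rw [h2] at h1
    have h5 := hSx m hmI
    have h6 : Real.log (r m) - Real.log (r (1 + γ)) ≤ -Real.log ε := by linarith
    have h7 : Real.log (r m) - Real.log (r b) ≤ l * (-Real.log ε) := by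
      nlinarith [mul_le_mul_of_nonneg_left h6 hl0.le]
    have h8 : l ≤ 1 / (2 * n * γ) := by
      rw [hl, hbm, div_le_div_iff₀ hem (by positivity)]
      have : γ ≤ 1 + γ - m := by linarith
      calc 1 / (2 * (n : ℝ)) * (2 * n * γ) = γ := by field_simp
        _ ≤ 1 * (1 + γ - m) := by linarith
    have h9 : l * (-Real.log ε) ≤ Real.log (1 + η) := by
      calc l * (-Real.log ε) ≤ 1 / (2 * n * γ) * (-Real.log ε) :=
            mul_le_mul_of_nonneg_right h8 hlε
        _ ≤ 1 / (2 * n * γ) * ((n : ℝ) * (2 * γ * Real.log (1 + η))) :=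
            mul_le_mul_of_nonneg_left hnn (by positivity)
        _ = Real.log (1 + η) := by field_simp
    linarith
  have hfin : Real.log (r m) ≤ Real.log ((1 + η) * Real.sqrt (r a * r b)) := by
    have hra := (hr a haI).1
    have hrb := (hr b hbI).1
    rw [Real.log_mul (by positivity) (by positivity), Real.log_sqrt (by positivity),
      Real.log_mul (by positivity) (by positivity)]
    linarith
  have hrm := (hr m hmI).1
  have hra := (hr a haI).1
  have hrb := (hr b hbI).1
  exact (Real.log_le_log_iff hrm (by positivity)).mp hfin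

end Pool.Agent.R755.KF
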