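import Pool.Agent.H59.L.S8.R755.KF.Defs2
import Pool.Agent.H59.L.S8.R755.KF.T6
import Pool.Agent.H59.L.S8.R755.KF.P1

/-!
# K5W: from one fibre to the next
-/

set_option autoImplicit false

namespace Pool.Agent.R755.KF

open MeasureTheory Set Filter Topology
open scoped ENNReal InnerProductSpace
open Pool.Agent.H888R2.KT (gs gc gc_pos gs_deriv)
open Pool.Agent.R754.KG (E un sl Rv un_prob un_int)

namespace K5Waux

open T36

section gauss

variable {k : ℕ} {h : ℝ}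

/-- variance of a Lipschitz function -/
theorem var_leW (h1 : S_REP) (h4 : S_GP) (hh : 0 < h) {A δ s B C L : ℝ} {ν : Measure (E k)}
    (hA : 0 ≤ A) (hν : PW A δ s B ν) {f : E k → ℝ} (hf : BL C f) (hf1 : ∀ y, |f y| ≤ 1)
    (hL : 0 ≤ L) (hfL : ∀ y, ‖fderiv ℝ f y‖ ≤ L) :
    ey h ν (fun y => f y ^ 2) - ey h ν f ^ 2 ≤ (h + A) * L ^ 2 + δ := by
  have := hν.pb.prob
  have hfc : Continuous f := hf.c1.continuous
  have hG : ContDiff ℝ 1 (gs h f) := (gs_deriv h hh f hf.c1 C hf.bd hf.gd).1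
  have hGc : Continuous (gs h f) := hG.continuous
  have b2 : ∀ y, |f y ^ 2| ≤ C ^ 2 := by
    intro y
    rw [abs_pow]
    exact pow_le_pow_left₀ (abs_nonneg _) (hf.bd y) 2
  have i1 : Integrable (gs h fun y => f y ^ 2) ν := ey_int h1 hh hν.pb (hfc.pow 2) (lg_of_bd b2)
  have i2 : Integrable (fun x => gs h f x ^ 2) ν := pb_int hν.pb (hGc.pow 2)
  have e1 : ey h ν (fun y => f y ^ 2) - ∫ x, gs h f x ^ 2 ∂ν ≤ h * L ^ 2 := by
    unfold ey
    rw [← integral_sub i1 i2]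
    have : ∫ _x : E k, h * L ^ 2 ∂ν = h * L ^ 2 := by simp
    rw [← this]
    refine integral_mono (i1.sub i2) (integrable_const _) fun x => ?_
    refine (h4 k h C f hh hf x).trans ?_
    refine mul_le_mul_of_nonneg_left ?_ hh.le
    refine (le_abs_self _).trans (T6aux.gs_le_bd hh (cont_nfd hf) (fun y => ?_) x)
    rw [abs_of_nonneg (by positivity)]
    exact pow_le_pow_left₀ (norm_nonneg _) (hfL y) 2
  have gb1 : ∀ x, |gs h f x| ≤ 1 := T6aux.gs_le_bd hh hfc hf1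
  have gbL : ∀ x, ‖fderiv ℝ (gs h f) x‖ ≤ L := T6aux.grad_le hh hf hL hfL
  have hBL : BL (max 1 L) (gs h f) :=
    ⟨hG, fun x => (gb1 x).trans (le_max_left _ _), fun x => (gbL x).trans (le_max_right _ _)⟩
  have e2' : (∫ x, gs h f x ^ 2 ∂ν) - (∫ x, gs h f x ∂ν) ^ 2 ≤ δ + A * L ^ 2 := by
    refine (hν.poi _ _ hBL gb1).trans ?_
    refine add_le_add le_rfl (mul_le_mul_of_nonneg_left ?_ hA)
    have : ∫ _x : E k, L ^ 2 ∂ν = L ^ 2 := by simp
    rw [← this]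
    refine integral_mono (pb_int hν.pb ((hG.continuous_fderiv (by norm_num)).norm.pow 2))
      (integrable_const _) fun x => ?_
    exact pow_le_pow_left₀ (norm_nonneg _) (gbL x) 2
  have : ey h ν f = ∫ x, gs h f x ∂ν := rfl
  rw [this]
  linarith

theorem exp2 (h1 : S_REP) (hh : 0 < h) {B C : ℝ} {ν : Measure (E k)} (hν : PB B ν)
    {f : E k → ℝ} (hf : BL C f) (c : ℝ) : ey h ν (fun y => (f y - c) ^ 2) =
      ey h ν (fun y => f y ^ 2) - 2 * c * ey h ν f + c ^ 2 := by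
  have := hν.prob
  have hfc : Continuous f := hf.c1.continuous
  have bf2 : ∀ y, |f y ^ 2| ≤ C ^ 2 := by
    intro y
    rw [abs_pow]
    exact pow_le_pow_left₀ (abs_nonneg _) (hf.bd y) 2
  have e : (fun y => (f y - c) ^ 2) = fun y => (f y ^ 2 - (2 * c) * f y) + c ^ 2 := by
    funext y
    ring
  have b1 : ∀ y, |(2 * c) * f y| ≤ |2 * c| * C := by
    intro y
    rw [abs_mul]
    exact mul_le_mul_of_nonneg_left (hf.bd y) (abs_nonneg _)
  have b2 : ∀ y, |f y ^ 2 - (2 * c) * f y| ≤ C ^ 2 + |2 * c| * C := fun y =>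
    (abs_sub _ _).trans (add_le_add (bf2 y) (b1 y))
  have b3 : ∀ y : E k, |(fun _ => c ^ 2 : E k → ℝ) y| ≤ |c ^ 2| := fun _ => le_refl _
  have c1 : Continuous fun y => (2 * c) * f y := continuous_const.mul hfc
  have c2 : Continuous fun y => f y ^ 2 - (2 * c) * f y := (hfc.pow 2).sub c1
  have c0 : Continuous fun y => f y ^ 2 := hfc.pow 2
  rw [e, ey_add h1 hh hν c2 continuous_const (lg_of_bd b2) (lg_of_bd b3),
    ey_sub h1 hh hν c0 c1 (lg_of_bd bf2) (lg_of_bd b1), ey_cm, ey_const hh]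

end gauss

section fibre

theorem sq_exp {X : Type} [MeasurableSpace X] {μ : Measure X} [IsProbabilityMeasure μ] {F : X → ℝ}
    (hF : Integrable F μ) (hFF : Integrable (fun x => F x ^ 2) μ) (c : ℝ) :
    ∫ x, (F x - c) ^ 2 ∂μ = (∫ x, F x ^ 2 ∂μ) - 2 * c * (∫ x, F x ∂μ) + c ^ 2 := by
  have e : ∀ x, (F x - c) ^ 2 = (F x ^ 2 - (2 * c) * F x) + c ^ 2 := by
    intro x
    ring
  have i1 : Integrable (fun x => F x ^ 2 - (2 * c) * F x) μ := hFF.sub (hF.const_mul _)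
  simp_rw [e]
  rw [integral_add i1 (integrable_const _),
    integral_sub hFF (hF.const_mul _), integral_const_mul, integral_const, probReal_univ, one_smul]

variable {N d k : ℕ} {K : Set (E N × E d)}

theorem sl_closed (hK : IsCompact K) (t : E d) : IsClosed (sl K t) := by
  have : sl K t = (fun x : E N => (x, t)) ⁻¹' K := rfl
  rw [this]
  exact hK.isClosed.preimage (by fun_prop)

theorem sl_bdd (hK : IsCompact K) (t : E d) : Bornology.IsBounded (sl K t) :=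
  hK.isBounded.image_fst.subset fun x hx => ⟨(x, t), hx, rfl⟩

theorem vol_ne {t : E d} (ht : 0 < Rv K t) : volume (sl K t) ≠ 0 := by
  intro h0
  unfold Rv at ht
  rw [h0] at ht
  simp at ht

/-- the linear functional on the whole body -/
theorem var_all (_hK : CB K) (T : E N × E d →ₗ[ℝ] E k) {s : ℝ}
    (hs : ∀ θ : E k, ‖θ‖ = 1 →
      (∫ z, ⟪T z, θ⟫_ℝ ^ 2 ∂(un K)) - (∫ z, ⟪T z, θ⟫_ℝ ∂(un K)) ^ 2 ≤ s) (v : E k) :
    (∫ z, ⟪T z, v⟫_ℝ ^ 2 ∂(un K)) - (∫ z, ⟪T z, v⟫_ℝ ∂(un K)) ^ 2 ≤ s * ‖v‖ ^ 2 := by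
  rcases eq_or_ne v 0 with rfl | hv
  · simp
  · have hvn : 0 < ‖v‖ := norm_pos_iff.2 hv
    set θ : E k := ‖v‖⁻¹ • v with hθ
    have hθ1 : ‖θ‖ = 1 := by
      rw [hθ, norm_smul, norm_inv, norm_norm, inv_mul_cancel₀ hvn.ne']
    have hvθ : v = ‖v‖ • θ := by
      rw [hθ, smul_smul, mul_inv_cancel₀ hvn.ne', one_smul]
    have h1 := hs θ hθ1
    have e1 : ∀ z, ⟪T z, v⟫_ℝ = ‖v‖ * ⟪T z, θ⟫_ℝ := by
      intro z
      conv_lhs => rw [hvθ]
      rw [inner_smul_right]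
    simp_rw [e1, mul_pow]
    rw [integral_const_mul, integral_const_mul, mul_pow]
    have h2 : 0 < ‖v‖ ^ 2 := by positivity
    nlinarith

theorem Tcont (T : E N × E d →ₗ[ℝ] E k) : Continuous T := LinearMap.continuous_of_finiteDimensional T

theorem Tscont (T : E N × E d →ₗ[ℝ] E k) (t : E d) : Continuous fun x : E N => T (x, t) :=
  (Tcont T).comp (by fun_prop)

/-- second moments on a fibre, relative to the mean over the body -/
theorem mom_fib (h2 : S_MOM) (hK : CB K) (T : E N × E d →ₗ[ℝ] E k) {s S ε : ℝ} (hS : 0 < S)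
    (hε : 0 < ε) (hR : ∀ t, Rv K t ≤ S)
    (hs : ∀ θ : E k, ‖θ‖ = 1 →
      (∫ z, ⟪T z, θ⟫_ℝ ^ 2 ∂(un K)) - (∫ z, ⟪T z, θ⟫_ℝ ∂(un K)) ^ 2 ≤ s)
    (τ : E d) (hτ : ε * S ≤ Rv K τ) (v : E k) :
    ∫ x, (⟪T (x, τ), v⟫_ℝ - ∫ z, ⟪T z, v⟫_ℝ ∂(un K)) ^ 2 ∂(un (sl K τ)) ≤
      36 * 4 ^ d / ε * s * ‖v‖ ^ 2 := by
  set m : ℝ := ∫ z, ⟪T z, v⟫_ℝ ∂(un K) with hm
  have hKprob : IsProbabilityMeasure (un K) := un_prob hK.pos.ne' hK.comp.measure_lt_top.ne
  have hc : Continuous fun z : E N × E d => ⟪T z, v⟫_ℝ := (Tcont T).inner continuous_const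
  have i1 : Integrable (fun z : E N × E d => ⟪T z, v⟫_ℝ) (un K) :=
    un_int hK.pos.ne' hK.comp.isBounded hc
  have i2 : Integrable (fun z : E N × E d => ⟪T z, v⟫_ℝ ^ 2) (un K) :=
    un_int hK.pos.ne' hK.comp.isBounded (hc.pow 2)
  have h3 := h2 N d K hK S ε τ hS hε hR hτ (fun z => ⟪T z, v⟫_ℝ - m) (hc.sub continuous_const)
    (by
      intro z z'
      simp only [map_smul, map_add, inner_smul_left, inner_add_left]
      simp
      ring)
  refine h3.trans ?_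
  rw [sq_exp i1 i2 m, ← hm]
  have h4 := var_all hK T hs v
  rw [← hm] at h4
  have h5 : (0 : ℝ) ≤ 36 * 4 ^ d / ε := by positivity
  calc 36 * 4 ^ d / ε * ((∫ z, ⟪T z, v⟫_ℝ ^ 2 ∂(un K)) - 2 * m * m + m ^ 2)
      = 36 * 4 ^ d / ε * ((∫ z, ⟪T z, v⟫_ℝ ^ 2 ∂(un K)) - m ^ 2) := by ring
    _ ≤ 36 * 4 ^ d / ε * (s * ‖v‖ ^ 2) := mul_le_mul_of_nonneg_left h4 h5
    _ = 36 * 4 ^ d / ε * s * ‖v‖ ^ 2 := by ring

/-- variance and mean on a fibre -/
theorem fib_lin (h2 : S_MOM) (hK : CB K) (T : E N × E d →ₗ[ℝ] E k) {s S ε : ℝ} (hS : 0 < S)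
    (hε : 0 < ε) (hR : ∀ t, Rv K t ≤ S)
    (hs : ∀ θ : E k, ‖θ‖ = 1 →
      (∫ z, ⟪T z, θ⟫_ℝ ^ 2 ∂(un K)) - (∫ z, ⟪T z, θ⟫_ℝ ∂(un K)) ^ 2 ≤ s)
    (τ : E d) (hτ : ε * S ≤ Rv K τ) (v : E k) :
    (∫ x, ⟪T (x, τ), v⟫_ℝ ^ 2 ∂(un (sl K τ))) - (∫ x, ⟪T (x, τ), v⟫_ℝ ∂(un (sl K τ))) ^ 2 ≤
      36 * 4 ^ d / ε * s * ‖v‖ ^ 2 ∧
    ((∫ x, ⟪T (x, τ), v⟫_ℝ ∂(un (sl K τ))) - ∫ z, ⟪T z, v⟫_ℝ ∂(un K)) ^ 2 ≤
      36 * 4 ^ d / ε * s * ‖v‖ ^ 2 := by
  have hR0 : 0 < Rv K τ := lt_of_lt_of_le (by positivity) hτ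
  have hv0 := vol_ne hR0
  have hprob : IsProbabilityMeasure (un (sl K τ)) :=
    un_prob hv0 (sl_bdd hK.comp τ).measure_lt_top.ne
  have h3 := mom_fib h2 hK T hS hε hR hs τ hτ v
  set m : ℝ := ∫ z, ⟪T z, v⟫_ℝ ∂(un K) with hm
  have hc : Continuous fun x : E N => ⟪T (x, τ), v⟫_ℝ := (Tscont T τ).inner continuous_const
  have i1 : Integrable (fun x : E N => ⟪T (x, τ), v⟫_ℝ) (un (sl K τ)) :=
    un_int hv0 (sl_bdd hK.comp τ) hc
  have i2 : Integrable (fun x : E N => ⟪T (x, τ), v⟫_ℝ ^ 2) (un (sl K τ)) :=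
    un_int hv0 (sl_bdd hK.comp τ) (hc.pow 2)
  rw [sq_exp i1 i2 m] at h3
  have h4 := sq_exp i1 i2 (∫ x, ⟪T (x, τ), v⟫_ℝ ∂(un (sl K τ)))
  have h5 : 0 ≤ ∫ x, (⟪T (x, τ), v⟫_ℝ - ∫ x, ⟪T (x, τ), v⟫_ℝ ∂(un (sl K τ))) ^ 2 ∂(un (sl K τ)) :=
    integral_nonneg fun x => sq_nonneg _
  rw [h4] at h5
  constructor
  · nlinarith [sq_nonneg ((∫ x, ⟪T (x, τ), v⟫_ℝ ∂(un (sl K τ))) - m)]
  · nlinarith

theorem lw_int (T : E N × E d →ₗ[ℝ] E k) (τ : E d) {g : E k → ℝ} (hg : Continuous g) :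
    ∫ y, g y ∂(lw K T τ) = ∫ x, g (T (x, τ)) ∂(un (sl K τ)) := by
  unfold lw
  exact integral_map (Tscont T τ).measurable.aemeasurable hg.aestronglyMeasurable

theorem pb_fib (hK : CB K) (T : E N × E d →ₗ[ℝ] E k) {B : ℝ} (hB : ∀ z ∈ K, ‖T z‖ ≤ B)
    (τ : E d) (hR0 : 0 < Rv K τ) : PB B (lw K T τ) := by
  have hv0 := vol_ne hR0
  have hprob : IsProbabilityMeasure (un (sl K τ)) :=
    un_prob hv0 (sl_bdd hK.comp τ).measure_lt_top.ne
  constructor
  · unfold lw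
    exact Measure.isProbabilityMeasure_map (Tscont T τ).measurable.aemeasurable
  · unfold lw
    rw [ae_map_iff (Tscont T τ).measurable.aemeasurable
      (measurableSet_le measurable_norm measurable_const)]
    have h1 : ∀ᵐ x ∂(volume.restrict (sl K τ)), ‖T (x, τ)‖ ≤ B := by
      filter_upwards [ae_restrict_mem (sl_closed hK.comp τ).measurableSet] with x hx
      exact hB (x, τ) hx
    unfold un
    exact Measure.ae_smul_measure h1 _

theorem pw_fib (h2 : S_MOM) (hK : CB K) (T : E N × E d →ₗ[ℝ] E k) {s S ε A0 δ' B : ℝ}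
    (hs0 : 0 < s) (hS : 0 < S)
    (hε : 0 < ε) (hR : ∀ t, Rv K t ≤ S)
    (hs : ∀ θ : E k, ‖θ‖ = 1 →
      (∫ z, ⟪T z, θ⟫_ℝ ^ 2 ∂(un K)) - (∫ z, ⟪T z, θ⟫_ℝ ∂(un K)) ^ 2 ≤ s)
    (hB : ∀ z ∈ K, ‖T z‖ ≤ B)
    (hKW : ∀ t, volume (sl K t) ≠ 0 → KW A0 δ' (sl K t))
    (τ : E d) (hτ : ε * S ≤ Rv K τ) :
    PW (A0 * (36 * 4 ^ d / ε) * s) δ' (36 * 4 ^ d / ε * s) B (lw K T τ) := by
  have hR0 : 0 < Rv K τ := lt_of_lt_of_le (by positivity) hτ
  have hv0 := vol_ne hR0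
  have hprob : IsProbabilityMeasure (un (sl K τ)) :=
    un_prob hv0 (sl_bdd hK.comp τ).measure_lt_top.ne
  refine ⟨pb_fib hK T hB τ hR0, ?_, ?_⟩
  · intro C f hf hf1
    have hfc : Continuous f := hf.c1.continuous
    have hfd : Continuous (fderiv ℝ f) := cont_fd hf
    rw [lw_int T τ (g := fun y => f y ^ 2) (hfc.pow 2), lw_int T τ hfc, lw_int T τ (g := fun x => ‖fderiv ℝ f x‖ ^ 2)
      (hfd.norm.pow 2)]
    set w0 : E k := T (0, τ) with hw0
    set T' : E N →ₗ[ℝ] E k := T ∘ₗ LinearMap.inl ℝ (E N) (E d) with hT'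
    have hT'x : ∀ x, T' x + w0 = T (x, τ) := by
      intro x
      rw [hT', hw0, LinearMap.comp_apply, LinearMap.inl_apply, ← map_add]
      congr 1
      ext <;> simp
    have hkw := hKW τ hv0 k T' (36 * 4 ^ d / ε * s) (by positivity) (by
      intro θ hθ
      have h3 := (fib_lin h2 hK T hS hε hR hs τ hτ θ).1
      rw [hθ, one_pow, mul_one] at h3
      have hc : Continuous fun x : E N => ⟪T (x, τ), θ⟫_ℝ := (Tscont T τ).inner continuous_const
      have i1 : Integrable (fun x : E N => ⟪T (x, τ), θ⟫_ℝ) (un (sl K τ)) :=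
        un_int hv0 (sl_bdd hK.comp τ) hc
      have i2 : Integrable (fun x : E N => ⟪T (x, τ), θ⟫_ℝ ^ 2) (un (sl K τ)) :=
        un_int hv0 (sl_bdd hK.comp τ) (hc.pow 2)
      have e1 : ∀ x, ⟪T' x, θ⟫_ℝ = ⟪T (x, τ), θ⟫_ℝ - ⟪w0, θ⟫_ℝ := by
        intro x
        rw [← hT'x x, inner_add_left]
        ring
      simp_rw [e1]
      rw [sq_exp i1 i2, integral_sub i1 (integrable_const _), integral_const, probReal_univ,
        one_smul]
      nlinarith) C (fun y => f (y + w0))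
      ⟨hf.c1.comp (contDiff_id.add contDiff_const), fun y => hf.bd _, fun y => by
        rw [fderiv_comp_add_right]; exact hf.gd _⟩
      (fun y => hf1 _)
    simp only [fderiv_comp_add_right, hT'x] at hkw
    refine hkw.trans (le_of_eq ?_)
    ring
  · intro v
    have hc1 : Continuous fun y : E k => ⟪y, v⟫_ℝ := continuous_id.inner continuous_const
    rw [lw_int T τ (g := fun y => ⟪y, v⟫_ℝ ^ 2) (hc1.pow 2), lw_int T τ hc1]
    exact (fib_lin h2 hK T hS hε hR hs τ hτ v).1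

theorem pl3_mono {νa νb νm : Measure (E k)} {r r' : ℝ} (h : PL3 νa νb νm r) (hr : r ≤ r') :
    PL3 νa νb νm r' := by
  intro f g h' hf hg hh hle
  exact (h f g h' hf hg hh hle).trans
    (mul_le_mul' (ENNReal.ofReal_le_ofReal hr) le_rfl)

end fibre

end K5Waux

open K5Waux in
theorem chnw (h1 : S_GEO) (h2 : S_MOM) (h3 : S_ETA) (h4 : S_FIB) (h5 : S_PLH) (h6 : S_TMW)
    (h7 : S_GP) (_h8 : S_BE) : S_CHNW := by
  intro d ε γ δ hε hε1 hγ hδ
  obtain ⟨n, ρ0, hn, hρ0, hρ01, heta⟩ := h3 ε γ (1 / 8000) hε hε1 hγ (by norm_num)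
  have hnr : (0 : ℝ) < n := by exact_mod_cast hn
  refine ⟨min (1 / 10 ^ 11) (δ / (1 + (n : ℝ) ^ 2)), min ρ0 (1 - ε), by positivity,
    lt_min hρ0 (by linarith), (min_le_left _ _).trans_lt hρ01, ?_⟩
  set δ' := min (1 / 10 ^ 11) (δ / (1 + (n : ℝ) ^ 2)) with hδ'
  have hδ'0 : 0 < δ' := by positivity
  have hδ'1 : δ' ≤ 1 / 10 ^ 11 := min_le_left _ _
  have hδ'2 : (1 + (n : ℝ) ^ 2) * δ' ≤ δ := by
    have h9 : δ' ≤ δ / (1 + (n : ℝ) ^ 2) := min_le_right _ _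
    rw [le_div_iff₀ (by positivity)] at h9
    linarith
  intro A0 hA0
  set A2 : ℝ := 36 * 4 ^ d / ε with hA2
  have hA2p : 0 < A2 := by positivity
  set C : ℝ := 64 * A0 * A2 + 64 * A2 + 32000 * A2 with hC
  have hCp : 0 < C := by positivity
  refine ⟨C, (1 + (n : ℝ) ^ 2) * (A0 * A2 + C), hCp, by positivity, ?_⟩
  intro N k K hK hKW T s S hs0 hS hR hs ts hts t ht f L hf hL hf1 hfL
  set u : E d := t - ts with hu
  set r : ℝ → ℝ := fun x => Rv K (ts + x • u) with hr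
  have hr0 : r 0 = Rv K ts := by
    show Rv K (ts + (0 : ℝ) • u) = _
    rw [zero_smul, add_zero]
  have hr0' : (1 - min ρ0 (1 - ε)) * S ≤ r 0 := by rw [hr0]; exact hts
  have hr00 : (1 - ρ0) * S ≤ r 0 := by
    refine le_trans ?_ hr0'
    apply mul_le_mul_of_nonneg_right _ hS.le
    have := min_le_left ρ0 (1 - ε)
    linarith
  have hr0ε : ε * S ≤ r 0 := by
    refine le_trans ?_ hr0'
    apply mul_le_mul_of_nonneg_right _ hS.le
    have := min_le_right ρ0 (1 - ε)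
    linarith
  have hr1ε : ε * S ≤ r (1 + γ) := ht
  have hεS : 0 < ε * S := by positivity
  have hconc : ∀ x y l : ℝ, 0 < l → l < 1 → r x ^ (1 - l) * r y ^ l ≤ r ((1 - l) * x + l * y) := by
    intro x y l hl0 hl1
    have h9 := h1 N d K hK (ts + x • u) (ts + y • u) l hl0 hl1
    have e1 : (1 - l) • (ts + x • u) + l • (ts + y • u) = ts + ((1 - l) * x + l * y) • u := by
      module
    rw [e1] at h9
    exact h9
  have hrε : ∀ x ∈ Icc (0 : ℝ) (1 + γ), ε * S ≤ r x := by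
    rintro x ⟨hx0, hx1⟩
    rcases hx0.eq_or_lt with rfl | hx0
    · exact hr0ε
    rcases hx1.eq_or_lt with rfl | hx1
    · exact hr1ε
    have hl0 : 0 < x / (1 + γ) := by positivity
    have hl1 : x / (1 + γ) < 1 := by
      rw [div_lt_one (by positivity)]
      exact hx1
    have h9 := hconc 0 (1 + γ) (x / (1 + γ)) hl0 hl1
    have e1 : (1 - x / (1 + γ)) * 0 + x / (1 + γ) * (1 + γ) = x := by
      field_simp
      ring
    rw [e1] at h9
    refine le_trans ?_ h9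
    have e2 : (ε * S) ^ (1 - x / (1 + γ)) * (ε * S) ^ (x / (1 + γ)) = ε * S := by
      rw [← Real.rpow_add hεS]
      have : 1 - x / (1 + γ) + x / (1 + γ) = 1 := by ring
      rw [this, Real.rpow_one]
    calc ε * S = (ε * S) ^ (1 - x / (1 + γ)) * (ε * S) ^ (x / (1 + γ)) := e2.symm
      _ ≤ r 0 ^ (1 - x / (1 + γ)) * r (1 + γ) ^ (x / (1 + γ)) := by
          apply mul_le_mul
          · exact Real.rpow_le_rpow hεS.le hr0ε (by linarith)
          · exact Real.rpow_le_rpow hεS.le hr1ε hl0.le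
          · positivity
          · exact Real.rpow_nonneg (hεS.le.trans hr0ε) _
  have hrpos : ∀ x ∈ Icc (0 : ℝ) (1 + γ), 0 < r x := fun x hx => hεS.trans_le (hrε x hx)
  have hmid := heta r S hS (fun x hx => ⟨hrpos x hx, hR _⟩)
    (fun x _ y _ l hl0 hl1 => hconc x y l hl0 hl1) hr00 hr1ε
  -- the fibres
  set tt : ℕ → E d := fun j => ts + ((j : ℝ) / n) • u with htt
  have hjI : ∀ j : ℕ, j ≤ n → ((j : ℝ) / n) ∈ Icc (0 : ℝ) (1 + γ) := by
    intro j hj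
    refine ⟨by positivity, ?_⟩
    have h9 : (j : ℝ) / n ≤ 1 := by
      rw [div_le_one hnr]
      exact_mod_cast hj
    linarith
  have hRj : ∀ j : ℕ, j ≤ n → ε * S ≤ Rv K (tt j) := fun j hj => hrε _ (hjI j hj)
  obtain ⟨B0, hB0⟩ := hK.comp.exists_bound_of_continuousOn (Tcont T).continuousOn
  set B : ℝ := max B0 0 with hBdef
  have hB : ∀ z ∈ K, ‖T z‖ ≤ B := fun z hz => (hB0 z hz).trans (le_max_left _ _)
  have hB0' : 0 ≤ B := le_max_right _ _
  have hPW : ∀ j : ℕ, j ≤ n → PW (A0 * A2 * s) δ' (A2 * s) B (lw K T (tt j)) := fun j hj =>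
    pw_fib h2 hK T hs0 hS hε hR hs hB hKW (tt j) (hRj j hj)
  have hBLf : BL (max 1 L) f :=
    ⟨hf, fun y => (hf1 y).trans (le_max_left _ _), fun y => (hfL y).trans (le_max_right _ _)⟩
  set h0 : ℝ := C * s with hh0
  have hh0p : 0 < h0 := by positivity
  set R : ℝ := (A0 * A2 * s + h0) * L ^ 2 + δ' with hRdef
  have hR0 : 0 ≤ R := by positivity
  have hA2s : 0 < A2 * s := by positivity
  -- one step
  have hstep : ∀ j : ℕ, j < n →
      (ey h0 (lw K T (tt (j + 1))) f - ey h0 (lw K T (tt j)) f) ^ 2 ≤ R := by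
    intro j hj
    have hj1 : j + 1 ≤ n := hj
    have hpa := hPW j hj.le
    have hpb := hPW (j + 1) hj1
    have hmean : ∀ i : ℕ, i ≤ n → ∀ v : E k,
        |(∫ x, ⟪x, v⟫_ℝ ∂(lw K T (tt i))) - ∫ z, ⟪T z, v⟫_ℝ ∂(un K)| ≤ Real.sqrt (A2 * s) * ‖v‖ := by
      intro i hi v
      have hc1 : Continuous fun y : E k => ⟪y, v⟫_ℝ := continuous_id.inner continuous_const
      rw [lw_int T (tt i) hc1]
      have h9 := (fib_lin h2 hK T hS hε hR hs (tt i) (hRj i hi) v).2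
      have h10 : (Real.sqrt (A2 * s) * ‖v‖) ^ 2 = 36 * 4 ^ d / ε * s * ‖v‖ ^ 2 := by
        rw [mul_pow, Real.sq_sqrt hA2s.le]
      rw [← h10] at h9
      exact abs_le_of_sq_le_sq h9 (by positivity)
    refine h6 k h0 (A0 * A2 * s) δ' (A2 * s) B (2 * Real.sqrt (A2 * s)) (1 / 8000) L
      (lw K T (tt j)) (lw K T (tt (j + 1))) (by positivity) hδ'0.le hδ'1 hA2s.le ?_ ?_
      (by positivity) hB0' (by norm_num) hL le_rfl ?_ hpa hpb ?_ ?_ (max 1 L) f hBLf hf1 hfL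
    · rw [hh0, hC]
      nlinarith [mul_pos hA2p hs0, mul_pos (mul_pos hA0 hA2p) hs0]
    · rw [hh0, hC]
      nlinarith [mul_pos hA2p hs0, mul_pos (mul_pos hA0 hA2p) hs0]
    · rw [mul_pow, Real.sq_sqrt hA2s.le, hh0, hC]
      nlinarith [mul_pos hA2p hs0, mul_pos (mul_pos hA0 hA2p) hs0]
    · intro v
      have h9 := hmean j hj.le v
      have h10 := hmean (j + 1) hj1 v
      rw [abs_le] at h9 h10 ⊢
      constructor <;> linarith [h9.1, h9.2, h10.1, h10.2]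
    · intro h hh
      have hhp : 0 < h := lt_of_lt_of_le hh0p hh
      have emid : (1 / 2 : ℝ) • (tt j + tt (j + 1)) = ts + (((j : ℝ) + 1 / 2) / n) • u := by
        simp only [htt]
        push_cast
        have e9 : ((j : ℝ) + 1 / 2) / n = 1 / 2 * ((j : ℝ) / n) + 1 / 2 * (((j : ℝ) + 1) / n) := by
          field_simp
          ring
        rw [e9]
        module
      have hjm : (((j : ℝ) + 1 / 2) / n) ∈ Icc (0 : ℝ) (1 + γ) := by
        refine ⟨by positivity, ?_⟩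
        have h9 : ((j : ℝ) + 1 / 2) / n ≤ 1 := by
          rw [div_le_one hnr]
          have : (j : ℝ) + 1 ≤ n := by exact_mod_cast hj1
          linarith
        linarith
      have hRm : ε * S ≤ Rv K ((1 / 2 : ℝ) • (tt j + tt (j + 1))) := by
        rw [emid]
        exact hrε _ hjm
      have p0 : 0 < Rv K (tt j) := hεS.trans_le (hRj j hj.le)
      have p1 : 0 < Rv K (tt (j + 1)) := hεS.trans_le (hRj (j + 1) hj1)
      have pm : 0 < Rv K ((1 / 2 : ℝ) • (tt j + tt (j + 1))) := hεS.trans_le hRm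
      have hfib := h4 N d k K T (tt j) (tt (j + 1)) hK p0 p1 pm
      have hle : Rv K ((1 / 2 : ℝ) • (tt j + tt (j + 1))) ^ 2 /
          (Rv K (tt j) * Rv K (tt (j + 1))) ≤ (1 + 1 / 8000) ^ 2 := by
        rw [div_le_iff₀ (mul_pos p0 p1), emid]
        have h9 := hmid j hj
        have e10 : r ((j : ℝ) / n) = Rv K (tt j) := rfl
        have e11 : r (((j : ℝ) + 1) / n) = Rv K (tt (j + 1)) := by
          simp only [hr, htt]
          push_cast
          rfl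
        rw [e10, e11] at h9
        have h10 : r (((j : ℝ) + 1 / 2) / n) ^ 2 ≤
            ((1 + 1 / 8000) * Real.sqrt (Rv K (tt j) * Rv K (tt (j + 1)))) ^ 2 :=
          pow_le_pow_left₀ (hrpos _ hjm).le h9 2
        rw [mul_pow, Real.sq_sqrt (mul_pos p0 p1).le] at h10
        exact h10
      exact h5 k h B (1 / 8000) _ _ _ hhp hB0' (by norm_num) hpa.pb hpb.pb
        (pb_fib hK T hB _ pm) (pl3_mono hfib hle)
  -- telescoping
  have htel : ∀ j : ℕ, j ≤ n →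
      |ey h0 (lw K T (tt j)) f - ey h0 (lw K T (tt 0)) f| ≤ j * Real.sqrt R := by
    intro j
    induction j with
    | zero =>
      intro _
      simp
    | succ j ih =>
      intro hj
      have h9 := ih (by omega)
      have h10 : |ey h0 (lw K T (tt (j + 1))) f - ey h0 (lw K T (tt j)) f| ≤ Real.sqrt R :=
        Real.abs_le_sqrt (hstep j (by omega))
      rw [abs_le] at h9 h10 ⊢
      push_cast
      constructor <;> linarith [h9.1, h9.2, h10.1, h10.2]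
  have e0 : tt 0 = ts := by
    simp only [htt, Nat.cast_zero, zero_div, zero_smul, add_zero]
  have en : tt n = t := by
    simp only [htt]
    rw [div_self hnr.ne', one_smul, hu]
    abel
  have hlast := htel n le_rfl
  have hPn := hPW n le_rfl
  rw [en, e0] at hlast
  rw [en] at hPn
  have hvar := var_leW rep h7 hh0p (by positivity) hPn hBLf hf1 hL hfL
  have hexp := exp2 rep hh0p hPn.pb hBLf (ey h0 (lw K T ts) f)
  rw [hexp]
  have hsqd : (ey h0 (lw K T t) f - ey h0 (lw K T ts) f) ^ 2 ≤ (n : ℝ) ^ 2 * R := by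
    have h9 := sq_le_sq' (neg_le_of_abs_le hlast) (le_of_abs_le hlast)
    rwa [mul_pow, Real.sq_sqrt hR0] at h9
  have hfin : (1 + (n : ℝ) ^ 2) * R ≤ (1 + (n : ℝ) ^ 2) * (A0 * A2 + C) * s * L ^ 2 + δ := by
    rw [hRdef, hh0]
    nlinarith [hδ'2]
  nlinarith [hvar, hsqd, hfin]

end Pool.Agent.R755.KF
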