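import Pool.Agent.H59.L.S8.R755.KF.Defs

/-!
# The Prékopa–Leindler hypothesis for Gaussian averages
-/

set_option autoImplicit false

namespace Pool.Agent.R755.KF

open MeasureTheory Set Filter Topology
open scoped ENNReal InnerProductSpace
open Pool.Agent.H888R2.KT (gs gc)
open Pool.Agent.R754.KG (E un sl Rv)

namespace L1aux

theorem lint_zn {k : ℕ} {h B : ℝ} (ν : Measure (E k)) (hν : PB B ν) (hh : 0 < h) (y : E k) :
    ∫⁻ x, ENNReal.ofReal (Real.exp (-(‖x - y‖ ^ 2 / (2 * h)))) ∂ν =
      ENNReal.ofReal (zn h ν y) := by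
  haveI := hν.prob
  unfold zn
  rw [ofReal_integral_eq_lintegral_ofReal]
  · refine Integrable.of_bound (C := 1) ?_ ?_
    · exact Continuous.aestronglyMeasurable (by fun_prop)
    · refine ae_of_all _ fun x => ?_
      rw [Real.norm_eq_abs, abs_of_pos (Real.exp_pos _), Real.exp_le_one_iff]
      have : 0 ≤ ‖x - y‖ ^ 2 / (2 * h) := by positivity
      linarith
  · exact ae_of_all _ fun x => (Real.exp_pos _).le

end L1aux

/-- L1 -/
theorem plh (h1 : S_ZN) : S_PLH := by
  intro k h B η νa νb νm hh hB hη ha hb hm hPL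
  obtain ⟨hc, hpos, -, -, -, hint, hI⟩ := h1 k h B νm hh hB hm
  refine ⟨fun y => (1 + η) * zn h νm y, fun y => ?_, hint.const_mul _, ?_, ?_⟩
  · have := (hpos y).le
    positivity
  · rw [integral_const_mul, hI]
  · intro y v
    have key := hPL (fun x => ENNReal.ofReal (Real.exp (-(‖x - (y - v)‖ ^ 2 / (2 * h)))))
      (fun x => ENNReal.ofReal (Real.exp (-(‖x - (y + v)‖ ^ 2 / (2 * h)))))
      (fun x => ENNReal.ofReal (Real.exp (-(‖x - y‖ ^ 2 / (2 * h)))))
      (by fun_prop) (by fun_prop) (by fun_prop) (by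
        intro x z
        rw [← ENNReal.ofReal_mul (Real.exp_pos _).le, ← ENNReal.ofReal_pow (Real.exp_pos _).le,
          ← Real.exp_add, ← Real.exp_nat_mul]
        apply ENNReal.ofReal_le_ofReal
        apply Real.exp_le_exp.2
        have hpar : 2 * ‖(1 / 2 : ℝ) • (x + z) - y‖ ^ 2 ≤ ‖x - (y - v)‖ ^ 2 + ‖z - (y + v)‖ ^ 2 := by
          set a := x - (y - v) with ha'
          set b := z - (y + v) with hb'
          have e : (1 / 2 : ℝ) • (x + z) - y = (1 / 2 : ℝ) • (a + b) := by
            have : x + z = (a + b) + (2 : ℝ) • y := by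
              rw [ha', hb', two_smul]; abel
            rw [this, smul_add, smul_smul]
            norm_num
          rw [e, norm_smul]
          have h2 := parallelogram_law_with_norm ℝ a b
          have h3 : ‖(1 / 2 : ℝ)‖ = 1 / 2 := by norm_num
          rw [h3]
          nlinarith [sq_nonneg ‖a - b‖]
        have h2h : 0 < 2 * h := by linarith
        rw [← neg_add, ← add_div, Nat.cast_ofNat, mul_neg, neg_le_neg_iff, ← mul_div_assoc,
          div_le_div_iff_of_pos_right h2h]
        exact hpar)
    rw [L1aux.lint_zn νa ha hh, L1aux.lint_zn νb hb hh, L1aux.lint_zn νm hm hh] at key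
    have pa : 0 ≤ zn h νa (y - v) := integral_nonneg fun x => (Real.exp_pos _).le
    have pb : 0 ≤ zn h νb (y + v) := integral_nonneg fun x => (Real.exp_pos _).le
    have pm : 0 ≤ zn h νm y := (hpos y).le
    rw [← ENNReal.ofReal_mul pa, ← ENNReal.ofReal_pow pm, ← ENNReal.ofReal_mul (by positivity)] at key
    rw [ENNReal.ofReal_le_ofReal_iff (by positivity)] at key
    simp only
    rw [mul_pow]
    exact key

end Pool.Agent.R755.KF
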