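import Pool.Agent.H59.L.S8.R755.KF.Defs
import Pool.Agent.H59.L.S8.PZ871.Pl

/-!
# The Prékopa–Leindler inequality for the fibres of a convex body
-/

set_option autoImplicit false

namespace Pool.Agent.R755.KF

open MeasureTheory Set Filter Topology
open scoped ENNReal InnerProductSpace
open Pool.Agent.R754.KG (E un sl Rv)

namespace L3aux

theorem lint_map {N k : ℕ} (A : Set (E N)) (φ : E N → E k) (hA : MeasurableSet A)
    (hφ : Measurable φ) (f : E k → ℝ≥0∞) (hf : Measurable f) :
    ∫⁻ y, f y ∂(Measure.map φ (un A)) =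
      (volume A)⁻¹ * ∫⁻ x, A.indicator (fun x => f (φ x)) x := by
  rw [lintegral_map hf hφ, un, lintegral_smul_measure, lintegral_indicator hA, smul_eq_mul]

theorem gen {N k : ℕ} (A B C : Set (E N)) (φa φb φc : E N → E k) (hA : MeasurableSet A)
    (hB : MeasurableSet B) (hC : MeasurableSet C) (ha : Measurable φa) (hb : Measurable φb)
    (hc : Measurable φc) (vA : 0 < (volume A).toReal) (vB : 0 < (volume B).toReal)
    (vC : 0 < (volume C).toReal)
    (H : ∀ x ∈ A, ∀ y ∈ B, (1 / 2 : ℝ) • (x + y) ∈ C ∧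
      φc ((1 / 2 : ℝ) • (x + y)) = (1 / 2 : ℝ) • (φa x + φb y)) :
    PL3 (Measure.map φa (un A)) (Measure.map φb (un B)) (Measure.map φc (un C))
      ((volume C).toReal ^ 2 / ((volume A).toReal * (volume B).toReal)) := by
  intro f g h hf hg hh hfg
  rw [lint_map A φa hA ha f hf, lint_map B φb hB hb g hg, lint_map C φc hC hc h hh]
  have key := Pool.Agent.PZ871.M_pl.pl N (A.indicator fun x => f (φa x))
    (B.indicator fun x => g (φb x)) (C.indicator fun x => h (φc x))
    ((hf.comp ha).indicator hA) ((hg.comp hb).indicator hB) ((hh.comp hc).indicator hC) (by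
      intro x y
      by_cases hx : x ∈ A
      · by_cases hy : y ∈ B
        · obtain ⟨h1, h2⟩ := H x hx y hy
          rw [indicator_of_mem hx, indicator_of_mem hy, indicator_of_mem h1, h2]
          exact hfg _ _
        · rw [indicator_of_notMem hy, mul_zero]
          exact zero_le
      · rw [indicator_of_notMem hx, zero_mul]
        exact zero_le)
  have e0 : volume A ≠ 0 := fun h0 => by rw [h0] at vA; simp at vA
  have et : volume A ≠ ⊤ := fun h0 => by rw [h0] at vA; simp at vA
  have f0 : volume B ≠ 0 := fun h0 => by rw [h0] at vB; simp at vB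
  have ft : volume B ≠ ⊤ := fun h0 => by rw [h0] at vB; simp at vB
  have g0 : volume C ≠ 0 := fun h0 => by rw [h0] at vC; simp at vC
  have gt : volume C ≠ ⊤ := fun h0 => by rw [h0] at vC; simp at vC
  have er : ENNReal.ofReal ((volume C).toReal ^ 2 / ((volume A).toReal * (volume B).toReal)) =
      volume C ^ 2 * ((volume A)⁻¹ * (volume B)⁻¹) := by
    rw [ENNReal.ofReal_div_of_pos (by positivity), ENNReal.ofReal_pow ENNReal.toReal_nonneg,
      ENNReal.ofReal_mul ENNReal.toReal_nonneg, ENNReal.ofReal_toReal et, ENNReal.ofReal_toReal ft,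
      ENNReal.ofReal_toReal gt, div_eq_mul_inv, ENNReal.mul_inv (Or.inl e0) (Or.inl et)]
  rw [er]
  set I0 := ∫⁻ x, A.indicator (fun x => f (φa x)) x
  set I1 := ∫⁻ x, B.indicator (fun x => g (φb x)) x
  set Im := ∫⁻ x, C.indicator (fun x => h (φc x)) x
  have e3 : volume C ^ 2 * ((volume A)⁻¹ * (volume B)⁻¹) * ((volume C)⁻¹ * Im) ^ 2 =
      ((volume A)⁻¹ * (volume B)⁻¹) * Im ^ 2 := by
    have : volume C * (volume C)⁻¹ = 1 := ENNReal.mul_inv_cancel g0 gt
    calc volume C ^ 2 * ((volume A)⁻¹ * (volume B)⁻¹) * ((volume C)⁻¹ * Im) ^ 2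
        = (volume C * (volume C)⁻¹) ^ 2 * (((volume A)⁻¹ * (volume B)⁻¹) * Im ^ 2) := by ring
      _ = _ := by rw [this, one_pow, one_mul]
  rw [e3]
  calc (volume A)⁻¹ * I0 * ((volume B)⁻¹ * I1) = ((volume A)⁻¹ * (volume B)⁻¹) * (I0 * I1) := by
        ring
    _ ≤ _ := by gcongr

theorem sl_closed {N d : ℕ} {K : Set (E N × E d)} (hK : IsCompact K) (t : E d) :
    MeasurableSet (sl K t) := by
  have h1 : IsClosed (sl K t) := hK.isClosed.preimage (by fun_prop : Continuous fun x : E N => (x, t))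
  exact h1.measurableSet

end L3aux

/-- L3 -/
theorem fib : S_FIB := by
  intro N d k K T t0 t1 hK h0 h1 hm
  have hT : Continuous T := T.continuous_of_finiteDimensional
  refine L3aux.gen (sl K t0) (sl K t1) (sl K ((1 / 2 : ℝ) • (t0 + t1))) _ _ _
    (L3aux.sl_closed hK.comp _) (L3aux.sl_closed hK.comp _) (L3aux.sl_closed hK.comp _)
    (hT.comp (by fun_prop)).measurable (hT.comp (by fun_prop)).measurable
    (hT.comp (by fun_prop)).measurable h0 h1 hm ?_
  intro x hx y hy
  constructor
  · have h := hK.conv (show (x, t0) ∈ K from hx) (show (y, t1) ∈ K from hy)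
      (show (0 : ℝ) ≤ 1 / 2 by norm_num) (show (0 : ℝ) ≤ 1 / 2 by norm_num) (by norm_num)
    change ((1 / 2 : ℝ) • (x + y), (1 / 2 : ℝ) • (t0 + t1)) ∈ K
    rw [Prod.smul_mk, Prod.smul_mk, Prod.mk_add_mk] at h
    rwa [smul_add, smul_add]
  · change T ((1 / 2 : ℝ) • (x + y), (1 / 2 : ℝ) • (t0 + t1)) =
      (1 / 2 : ℝ) • (T (x, t0) + T (y, t1))
    rw [← map_add, ← map_smul]
    rfl

/-- L4 -/
theorem wh : S_WH := by
  intro n k K T hK hc hv
  have hT : Continuous T := T.continuous_of_finiteDimensional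
  have hfin : volume K ≠ ⊤ := hc.measure_lt_top.ne
  have hpos : 0 < (volume K).toReal := ENNReal.toReal_pos hv.ne' hfin
  have h := L3aux.gen K K K T T T hc.isClosed.measurableSet hc.isClosed.measurableSet
    hc.isClosed.measurableSet hT.measurable hT.measurable hT.measurable hpos hpos hpos (by
      intro x hx y hy
      constructor
      · have h := hK hx hy (show (0 : ℝ) ≤ 1 / 2 by norm_num) (show (0 : ℝ) ≤ 1 / 2 by norm_num)
          (by norm_num)
        rwa [smul_add]
      · rw [map_smul, map_add])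
  have e : (volume K).toReal ^ 2 / ((volume K).toReal * (volume K).toReal) = 1 := by
    rw [sq, div_self (by positivity)]
  rwa [e] at h

end Pool.Agent.R755.KF
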