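import Pool.Agent.H59.L.S8.R755.KF.Defs
import Pool.Agent.H59.L.S8.H888R2.KT.N0

/-!
# P2: properties of the density of `X + √h Z`
-/

set_option autoImplicit false

namespace Pool.Agent.R755.KF

open MeasureTheory Set Filter Topology
open scoped ENNReal InnerProductSpace
open Pool.Agent.H888R2.KT (gs gc)
open Pool.Agent.R754.KG (E un sl Rv)

namespace P2aux

variable {k : ℕ}

/-- the kernel -/
noncomputable def Kn (h : ℝ) (x y : E k) : ℝ := Real.exp (-(‖x - y‖ ^ 2 / (2 * h)))

/-- its derivative in the second variable -/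
noncomputable def Kd (h : ℝ) (x y : E k) : E k →L[ℝ] ℝ := (Kn h x y / h) • innerSL ℝ (x - y)

lemma Kn_pos (h : ℝ) (x y : E k) : 0 < Kn h x y := Real.exp_pos _

lemma Kn_le_one {h : ℝ} (hh : 0 < h) (x y : E k) : Kn h x y ≤ 1 := by
  unfold Kn
  rw [Real.exp_le_one_iff]
  have : 0 ≤ ‖x - y‖ ^ 2 / (2 * h) := by positivity
  linarith

lemma Kn_cont (h : ℝ) : Continuous fun p : E k × E k => Kn h p.1 p.2 := by
  unfold Kn
  fun_prop

lemma Kd_cont (h : ℝ) : Continuous fun p : E k × E k => Kd h p.1 p.2 := by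
  unfold Kd
  exact ((Kn_cont h).div_const h).smul
    ((innerSL ℝ).continuous.comp (continuous_fst.sub continuous_snd))

lemma Kn_mul {h : ℝ} (hh : 0 < h) (x y : E k) : Kn h x y * ‖x - y‖ ≤ 1 + h := by
  unfold Kn
  set t := ‖x - y‖ with ht
  have ht0 : 0 ≤ t := norm_nonneg _
  have h1 : t ≤ (1 + h) * Real.exp (t ^ 2 / (2 * h)) := by
    have h2 : t ^ 2 / (2 * h) + 1 ≤ Real.exp (t ^ 2 / (2 * h)) := Real.add_one_le_exp _
    have h3 : t ≤ (1 + h) * (t ^ 2 / (2 * h) + 1) := by
      have h4 : (1 + h) * (t ^ 2 / (2 * h) + 1) = t ^ 2 / (2 * h) + t ^ 2 / 2 + 1 + h := by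
        field_simp
        ring
      have h5 : 0 ≤ t ^ 2 / (2 * h) := by positivity
      nlinarith [sq_nonneg (t - 1)]
    exact h3.trans (mul_le_mul_of_nonneg_left h2 (by linarith))
  calc Real.exp (-(t ^ 2 / (2 * h))) * t ≤
      Real.exp (-(t ^ 2 / (2 * h))) * ((1 + h) * Real.exp (t ^ 2 / (2 * h))) :=
        mul_le_mul_of_nonneg_left h1 (Real.exp_pos _).le
    _ = 1 + h := by
        rw [mul_left_comm, ← Real.exp_add, neg_add_cancel, Real.exp_zero, mul_one]

lemma Kd_norm {h : ℝ} (hh : 0 < h) (x y : E k) : ‖Kd h x y‖ ≤ (1 + h) / h := by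
  unfold Kd
  rw [norm_smul, innerSL_apply_norm, Real.norm_of_nonneg (div_nonneg (Kn_pos h x y).le hh.le),
    div_mul_eq_mul_div]
  exact div_le_div_of_nonneg_right (Kn_mul hh x y) hh.le

lemma Kn_deriv {h : ℝ} (hh : 0 < h) (x y : E k) : HasFDerivAt (fun y => Kn h x y) (Kd h x y) y := by
  have h1 : HasFDerivAt (fun y : E k => x - y) (-(ContinuousLinearMap.id ℝ (E k))) y :=
    (hasFDerivAt_id y).const_sub x
  have h2 := h1.norm_sq
  have h3 := ((h2.mul_const (1 / (2 * h))).neg).exp
  have e1 : (fun y : E k => Real.exp (-(‖x - y‖ ^ 2 * (1 / (2 * h))))) = fun y => Kn h x y := by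
    funext y
    unfold Kn
    congr 2
    ring
  have e2 : Real.exp (-(‖x - y‖ ^ 2 * (1 / (2 * h)))) • (-((1 / (2 * h)) •
      (2 • ((innerSL ℝ) (x - y)).comp (-(ContinuousLinearMap.id ℝ (E k)))))) = Kd h x y := by
    ext v
    have e3 : Real.exp (-(‖x - y‖ ^ 2 * (1 / (2 * h)))) = Kn h x y := congrFun e1 y
    rw [e3]
    simp [Kd]
    field_simp
    ring
  rw [← e2, ← e1]
  exact h3

variable {h B : ℝ} {ν : Measure (E k)}

lemma zn_eq (y : E k) : zn h ν y = ∫ x, Kn h x y ∂ν := rfl

lemma Kn_int (hh : 0 < h) [IsProbabilityMeasure ν] (y : E k) : Integrable (fun x => Kn h x y) ν := by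
  refine Integrable.of_bound ?_ 1 (Filter.Eventually.of_forall fun x => ?_)
  · exact ((Kn_cont h).comp (continuous_id.prodMk continuous_const)).aestronglyMeasurable
  · rw [Real.norm_of_nonneg (Kn_pos h x y).le]
    exact Kn_le_one hh x y

lemma Kd_int (hh : 0 < h) [IsProbabilityMeasure ν] (y : E k) : Integrable (fun x => Kd h x y) ν := by
  refine Integrable.of_bound ?_ ((1 + h) / h) (Filter.Eventually.of_forall fun x => ?_)
  · exact ((Kd_cont h).comp (continuous_id.prodMk continuous_const)).aestronglyMeasurable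
  · exact Kd_norm hh x y

lemma zn_deriv (hh : 0 < h) [IsProbabilityMeasure ν] (y : E k) :
    HasFDerivAt (zn h ν) (∫ x, Kd h x y ∂ν) y := by
  refine hasFDerivAt_integral_of_dominated_of_fderiv_le (F := fun y x => Kn h x y)
    (F' := fun y x => Kd h x y) (bound := fun _ => (1 + h) / h) univ_mem ?_ (Kn_int hh y)
    (Kd_int hh y).aestronglyMeasurable ?_ (integrable_const _) ?_
  · exact Filter.Eventually.of_forall fun z => (Kn_int hh z).aestronglyMeasurable
  · exact Filter.Eventually.of_forall fun x z _ => Kd_norm hh x z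
  · exact Filter.Eventually.of_forall fun x z _ => Kn_deriv hh x z

lemma zn_fderiv (hh : 0 < h) [IsProbabilityMeasure ν] (y : E k) :
    fderiv ℝ (zn h ν) y = ∫ x, Kd h x y ∂ν := (zn_deriv hh y).fderiv

lemma zn_c1 (hh : 0 < h) [IsProbabilityMeasure ν] : ContDiff ℝ 1 (zn h ν) := by
  rw [contDiff_one_iff_fderiv]
  refine ⟨fun y => (zn_deriv hh y).differentiableAt, ?_⟩
  have : fderiv ℝ (zn h ν) = fun y => ∫ x, Kd h x y ∂ν := by
    funext y; exact zn_fderiv hh y
  rw [this]
  have hc : ∀ x : E k, Continuous fun y => Kd h x y := fun x => by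
    have h1 : Continuous fun y : E k => ((x, y) : E k × E k) := by fun_prop
    have h2 := (Kd_cont h (k := k)).comp h1
    exact h2
  have hb : Integrable (fun _ : E k => (1 + h) / h) ν := integrable_const _
  have hm : ∀ y : E k, AEStronglyMeasurable (fun x => Kd h x y) ν :=
    fun y => (Kd_int hh y).aestronglyMeasurable
  have hn : ∀ y : E k, ∀ᵐ x ∂ν, ‖Kd h x y‖ ≤ (1 + h) / h :=
    fun y => Filter.Eventually.of_forall fun x => Kd_norm hh x y
  exact continuous_of_dominated hm hn hb (Filter.Eventually.of_forall hc)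

lemma zn_pos (hh : 0 < h) [IsProbabilityMeasure ν] (y : E k) : 0 < zn h ν y := by
  rw [zn_eq]
  exact integral_exp_pos (Kn_int hh y)

lemma zn_le (hh : 0 < h) [IsProbabilityMeasure ν] (y : E k) : zn h ν y ≤ 1 := by
  rw [zn_eq]
  calc ∫ x, Kn h x y ∂ν ≤ ∫ _, (1 : ℝ) ∂ν :=
        integral_mono (Kn_int hh y) (integrable_const _) fun x => Kn_le_one hh x y
    _ = 1 := by simp

end P2aux

open P2aux

theorem zn_ok : S_ZN := by
  intro k h B ν hh hB hν
  have := hν.prob
  refine ⟨zn_c1 hh, zn_pos hh, zn_le hh, ?_, ?_, ?_⟩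
  · intro y
    have e1 : fderiv ℝ (zn h ν) y + ((1 / h) * zn h ν y) • innerSL ℝ y =
        ∫ x, (Kn h x y / h) • innerSL ℝ x ∂ν := by
      have e2 : ((1 / h) * zn h ν y) • innerSL ℝ y = ∫ x, (Kn h x y / h) • innerSL ℝ y ∂ν := by
        rw [integral_smul_const, integral_div, ← zn_eq]
        congr 1
        ring
      rw [zn_fderiv hh y, e2, ← integral_add (Kd_int hh y)
        (((Kn_int hh y).div_const h).smul_const _)]
      refine integral_congr_ae (Filter.Eventually.of_forall fun x => ?_)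
      simp only [Kd]
      rw [← smul_add, ← map_add, sub_add_cancel]
    rw [e1]
    calc ‖∫ x, (Kn h x y / h) • innerSL ℝ x ∂ν‖ ≤ ∫ x, B / h * Kn h x y ∂ν := by
          refine norm_integral_le_of_norm_le ((Kn_int hh y).const_mul _) ?_
          filter_upwards [hν.bdd] with x hx
          rw [norm_smul, innerSL_apply_norm,
            Real.norm_of_nonneg (div_nonneg (Kn_pos h x y).le hh.le)]
          calc Kn h x y / h * ‖x‖ ≤ Kn h x y / h * B :=
                mul_le_mul_of_nonneg_left hx (div_nonneg (Kn_pos h x y).le hh.le)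
            _ = B / h * Kn h x y := by ring
      _ = B / h * zn h ν y := by rw [integral_const_mul, zn_eq]
  · intro y v
    have hz := zn_pos (ν := ν) hh y
    set m : ℝ := fderiv ℝ (zn h ν) y v / zn h ν y with hm
    have e1 : ∀ x : E k, Kn h x (y + v) =
        Kn h x y * Real.exp (⟪x - y, v⟫_ℝ / h) * Real.exp (-(‖v‖ ^ 2 / (2 * h))) := by
      intro x
      unfold Kn
      rw [← Real.exp_add, ← Real.exp_add]
      congr 1
      have : x - (y + v) = (x - y) - v := by abel
      rw [this, norm_sub_sq_real]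
      field_simp
      ring
    have hd : fderiv ℝ (zn h ν) y v = ∫ x, Kn h x y * (⟪x - y, v⟫_ℝ / h) ∂ν := by
      rw [zn_fderiv hh y, ContinuousLinearMap.integral_apply (Kd_int hh y)]
      refine integral_congr_ae (Filter.Eventually.of_forall fun x => ?_)
      simp [Kd, inner_sub_left]
      ring
    have hdi : Integrable (fun x => Kn h x y * (⟪x - y, v⟫_ℝ / h)) ν := by
      have := (Kd_int (ν := ν) hh y).apply_continuousLinearMap v
      refine this.congr (Filter.Eventually.of_forall fun x => ?_)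
      simp [Kd, inner_sub_left]
      ring
    have key : ∀ x : E k, Real.exp (m - ‖v‖ ^ 2 / (2 * h)) *
        (Kn h x y * (1 - m) + Kn h x y * (⟪x - y, v⟫_ℝ / h)) ≤ Kn h x (y + v) := by
      intro x
      rw [e1 x]
      have h1 : 1 + (⟪x - y, v⟫_ℝ / h - m) ≤ Real.exp (⟪x - y, v⟫_ℝ / h - m) := by
        have := Real.add_one_le_exp (⟪x - y, v⟫_ℝ / h - m)
        linarith
      have h2 : Real.exp (m - ‖v‖ ^ 2 / (2 * h)) =
          Real.exp m * Real.exp (-(‖v‖ ^ 2 / (2 * h))) := by
        rw [← Real.exp_add]; rfl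
      have h3 : Real.exp (⟪x - y, v⟫_ℝ / h) = Real.exp m * Real.exp (⟪x - y, v⟫_ℝ / h - m) := by
        rw [← Real.exp_add]; congr 1; ring
      rw [h2, h3]
      have h4 : 0 ≤ Real.exp m * Real.exp (-(‖v‖ ^ 2 / (2 * h))) * Kn h x y :=
        mul_nonneg (by positivity) (Kn_pos h x y).le
      nlinarith [mul_le_mul_of_nonneg_left h1 h4]
    have hint : Integrable (fun x => Kn h x y * (1 - m) + Kn h x y * (⟪x - y, v⟫_ℝ / h)) ν :=
      ((Kn_int hh y).mul_const _).add hdi
    have h5 : ∫ x, Real.exp (m - ‖v‖ ^ 2 / (2 * h)) *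
        (Kn h x y * (1 - m) + Kn h x y * (⟪x - y, v⟫_ℝ / h)) ∂ν ≤ zn h ν (y + v) :=
      integral_mono (hint.const_mul _) (Kn_int hh _) key
    rw [integral_const_mul, integral_add ((Kn_int hh y).mul_const _) hdi, ← hd,
      integral_mul_const, ← zn_eq] at h5
    have h6 : zn h ν y * (1 - m) + fderiv ℝ (zn h ν) y v = zn h ν y := by
      have : m * zn h ν y = fderiv ℝ (zn h ν) y v := div_mul_cancel₀ _ hz.ne'
      linarith
    rw [h6] at h5
    linarith
  · have hgc := Pool.Agent.H888R2.KT.gc_pos (κ := Fin k) h hh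
    have hprod : Integrable (fun p : E k × E k => Kn h p.1 p.2) (ν.prod volume) := by
      rw [integrable_prod_iff (Kn_cont h).aestronglyMeasurable]
      refine ⟨Filter.Eventually.of_forall fun x => hgc.2.2.1 x, ?_⟩
      have : (fun x : E k => ∫ y, ‖Kn h (x, y).1 (x, y).2‖) = fun _ => gc (Fin k) h := by
        funext x
        rw [← hgc.2.1 x]
        refine integral_congr_ae (Filter.Eventually.of_forall fun y => ?_)
        exact Real.norm_of_nonneg (Kn_pos h x y).le
      rw [this]
      exact integrable_const _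
    refine ⟨hprod.integral_prod_right, ?_⟩
    have h1 := integral_integral_swap (f := fun x y => Kn h x y) (μ := ν) (ν := volume) hprod
    have h2 : ∫ y, zn h ν y = ∫ y, ∫ x, Kn h x y ∂ν := rfl
    rw [h2, ← h1]
    have h3 : (fun x : E k => ∫ y, Kn h x y) = fun _ => gc (Fin k) h := by
      funext x
      exact hgc.2.1 x
    rw [h3]
    simp

end Pool.Agent.R755.KF
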