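import Pool.Agent.H59.L.S8.R755.KF.T2b

/-!
# Convex bodies fibred over a base of small dimension: the gradient estimate
-/

set_option autoImplicit false

namespace Pool.Agent.R755.KF

open MeasureTheory Set Filter Topology
open scoped ENNReal InnerProductSpace
open Pool.Agent.H888R2.KT (gs gc)
open Pool.Agent.R754.KG (E un sl Rv)

namespace T2aux

variable {k : ℕ} {h B : ℝ} {νa νb : Measure (E k)}

/-- the pointwise consequence of the Prékopa–Leindler inequality -/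
theorem pointwise (h2 : S_ZN) (hh : 0 < h) (hB : 0 ≤ B) (ha : PB B νa) (hb : PB B νb)
    (Zm : E k → ℝ) (hZ : ∀ y, 0 ≤ Zm y)
    (hPL : ∀ y v, zn h νa (y - v) * zn h νb (y + v) ≤ Zm y ^ 2) (y : E k) :
    Real.sqrt (zn h νa y * zn h νb y) * (1 + h / 2 * ‖sd h νa νb y‖ ^ 2) ≤ Zm y := by
  obtain ⟨_, pa, _, _, sa, _, _⟩ := h2 k h B νa hh hB ha
  obtain ⟨_, pb, _, _, sb, _, _⟩ := h2 k h B νb hh hB hb
  set w : E k := (InnerProductSpace.toDual ℝ (E k)).symm (sd h νa νb y) with hw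
  have hwn : ‖w‖ = ‖sd h νa νb y‖ := by rw [hw]; exact LinearIsometryEquiv.norm_map _ _
  have hww : sd h νa νb y w = ‖sd h νa νb y‖ ^ 2 := by
    rw [← hwn, ← real_inner_self_eq_norm_sq, hw, InnerProductSpace.toDual_symm_apply]
  set v : E k := h • w with hv
  have hvn : ‖v‖ ^ 2 = h ^ 2 * ‖sd h νa νb y‖ ^ 2 := by
    rw [hv, norm_smul, Real.norm_eq_abs, mul_pow, sq_abs, hwn]
  have hsv : sd h νa νb y v = h * ‖sd h νa νb y‖ ^ 2 := by
    rw [hv, map_smul, smul_eq_mul, hww]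
  have hsd : sd h νa νb y v = 1 / 2 * ((fderiv ℝ (zn h νb) y v) / zn h νb y -
      (fderiv ℝ (zn h νa) y v) / zn h νa y) := by
    simp only [sd, smul_apply, sub_apply, smul_eq_mul]
    ring
  have a1 := sa y (-v)
  have b1 := sb y v
  rw [map_neg, norm_neg, ← sub_eq_add_neg] at a1
  have hm := mul_le_mul a1 b1 (mul_nonneg (pb y).le (Real.exp_pos _).le) (pa _).le
  have hprod : (zn h νa y * Real.exp (-(fderiv ℝ (zn h νa) y v) / zn h νa y -
      ‖v‖ ^ 2 / (2 * h))) * (zn h νb y * Real.exp (fderiv ℝ (zn h νb) y v / zn h νb y -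
      ‖v‖ ^ 2 / (2 * h))) =
      (Real.sqrt (zn h νa y * zn h νb y) * Real.exp (h / 2 * ‖sd h νa νb y‖ ^ 2)) ^ 2 := by
    have e1 : ∀ a b x z : ℝ, (a * Real.exp x) * (b * Real.exp z) = (a * b) * Real.exp (x + z) := by
      intro a b x z; rw [Real.exp_add]; ring
    rw [e1, mul_pow, Real.sq_sqrt (mul_pos (pa y) (pb y)).le, ← Real.exp_nat_mul]
    congr 2
    have e2 : -(fderiv ℝ (zn h νa) y v) / zn h νa y - ‖v‖ ^ 2 / (2 * h) +
        (fderiv ℝ (zn h νb) y v / zn h νb y - ‖v‖ ^ 2 / (2 * h)) =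
        2 * (sd h νa νb y v) - ‖v‖ ^ 2 / h := by
      rw [hsd]; field_simp; ring
    rw [e2, hsv, hvn]
    push_cast
    field_simp
    ring
  rw [hprod] at hm
  have h5 := (hm.trans (hPL y v))
  have h6 : Real.sqrt (zn h νa y * zn h νb y) * Real.exp (h / 2 * ‖sd h νa νb y‖ ^ 2) ≤ Zm y :=
    le_of_sq_le_sq' h5 (hZ y)
  refine le_trans (mul_le_mul_of_nonneg_left ?_ (Real.sqrt_nonneg _)) h6
  have := Real.add_one_le_exp (h / 2 * ‖sd h νa νb y‖ ^ 2)
  linarith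
where
  le_of_sq_le_sq' {a b : ℝ} (h : a ^ 2 ≤ b ^ 2) (hb : 0 ≤ b) : a ≤ b := by
    exact (le_abs_self a).trans (abs_le_of_sq_le_sq h hb)

end T2aux

theorem grd (h1 : S_REP) (h2 : S_ZN) (h3 : S_OM) : S_GRD := by
  intro k h B η νa νb hh hB ha hb hPL
  obtain ⟨⟨C, hC⟩, hbd, _, hcos, hder⟩ := h3 k h B νa νb hh hB ha hb
  obtain ⟨Zm, hZ0, hZi, hZ1, hZ2⟩ := hPL
  obtain ⟨_, pa, _, _, _, _, _⟩ := h2 k h B νa hh hB ha
  obtain ⟨_, pb, _, _, _, _, _⟩ := h2 k h B νb hh hB hb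
  have hc : Continuous (om h νa νb) := hC.c1.continuous
  have hcd : Continuous (fderiv ℝ (om h νa νb)) := hC.c1.continuous_fderiv one_ne_zero
  have hg0 := T2aux.gcp (k := k) hh
  -- bounds
  have hb1 : ∀ y, |‖fderiv ℝ (om h νa νb) y‖ ^ 2| ≤ C ^ 2 := fun y => by
    rw [abs_of_nonneg (sq_nonneg _)]
    exact pow_le_pow_left₀ (norm_nonneg _) (hC.gd y) 2
  have hb2 : ∀ y, |om h νa νb y ^ 2| ≤ C ^ 2 := fun y => by
    rw [abs_of_nonneg (sq_nonneg _), ← sq_abs]
    exact pow_le_pow_left₀ (abs_nonneg _) (hC.bd y) 2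
  have hb3 : ∀ y, |1 - Real.cos (om h νa νb y)| ≤ 2 := fun y => by
    rw [abs_le]; constructor <;> linarith [Real.neg_one_le_cos (om h νa νb y),
      Real.cos_le_one (om h νa νb y)]
  obtain ⟨i1, e1⟩ := T2aux.e2_eq h1 hh ha hb (fun y => ‖fderiv ℝ (om h νa νb) y‖ ^ 2)
    (hcd.norm.pow 2) _ hb1
  obtain ⟨i3, e3⟩ := T2aux.e2_eq h1 hh ha hb (fun y => 1 - Real.cos (om h νa νb y))
    (by fun_prop) _ hb3
  obtain ⟨i4, e4⟩ := T2aux.e2_cos h1 h2 h3 hh hB ha hb
  have hmono : e2 h νa νb (fun y => 1 - Real.cos (om h νa νb y)) ≤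
      (1 / 2) * e2 h νa νb (fun y => om h νa νb y ^ 2) := by
    obtain ⟨i5, e5⟩ := T2aux.e2_eq h1 hh ha hb (fun y => om h νa νb y ^ 2) (by fun_prop) _ hb2
    have hI : ∫ y, (1 - Real.cos (om h νa νb y)) * ((zn h νa y + zn h νb y) / 2) ≤
        (1 / 2) * ∫ y, om h νa νb y ^ 2 * ((zn h νa y + zn h νb y) / 2) := by
     rw [← integral_const_mul]
     refine integral_mono i3 (i5.const_mul _) fun y => ?_
     have hy := Real.one_sub_sq_div_two_le_cos (x := om h νa νb y)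
     have hp : 0 ≤ (zn h νa y + zn h νb y) / 2 := by
      have := pa y; have := pb y; positivity
     show (1 - Real.cos (om h νa νb y)) * ((zn h νa y + zn h νb y) / 2) ≤
      1 / 2 * (om h νa νb y ^ 2 * ((zn h νa y + zn h νb y) / 2))
     nlinarith
    rw [e3, e5]
    have := mul_le_mul_of_nonneg_left hI (inv_nonneg.2 hg0.le)
    linarith
  -- the main inequality
  have hpt : ∀ y, Real.sqrt (zn h νa y * zn h νb y) +
      h / 2 * (‖fderiv ℝ (om h νa νb) y‖ ^ 2 * ((zn h νa y + zn h νb y) / 2)) ≤ Zm y := by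
    intro y
    refine le_trans ?_ (T2aux.pointwise h2 hh hB ha hb Zm hZ0 hZ2 y)
    have hc1 : Real.cos (om h νa νb y) * ((zn h νa y + zn h νb y) / 2) =
        Real.sqrt (zn h νa y * zn h νb y) := by
      rw [hcos y]
      have : zn h νa y + zn h νb y ≠ 0 := (add_pos (pa y) (pb y)).ne'
      field_simp
    have hcn : 0 ≤ Real.cos (om h νa νb y) := by
      rw [hcos y]
      exact div_nonneg (mul_nonneg (by norm_num) (Real.sqrt_nonneg _))
        (add_pos (pa y) (pb y)).le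
    have hc1' := Real.cos_le_one (om h νa νb y)
    have hn : ‖fderiv ℝ (om h νa νb) y‖ ^ 2 =
        Real.cos (om h νa νb y) ^ 2 * ‖sd h νa νb y‖ ^ 2 := by
      rw [hder y, norm_smul, mul_pow, Real.norm_eq_abs, sq_abs]
    have h7 : Real.cos (om h νa νb y) ^ 2 * ‖sd h νa νb y‖ ^ 2 ≤
        Real.cos (om h νa νb y) * ‖sd h νa νb y‖ ^ 2 := by
      refine mul_le_mul_of_nonneg_right ?_ (sq_nonneg _)
      nlinarith
    have hp : 0 ≤ (zn h νa y + zn h νb y) / 2 := by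
      have := pa y; have := pb y; positivity
    calc Real.sqrt (zn h νa y * zn h νb y) +
        h / 2 * (‖fderiv ℝ (om h νa νb) y‖ ^ 2 * ((zn h νa y + zn h νb y) / 2))
        ≤ Real.sqrt (zn h νa y * zn h νb y) +
          h / 2 * ((Real.cos (om h νa νb y) * ‖sd h νa νb y‖ ^ 2) *
            ((zn h νa y + zn h νb y) / 2)) := by
          rw [hn]
          have := mul_le_mul_of_nonneg_left (mul_le_mul_of_nonneg_right h7 hp)
            (by positivity : (0 : ℝ) ≤ h / 2)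
          linarith
      _ = Real.sqrt (zn h νa y * zn h νb y) * (1 + h / 2 * ‖sd h νa νb y‖ ^ 2) := by
          have : (Real.cos (om h νa νb y) * ‖sd h νa νb y‖ ^ 2) *
            ((zn h νa y + zn h νb y) / 2) =
            (Real.cos (om h νa νb y) * ((zn h νa y + zn h νb y) / 2)) *
              ‖sd h νa νb y‖ ^ 2 := by ring
          rw [this, hc1]; ring
  have hint : (∫ y, Real.sqrt (zn h νa y * zn h νb y)) +
      h / 2 * ∫ y, ‖fderiv ℝ (om h νa νb) y‖ ^ 2 * ((zn h νa y + zn h νb y) / 2) ≤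
      (1 + η) * gc (Fin k) h := by
    rw [← integral_const_mul, ← integral_add i4 (i1.const_mul _)]
    exact (integral_mono (i4.add (i1.const_mul _)) hZi hpt).trans hZ1
  have haff : aff h νa νb + h / 2 * e2 h νa νb (fun y => ‖fderiv ℝ (om h νa νb) y‖ ^ 2) ≤
      1 + η := by
    rw [e1, aff]
    have h8 := mul_le_mul_of_nonneg_left hint (inv_nonneg.2 hg0.le)
    have h9 : (gc (Fin k) h)⁻¹ * ((1 + η) * gc (Fin k) h) = 1 + η := by
      field_simp
    rw [h9] at h8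
    calc (gc (Fin k) h)⁻¹ * (∫ y, Real.sqrt (zn h νa y * zn h νb y)) +
        h / 2 * ((gc (Fin k) h)⁻¹ *
          ∫ y, ‖fderiv ℝ (om h νa νb) y‖ ^ 2 * ((zn h νa y + zn h νb y) / 2))
        = (gc (Fin k) h)⁻¹ * ((∫ y, Real.sqrt (zn h νa y * zn h νb y)) +
          h / 2 * ∫ y, ‖fderiv ℝ (om h νa νb) y‖ ^ 2 * ((zn h νa y + zn h νb y) / 2)) := by ring
      _ ≤ _ := h8
  rw [e4] at hmono
  linarith

end Pool.Agent.R755.KF
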