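import Pool.Agent.H59.L.S8.R755.KF.Defs

/-!
# Convex bodies fibred over a base of small dimension: statements with weak Poincaré inequalities

Version 2: the Poincaré inequality `Var f ≤ A E ‖∇ f‖²` is replaced by
`Var f ≤ δ + A E ‖∇ f‖²` for `|f| ≤ 1`, which follows from concentration for log-concave measures.
-/

set_option autoImplicit false

namespace Pool.Agent.R755.KF

open MeasureTheory Set Filter Topology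
open scoped ENNReal InnerProductSpace
open Pool.Agent.H888R2.KT (gs gc)
open Pool.Agent.R754.KG (E un sl Rv)

/-- probability measures of bounded support with a weak Poincaré inequality and a bound for the
covariance -/
structure PW {k : ℕ} (A δ s B : ℝ) (ν : Measure (E k)) : Prop where
  pb : PB B ν
  poi : ∀ (C : ℝ) (f : E k → ℝ), BL C f → (∀ y, |f y| ≤ 1) →
    (∫ x, f x ^ 2 ∂ν) - (∫ x, f x ∂ν) ^ 2 ≤ δ + A * ∫ x, ‖fderiv ℝ f x‖ ^ 2 ∂ν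
  lin : ∀ v : E k, (∫ x, ⟪x, v⟫_ℝ ^ 2 ∂ν) - (∫ x, ⟪x, v⟫_ℝ ∂ν) ^ 2 ≤ s * ‖v‖ ^ 2

/-- P3W: variances of functions of `X + √h Z` -/
def S_VARW : Prop := ∀ (k : ℕ) (h A δ s B C K : ℝ) (ν : Measure (E k)) (f : E k → ℝ), 0 < A →
  0 ≤ δ → δ ≤ 1 / 10 ^ 11 → 64 * A ≤ h → PW A δ s B ν → BL C f → (∀ y, |f y| ≤ 2) → 0 ≤ K →
  (∀ v : E k, |ey h ν fun y => fderiv ℝ f y v| ≤ K * ‖v‖) →
  ey h ν (fun y => f y ^ 2) - ey h ν f ^ 2 ≤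
    19 / 25 * h * ey h ν (fun y => ‖fderiv ℝ f y‖ ^ 2) + 3 / 10 * h * K ^ 2 + 1 / 20000

/-- T3W: Stein's identity -/
def S_STW : Prop := ∀ (k : ℕ) (h A δ s B D : ℝ) (νa νb : Measure (E k)), 0 < A → 0 ≤ δ → 0 ≤ s →
  64 * A ≤ h → 0 ≤ D → 0 ≤ B → PW A δ s B νa → PW A δ s B νb →
  (∀ v : E k, |(∫ x, ⟪x, v⟫_ℝ ∂νb) - ∫ x, ⟪x, v⟫_ℝ ∂νa| ≤ D * ‖v‖) →
  ∀ v : E k, h * |e2 h νa νb fun y => Real.cos (om h νa νb y) * fderiv ℝ (om h νa νb) y v| ≤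
    (D / 2 * (1 + e2 h νa νb (fun y => om h νa νb y ^ 2)) +
      Real.sqrt s *
        Real.sqrt (δ + A * e2 h νa νb (fun y => ‖fderiv ℝ (om h νa νb) y‖ ^ 2))) * ‖v‖

/-- T4W: the main estimate, for small angles -/
def S_CLW : Prop := ∀ (k : ℕ) (h A δ s B D η : ℝ) (νa νb : Measure (E k)), 0 < A → 0 ≤ δ →
  δ ≤ 1 / 10 ^ 11 → 0 ≤ s → 64 * A ≤ h → 64 * s ≤ h →
  0 ≤ D → 0 ≤ B → 0 ≤ η → PW A δ s B νa → PW A δ s B νb →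
  (∀ v : E k, |(∫ x, ⟪x, v⟫_ℝ ∂νb) - ∫ x, ⟪x, v⟫_ℝ ∂νa| ≤ D * ‖v‖) → PLH h η νa νb →
  e2 h νa νb (fun y => om h νa νb y ^ 2) ≤ 1 / 100 →
  e2 h νa νb (fun y => om h νa νb y ^ 2) ≤ 10 * η + 5 * D ^ 2 / h + 1 / 3000

/-- T6W: the means of Lipschitz functions are close -/
def S_TMW : Prop := ∀ (k : ℕ) (h0 A δ s B D η L : ℝ) (νa νb : Measure (E k)), 0 < A → 0 ≤ δ →
  δ ≤ 1 / 10 ^ 11 → 0 ≤ s → 64 * A ≤ h0 → 64 * s ≤ h0 →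
  0 ≤ D → 0 ≤ B → 0 ≤ η → 0 ≤ L → η ≤ 1 / 8000 → D ^ 2 ≤ h0 / 8000 → PW A δ s B νa →
  PW A δ s B νb →
  (∀ v : E k, |(∫ x, ⟪x, v⟫_ℝ ∂νb) - ∫ x, ⟪x, v⟫_ℝ ∂νa| ≤ D * ‖v‖) →
  (∀ h, h0 ≤ h → PLH h η νa νb) →
  ∀ (C : ℝ) (f : E k → ℝ), BL C f → (∀ y, |f y| ≤ 1) → (∀ y, ‖fderiv ℝ f y‖ ≤ L) →
  (ey h0 νb f - ey h0 νa f) ^ 2 ≤ (A + h0) * L ^ 2 + δ

/-- weak Poincaré inequality for all linear images of `C`, relative to the covariance -/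
def KW (A0 δ : ℝ) {N : ℕ} (C : Set (E N)) : Prop :=
  ∀ (k : ℕ) (T : E N →ₗ[ℝ] E k) (s : ℝ), 0 < s → (∀ θ : E k, ‖θ‖ = 1 →
    (∫ x, ⟪T x, θ⟫_ℝ ^ 2 ∂(un C)) - (∫ x, ⟪T x, θ⟫_ℝ ∂(un C)) ^ 2 ≤ s) →
  ∀ (M : ℝ) (v : E k → ℝ), BL M v → (∀ y, |v y| ≤ 1) →
  (∫ x, v (T x) ^ 2 ∂(un C)) - (∫ x, v (T x) ∂(un C)) ^ 2 ≤
    δ + A0 * s * ∫ x, ‖fderiv ℝ v (T x)‖ ^ 2 ∂(un C)

/-- K5W: from one fibre to the next -/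
def S_CHNW : Prop := ∀ (d : ℕ) (ε γ δ : ℝ), 0 < ε → ε < 1 → 0 < γ → 0 < δ →
  ∃ δ' ρ : ℝ, 0 < δ' ∧ 0 < ρ ∧ ρ < 1 ∧ ∀ A0 : ℝ, 0 < A0 → ∃ C C2 : ℝ, 0 < C ∧ 0 < C2 ∧
  ∀ (N k : ℕ) (K : Set (E N × E d)), CB K → (∀ t, volume (sl K t) ≠ 0 → KW A0 δ' (sl K t)) →
  ∀ (T : E N × E d →ₗ[ℝ] E k) (s S : ℝ), 0 < s → 0 < S → (∀ t, Rv K t ≤ S) →
  (∀ θ : E k, ‖θ‖ = 1 →
    (∫ z, ⟪T z, θ⟫_ℝ ^ 2 ∂(un K)) - (∫ z, ⟪T z, θ⟫_ℝ ∂(un K)) ^ 2 ≤ s) →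
  ∀ ts : E d, (1 - ρ) * S ≤ Rv K ts → ∀ t : E d, ε * S ≤ Rv K (ts + (1 + γ) • (t - ts)) →
  ∀ (f : E k → ℝ) (L : ℝ), ContDiff ℝ 1 f → 0 ≤ L → (∀ y, |f y| ≤ 1) →
  (∀ y, ‖fderiv ℝ f y‖ ≤ L) →
  ey (C * s) (lw K T t) (fun y => (f y - ey (C * s) (lw K T ts) f) ^ 2) ≤ C2 * s * L ^ 2 + δ

end Pool.Agent.R755.KF
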