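import Pool.Agent.H59.L.S8.R755.KF.T3
import Pool.Agent.H59.L.S8.R755.KF.Defs2

/-!
# T3W: Stein's identity for the angle between two densities, weak version
-/

set_option autoImplicit false

namespace Pool.Agent.R755.KF

open MeasureTheory Set Filter Topology
open scoped ENNReal InnerProductSpace
open Pool.Agent.H888R2.KT (gs gc gc_pos gs_deriv)
open Pool.Agent.R754.KG (E)

namespace T3Waux

open T36 T3aux

variable {k : ℕ} {h : ℝ}

theorem gs_abs (hh : 0 < h) {f : E k → ℝ} {B : ℝ} (hf : Continuous f) (hb : ∀ y, |f y| ≤ B)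
    (x : E k) : |gs h f x| ≤ B := by
  have i1 := intk hh hf (lg_of_bd hb) x
  rw [abs_le]
  constructor
  · have := gs_mono hh (f := fun _ => -B)
      (intk hh continuous_const (lg_of_bd (B := |-B|) fun _ => le_refl _) x) i1
      (fun y => (abs_le.1 (hb y)).1)
    rwa [gs_const hh] at this
  · have := gs_mono hh (g := fun _ => B) i1
      (intk hh continuous_const (lg_of_bd (B := |B|) fun _ => le_refl _) x)
      (fun y => (abs_le.1 (hb y)).2)
    rwa [gs_const hh] at this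

theorem gs_BL (h4 : S_BE) (hh : 0 < h) {f : E k → ℝ} {M : ℝ} (hf : BL M f) : BL M (gs h f) := by
  refine ⟨(h4 k h M f hh hf.c1.continuous hf.bd).1, gs_abs hh hf.c1.continuous hf.bd, fun x => ?_⟩
  have hM : 0 ≤ M := BL.nn hf
  have h5 := grad_gs hh (fun g C hg hb x => gs_sq h4 hh hg hb x) hf x
  have h6 : gs h (fun y => ‖fderiv ℝ f y‖ ^ 2) x ≤ M ^ 2 :=
    (abs_le.1 (gs_abs hh (cont_nfd hf) (bd_nfd hf) x)).2
  exact (abs_le.1 (abs_le_of_sq_le_sq (h5.trans h6) hM)).2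

/-- bound of the covariance -/
theorem covw_le (h1 : S_REP) (h4 : S_BE) (hh : 0 < h) {A δ σ B M : ℝ} {ν : Measure (E k)}
    (hA : 0 < A) (hδ : 0 ≤ δ) (hσ : 0 ≤ σ) (hν : PW A δ σ B ν) {s : E k → ℝ} (hs : BL M s)
    (hs1 : ∀ y, |s y| ≤ 1) (v : E k) (T : ℝ)
    (hT : ey h ν (fun y => ‖fderiv ℝ s y‖ ^ 2) ≤ T) :
    |(∫ x, ⟪x, v⟫_ℝ * gs h s x ∂ν) - (∫ x, ⟪x, v⟫_ℝ ∂ν) * ey h ν s| ≤
      Real.sqrt σ * ‖v‖ * Real.sqrt (δ + A * T) := by
  have := hν.pb.prob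
  have hG : ContDiff ℝ 1 (gs h s) := (h4 k h M s hh hs.c1.continuous hs.bd).1
  have hGc : Continuous (gs h s) := hG.continuous
  have hT0 : 0 ≤ ey h ν (fun y => ‖fderiv ℝ s y‖ ^ 2) := ey_nonneg hh fun y => by positivity
  have c := cov (ν := ν) (F := fun x => ⟪x, v⟫_ℝ) (G := gs h s) (pb_int hν.pb (in_cont v))
    (pb_int hν.pb hGc) (pb_int hν.pb ((in_cont v).pow 2)) (pb_int hν.pb (hGc.pow 2))
    (pb_int hν.pb ((in_cont v).mul hGc))
  have v1 := hν.lin v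
  have v2 : (∫ x, gs h s x ^ 2 ∂ν) - (∫ x, gs h s x ∂ν) ^ 2 ≤ δ + A * T := by
    refine (hν.poi _ _ (gs_BL h4 hh hs) (gs_abs hh hs.c1.continuous hs1)).trans
      (add_le_add le_rfl (mul_le_mul_of_nonneg_left ?_ hA.le))
    refine le_trans ?_ hT
    have hi : Integrable (gs h fun y => ‖fderiv ℝ s y‖ ^ 2) ν :=
      ey_int h1 hh hν.pb (cont_nfd hs) (lg_of_bd (bd_nfd hs))
    refine integral_mono (pb_int hν.pb ((hG.continuous_fderiv (by norm_num)).norm.pow 2)) hi ?_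
    intro x
    exact grad_gs hh (fun g C hg hb x => gs_sq h4 hh hg hb x) hs x
  have hv1 : 0 ≤ (∫ x, ⟪x, v⟫_ℝ ^ 2 ∂ν) - (∫ x, ⟪x, v⟫_ℝ ∂ν) ^ 2 := by
    have c0 := cov (ν := ν) (F := fun x : E k => ⟪x, v⟫_ℝ) (G := fun x : E k => ⟪x, v⟫_ℝ)
      (pb_int hν.pb (in_cont v))
      (pb_int hν.pb (in_cont v)) (pb_int hν.pb ((in_cont v).pow 2))
      (pb_int hν.pb ((in_cont v).pow 2)) (pb_int hν.pb ((in_cont v).mul (in_cont v)))
    have e : ∫ x, (⟪x, v⟫_ℝ - ∫ z, ⟪z, v⟫_ℝ ∂ν) ^ 2 ∂ν =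
        (∫ x, ⟪x, v⟫_ℝ ^ 2 ∂ν) - (∫ x, ⟪x, v⟫_ℝ ∂ν) ^ 2 := by
      set m := ∫ z, ⟪z, v⟫_ℝ ∂ν with hm
      have e1 : ∀ x : E k, (⟪x, v⟫_ℝ - m) ^ 2 = (⟪x, v⟫_ℝ ^ 2 - (2 * m) * ⟪x, v⟫_ℝ) + m ^ 2 := by
        intro x
        ring
      have i0 : Integrable (fun x : E k => ⟪x, v⟫_ℝ ^ 2) ν := pb_int hν.pb ((in_cont v).pow 2)
      have i1 : Integrable (fun x : E k => (2 * m) * ⟪x, v⟫_ℝ) ν :=
        (pb_int hν.pb (in_cont v)).const_mul _
      have i2 : Integrable (fun x : E k => ⟪x, v⟫_ℝ ^ 2 - (2 * m) * ⟪x, v⟫_ℝ) ν := i0.sub i1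
      simp_rw [e1]
      rw [integral_add i2 (integrable_const _), integral_sub i0 i1, integral_const_mul, ← hm,
        integral_const, probReal_univ, one_smul]
      ring
    rw [← e]
    exact integral_nonneg fun x => sq_nonneg _
  have hsq : ((∫ x, ⟪x, v⟫_ℝ * gs h s x ∂ν) - (∫ x, ⟪x, v⟫_ℝ ∂ν) * ey h ν s) ^ 2 ≤
      (Real.sqrt σ * ‖v‖ * Real.sqrt (δ + A * T)) ^ 2 := by
    have hTT : 0 ≤ T := hT0.trans hT
    have hATT : 0 ≤ δ + A * T := add_nonneg hδ (mul_nonneg hA.le hTT)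
    rw [mul_pow, mul_pow, Real.sq_sqrt hATT, Real.sq_sqrt hσ]
    have c' := c.trans (mul_le_mul_of_nonneg_left v2 hv1)
    have c2 := c'.trans (mul_le_mul_of_nonneg_right v1 hATT)
    unfold ey
    refine c2.trans (le_of_eq ?_)
    ring
  exact abs_le_of_sq_le_sq hsq (by positivity)

end T3Waux

open T36 T3aux T3Waux in
/-- Stein's identity, weak version -/
theorem stw (h1 : S_REP) (h2 : S_ZN) (h3 : S_OM) (h4 : S_BE) : S_STW := by
  intro k h A δ σ B D νa νb hA hδ hσ h32 hD hB ha hb hm v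
  have hh : 0 < h := by linarith
  have := ha.pb.prob
  have := hb.pb.prob
  obtain ⟨⟨C0, hom⟩, -, hsin, -, -⟩ := h3 k h B νa νb hh hB ha.pb hb.pb
  set o := om h νa νb with ho
  set s : E k → ℝ := fun y => Real.sin (o y) with hs
  have hC0 : 0 ≤ C0 := (BL.nn hom)
  have hfd : ∀ y, fderiv ℝ s y = Real.cos (o y) • fderiv ℝ o y := by
    intro y
    exact ((hom.c1.differentiable (by norm_num) y).hasFDerivAt.sin).fderiv
  have hnf : ∀ y, ‖fderiv ℝ s y‖ ≤ ‖fderiv ℝ o y‖ := by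
    intro y
    rw [hfd y, norm_smul, Real.norm_eq_abs]
    calc _ ≤ 1 * ‖fderiv ℝ o y‖ :=
          mul_le_mul_of_nonneg_right (Real.abs_cos_le_one _) (norm_nonneg _)
      _ = _ := one_mul _
  have hsb : ∀ y, |s y| ≤ 1 := fun y => Real.abs_sin_le_one _
  have hsBL : BL (C0 + 1) s := by
    refine ⟨Real.contDiff_sin.comp hom.c1, fun y => (hsb y).trans (by linarith), fun y => ?_⟩
    exact (hnf y).trans ((hom.gd y).trans (by linarith))
  have hsc : Continuous s := hsBL.c1.continuous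
  -- the quantities
  set μa := ∫ x, ⟪x, v⟫_ℝ ∂νa with hμa
  set μb := ∫ x, ⟪x, v⟫_ℝ ∂νb with hμb
  have hml : ∀ y : E k, |s y * ⟪y, v⟫_ℝ| ≤ ‖v‖ * (1 + ‖y‖) := by
    intro y
    rw [abs_mul]
    calc _ ≤ 1 * |⟪y, v⟫_ℝ| := mul_le_mul_of_nonneg_right (hsb y) (abs_nonneg _)
      _ = _ := one_mul _
      _ ≤ _ := in_lg v y
  have hey_in : ∀ ν : Measure (E k), ey h ν (fun y => ⟪y, v⟫_ℝ) = ∫ x, ⟪x, v⟫_ℝ ∂ν := by
    intro ν
    unfold ey
    congr 1
    funext x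
    exact gs_in h4 hh v x
  have k1 : ey h νa (fun y => s y * ⟪y, v⟫_ℝ) + ey h νb (fun y => s y * ⟪y, v⟫_ℝ) = μb - μa := by
    rw [key h1 h2 h3 hh hB ha.pb hb.pb (in_cont v) (in_lg v), hey_in, hey_in]
  have k2 : ey h νa s + ey h νb s = 0 := by
    have := key h1 h2 h3 hh hB ha.pb hb.pb (g := fun _ => (1 : ℝ)) continuous_const
      (lg_of_bd (B := 1) fun y => by simp)
    rw [ey_const hh, ey_const hh, sub_self] at this
    simpa using this
  have k3 : ey h νa (fun y => s y ^ 2) + ey h νb (fun y => s y ^ 2) = ey h νb s - ey h νa s := by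
    have := key h1 h2 h3 hh hB ha.pb hb.pb (g := s) hsc (lg_of_bd hsb)
    rw [← this]
    congr 1 <;>
    · congr 1
      funext y
      rw [pow_two]
  have eb : ey h νb s = e2 h νa νb (fun y => s y ^ 2) := by
    unfold e2
    linarith
  have eb0 : 0 ≤ ey h νb s := by
    rw [eb]
    unfold e2
    have := ey_nonneg (ν := νa) hh (f := fun y => s y ^ 2) fun y => sq_nonneg _
    have := ey_nonneg (ν := νb) hh (f := fun y => s y ^ 2) fun y => sq_nonneg _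
    linarith
  have hoc : Continuous o := hom.c1.continuous
  have bo : ∀ y, |o y ^ 2| ≤ C0 ^ 2 := by
    intro y
    rw [abs_pow]
    exact pow_le_pow_left₀ (abs_nonneg _) (hom.bd y) 2
  have bs : ∀ y, |s y ^ 2| ≤ 1 := by
    intro y
    rw [abs_pow]
    exact pow_le_one₀ (abs_nonneg _) (hsb y)
  have sle : ∀ y, s y ^ 2 ≤ o y ^ 2 := fun y => Real.sin_sq_le_sq
  have ebQ : ey h νb s ≤ e2 h νa νb (fun y => o y ^ 2) := by
    rw [eb]
    unfold e2
    have := ey_mono h1 hh ha.pb (f := fun y => s y ^ 2) (g := fun y => o y ^ 2) (hsc.pow 2)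
      (hoc.pow 2) (lg_of_bd bs) (lg_of_bd bo) sle
    have := ey_mono h1 hh hb.pb (f := fun y => s y ^ 2) (g := fun y => o y ^ 2) (hsc.pow 2)
      (hoc.pow 2) (lg_of_bd bs) (lg_of_bd bo) sle
    linarith
  -- the gradient
  set Ta := ey h νa (fun y => ‖fderiv ℝ o y‖ ^ 2) with hTa
  set Tb := ey h νb (fun y => ‖fderiv ℝ o y‖ ^ 2) with hTb
  have Ta0 : 0 ≤ Ta := ey_nonneg hh fun y => by positivity
  have Tb0 : 0 ≤ Tb := ey_nonneg hh fun y => by positivity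
  have nle : ∀ y, ‖fderiv ℝ s y‖ ^ 2 ≤ ‖fderiv ℝ o y‖ ^ 2 := fun y =>
    pow_le_pow_left₀ (norm_nonneg _) (hnf y) 2
  have ta : ey h νa (fun y => ‖fderiv ℝ s y‖ ^ 2) ≤ Ta :=
    ey_mono h1 hh ha.pb (cont_nfd hsBL) (cont_nfd hom) (lg_of_bd (bd_nfd hsBL))
      (lg_of_bd (bd_nfd hom)) nle
  have tb : ey h νb (fun y => ‖fderiv ℝ s y‖ ^ 2) ≤ Tb :=
    ey_mono h1 hh hb.pb (cont_nfd hsBL) (cont_nfd hom) (lg_of_bd (bd_nfd hsBL))
      (lg_of_bd (bd_nfd hom)) nle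
  have ca := covw_le h1 h4 hh hA hδ hσ ha hsBL hsb v Ta ta
  have cb := covw_le h1 h4 hh hA hδ hσ hb hsBL hsb v Tb tb
  -- Stein
  have st1 : ∀ ν : Measure (E k), PB B ν → h * ey h ν (fun y => fderiv ℝ s y v) =
      ey h ν (fun y => s y * ⟪y, v⟫_ℝ) - ∫ x, ⟪x, v⟫_ℝ * gs h s x ∂ν := by
    intro ν hν
    have i1 : Integrable (gs h fun y => s y * ⟪y, v⟫_ℝ) ν :=
      ey_int h1 hh hν (hsc.mul (in_cont v)) hml
    have hGc : Continuous (gs h s) := (h4 k h _ s hh hsc hsBL.bd).1.continuous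
    have i2 : Integrable (fun x => ⟪x, v⟫_ℝ * gs h s x) ν :=
      pb_int hν ((in_cont v).mul hGc)
    unfold ey
    rw [← integral_const_mul, ← integral_sub i1 i2]
    congr 1
    funext x
    exact stein h4 hh hsBL v x
  have sa := st1 νa ha.pb
  have sb := st1 νb hb.pb
  have hfe : (fun y => Real.cos (o y) * fderiv ℝ o y v) = fun y => fderiv ℝ s y v := by
    funext y
    rw [hfd y]
    rfl
  rw [hfe]
  have hmv := hm v
  rw [← hμa, ← hμb] at hmv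
  set Q := e2 h νa νb (fun y => o y ^ 2) with hQ
  have hmain : h * e2 h νa νb (fun y => fderiv ℝ s y v) =
      (μb - μa) * (1 - ey h νb s) / 2 -
        (((∫ x, ⟪x, v⟫_ℝ * gs h s x ∂νa) - μa * ey h νa s) +
        ((∫ x, ⟪x, v⟫_ℝ * gs h s x ∂νb) - μb * ey h νb s)) / 2 := by
    have : ey h νa s = - ey h νb s := by linarith
    unfold e2
    have e3 : h * ((ey h νa (fun y => fderiv ℝ s y v) + ey h νb (fun y => fderiv ℝ s y v)) / 2) =
        (h * ey h νa (fun y => fderiv ℝ s y v) + h * ey h νb (fun y => fderiv ℝ s y v)) / 2 := by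
      ring
    rw [e3, sa, sb, this]
    linear_combination k1 / 2
  have habs : h * |e2 h νa νb (fun y => fderiv ℝ s y v)| =
      |h * e2 h νa νb (fun y => fderiv ℝ s y v)| := by
    rw [abs_mul, abs_of_pos hh]
  rw [habs, hmain]
  have b1 : |(μb - μa) * (1 - ey h νb s) / 2| ≤ (D * ‖v‖) * (1 + Q) / 2 := by
    rw [abs_div, abs_mul, abs_of_pos (by norm_num : (0 : ℝ) < 2)]
    have : |1 - ey h νb s| ≤ 1 + Q := by
      rw [abs_le]
      constructor <;> linarith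
    have := mul_le_mul hmv this (abs_nonneg _) (by positivity)
    linarith
  have b2 : (Real.sqrt (δ + A * Ta) + Real.sqrt (δ + A * Tb)) / 2 ≤
      Real.sqrt (δ + A * e2 h νa νb (fun y => ‖fderiv ℝ o y‖ ^ 2)) := by
    refine (half_sqrt (δ + A * Ta) (δ + A * Tb) (by positivity) (by positivity)).trans
      (le_of_eq ?_)
    congr 1
    unfold e2
    rw [← hTa, ← hTb]
    ring
  set Y := Real.sqrt (δ + A * e2 h νa νb (fun y => ‖fderiv ℝ o y‖ ^ 2)) with hY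
  set p := (∫ x, ⟪x, v⟫_ℝ * gs h s x ∂νa) - μa * ey h νa s with hp
  set q := (∫ x, ⟪x, v⟫_ℝ * gs h s x ∂νb) - μb * ey h νb s with hq
  have b3 : |(p + q) / 2| ≤ Real.sqrt σ * ‖v‖ * Y := by
    rw [abs_div, abs_of_pos (by norm_num : (0 : ℝ) < 2)]
    have t1 : |p + q| ≤ |p| + |q| := abs_add_le p q
    have t2 : Real.sqrt σ * ‖v‖ * ((Real.sqrt (δ + A * Ta) + Real.sqrt (δ + A * Tb)) / 2) ≤
        Real.sqrt σ * ‖v‖ * Y :=
      mul_le_mul_of_nonneg_left b2 (by positivity)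
    linarith
  calc |(μb - μa) * (1 - ey h νb s) / 2 - (p + q) / 2|
      ≤ |(μb - μa) * (1 - ey h νb s) / 2| + |(p + q) / 2| := abs_sub _ _
    _ ≤ (D * ‖v‖) * (1 + Q) / 2 + Real.sqrt σ * ‖v‖ * Y := add_le_add b1 b3
    _ = _ := by ring

end Pool.Agent.R755.KF
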