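import Pool.Agent.H59.L.S8.R755.KF.Defs
import Pool.Agent.H59.L.S8.H888R2.KT.N0

/-!
# KLS fibration, T5: continuity of the affinity in `h` and its limit at infinity
-/

set_option autoImplicit false

namespace Pool.Agent.R755.KF

open MeasureTheory Set Filter Topology
open scoped ENNReal InnerProductSpace
open Pool.Agent.H888R2.KT (gs gc gc_pos)
open Pool.Agent.R754.KG (E)

namespace T5aux

variable {k : ℕ}

/-- rescaled density -/
noncomputable def Z (ν : Measure (E k)) (p : ℝ × E k) : ℝ :=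
  ∫ x, Real.exp (-(‖p.1 • x - p.2‖ ^ 2 / 2)) ∂ν

theorem Z_cont (ν : Measure (E k)) [IsProbabilityMeasure ν] : Continuous (Z ν) := by
  unfold Z
  refine continuous_of_dominated (bound := fun _ => (1 : ℝ)) ?_ ?_ (integrable_const _) ?_
  · intro p
    exact (by fun_prop : Continuous fun x : E k =>
      Real.exp (-(‖p.1 • x - p.2‖ ^ 2 / 2))).aestronglyMeasurable
  · intro p
    refine Eventually.of_forall fun x => ?_
    rw [Real.norm_of_nonneg (Real.exp_pos _).le]
    exact Real.exp_le_one_iff.2 (by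
      have : 0 ≤ ‖p.1 • x - p.2‖ ^ 2 / 2 := by positivity
      linarith)
  · refine Eventually.of_forall fun x => ?_
    fun_prop

theorem Z_nonneg (ν : Measure (E k)) (p : ℝ × E k) : 0 ≤ Z ν p :=
  integral_nonneg fun _ => (Real.exp_pos _).le

theorem Z_zero (ν : Measure (E k)) [IsProbabilityMeasure ν] (u : E k) :
    Z ν (0, u) = Real.exp (-(‖u‖ ^ 2 / 2)) := by
  unfold Z
  simp

theorem Z_le {B : ℝ} (ν : Measure (E k)) [IsProbabilityMeasure ν] (hb : ∀ᵐ x ∂ν, ‖x‖ ≤ B)
    {s M : ℝ} (hs : |s| ≤ M) (u : E k) :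
    Z ν (s, u) ≤ Real.exp (M ^ 2 * B ^ 2 / 2) * Real.exp (-(1 / 4) * ‖u‖ ^ 2) := by
  have h1 : Z ν (s, u) ≤ ∫ _x, Real.exp (M ^ 2 * B ^ 2 / 2) * Real.exp (-(1 / 4) * ‖u‖ ^ 2) ∂ν := by
    unfold Z
    refine integral_mono_ae ?_ (integrable_const _) ?_
    · refine Integrable.of_bound (C := 1) ?_ ?_
      · exact (by fun_prop : Continuous fun x : E k =>
          Real.exp (-(‖s • x - u‖ ^ 2 / 2))).aestronglyMeasurable
      · refine Eventually.of_forall fun x => ?_
        rw [Real.norm_of_nonneg (Real.exp_pos _).le]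
        exact Real.exp_le_one_iff.2 (by
          have : 0 ≤ ‖s • x - u‖ ^ 2 / 2 := by positivity
          linarith)
    · filter_upwards [hb] with x hx
      rw [← Real.exp_add]
      apply Real.exp_le_exp.2
      have e1 : ‖u‖ ≤ ‖s • x - u‖ + ‖s • x‖ := by
        have : u = s • x - (s • x - u) := by abel
        calc ‖u‖ = ‖s • x - (s • x - u)‖ := by rw [← this]
          _ ≤ ‖s • x‖ + ‖s • x - u‖ := norm_sub_le _ _
          _ = _ := by ring
      have e2 : ‖s • x‖ ≤ M * B := by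
        rw [norm_smul, Real.norm_eq_abs]
        exact mul_le_mul hs hx (norm_nonneg _) ((abs_nonneg _).trans hs)
      have e3 : 0 ≤ ‖s • x‖ := norm_nonneg _
      have e4 : 0 ≤ ‖s • x - u‖ := norm_nonneg _
      have e5 : ‖u‖ ^ 2 ≤ (‖s • x - u‖ + ‖s • x‖) ^ 2 := by
        apply pow_le_pow_left₀ (norm_nonneg _) e1
      have e6 : ‖s • x‖ ^ 2 ≤ (M * B) ^ 2 := pow_le_pow_left₀ e3 e2 2
      nlinarith [sq_nonneg (‖s • x - u‖ - ‖s • x‖)]
  simpa using h1

theorem gauss4 : Integrable fun u : E k => Real.exp (-(1 / 4) * ‖u‖ ^ 2) :=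
  Pool.Agent.H888R2.KT.N0x.gauss_int (κ := Fin k) (1 / 4) (by norm_num)

/-- the affinity as a function of `s = h^{-1/2}` -/
noncomputable def Phi (νa νb : Measure (E k)) (s : ℝ) : ℝ :=
  (gc (Fin k) 1)⁻¹ * ∫ u, Real.sqrt (Z νa (s, u) * Z νb (s, u))

theorem Phi_cont {B : ℝ} (νa νb : Measure (E k)) (ha : PB B νa) (hb : PB B νb) :
    Continuous (Phi νa νb) := by
  have := ha.prob
  have := hb.prob
  have ca := Z_cont νa
  have cb := Z_cont νb
  unfold Phi
  refine continuous_const.mul ?_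
  rw [continuous_iff_continuousAt]
  intro s0
  refine continuousAt_of_dominated (bound := fun u =>
    Real.exp ((|s0| + 1) ^ 2 * B ^ 2 / 2) * Real.exp (-(1 / 4) * ‖u‖ ^ 2)) ?_ ?_
    (gauss4.const_mul _) ?_
  · refine Eventually.of_forall fun s => ?_
    exact (by fun_prop : Continuous fun u : E k =>
      Real.sqrt (Z νa (s, u) * Z νb (s, u))).aestronglyMeasurable
  · have hnear : ∀ᶠ s in 𝓝 s0, |s| ≤ |s0| + 1 := by
      have : ContinuousAt (fun s : ℝ => |s|) s0 := continuous_abs.continuousAt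
      filter_upwards [this.eventually (Iio_mem_nhds (by linarith : |s0| < |s0| + 1))] with s hs
      exact le_of_lt hs
    filter_upwards [hnear] with s hs
    refine Eventually.of_forall fun u => ?_
    rw [Real.norm_of_nonneg (Real.sqrt_nonneg _)]
    have h1 := Z_le νa ha.bdd hs u
    have h2 := Z_le νb hb.bdd hs u
    apply Real.sqrt_le_iff.2 ⟨by positivity, ?_⟩
    rw [sq]
    exact mul_le_mul h1 h2 (Z_nonneg _ _) (by positivity)
  · refine Eventually.of_forall fun u => ?_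
    exact (by fun_prop : Continuous fun s : ℝ =>
      Real.sqrt (Z νa (s, u) * Z νb (s, u))).continuousAt

theorem Phi_zero (νa νb : Measure (E k)) [IsProbabilityMeasure νa] [IsProbabilityMeasure νb] :
    Phi νa νb 0 = 1 := by
  unfold Phi
  have h1 : ∀ u : E k, Real.sqrt (Z νa (0, u) * Z νb (0, u)) = Real.exp (-(‖u‖ ^ 2 / (2 * 1))) := by
    intro u
    rw [Z_zero, Z_zero, Real.sqrt_mul_self (Real.exp_pos _).le, mul_one]
  simp_rw [h1]
  have h2 : (∫ u : E k, Real.exp (-(‖u‖ ^ 2 / (2 * 1)))) = gc (Fin k) 1 := rfl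
  rw [h2]
  exact inv_mul_cancel₀ (gc_pos (κ := Fin k) 1 one_pos).1.ne'

theorem zn_scale (ν : Measure (E k)) {h : ℝ} (hh : 0 < h) (u : E k) :
    zn h ν (Real.sqrt h • u) = Z ν ((Real.sqrt h)⁻¹, u) := by
  have hs : 0 < Real.sqrt h := Real.sqrt_pos.2 hh
  unfold zn Z
  refine integral_congr_ae (Eventually.of_forall fun x => ?_)
  simp only
  congr 2
  have e1 : x - Real.sqrt h • u = Real.sqrt h • ((Real.sqrt h)⁻¹ • x - u) := by
    rw [smul_sub, smul_smul, mul_inv_cancel₀ hs.ne', one_smul]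
  rw [e1, norm_smul, Real.norm_of_nonneg hs.le, mul_pow, Real.sq_sqrt hh.le]
  field_simp

theorem aff_eq (νa νb : Measure (E k)) {h : ℝ} (hh : 0 < h) :
    aff h νa νb = Phi νa νb (Real.sqrt h)⁻¹ := by
  have hs : 0 < Real.sqrt h := Real.sqrt_pos.2 hh
  set c : ℝ := |((Real.sqrt h) ^ (Module.finrank ℝ (E k)))⁻¹| with hc
  have hc0 : 0 < c := by
    rw [hc]
    positivity
  have h1 : gc (Fin k) 1 = c * gc (Fin k) h := by
    have := Measure.integral_comp_smul (volume : Measure (E k))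
      (fun y : E k => Real.exp (-(‖y‖ ^ 2 / (2 * h)))) (Real.sqrt h)
    rw [smul_eq_mul] at this
    unfold gc
    rw [hc, ← this]
    refine integral_congr_ae (Eventually.of_forall fun y => ?_)
    simp only
    congr 2
    rw [norm_smul, Real.norm_of_nonneg hs.le, mul_pow, Real.sq_sqrt hh.le]
    field_simp
  have h2 : (∫ u, Real.sqrt (Z νa ((Real.sqrt h)⁻¹, u) * Z νb ((Real.sqrt h)⁻¹, u)))
      = c * ∫ y, Real.sqrt (zn h νa y * zn h νb y) := by
    have := Measure.integral_comp_smul (volume : Measure (E k))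
      (fun y : E k => Real.sqrt (zn h νa y * zn h νb y)) (Real.sqrt h)
    rw [smul_eq_mul] at this
    rw [hc, ← this]
    refine integral_congr_ae (Eventually.of_forall fun y => ?_)
    simp only
    rw [zn_scale νa hh, zn_scale νb hh]
  unfold aff Phi
  rw [h1, h2, mul_inv]
  have h3 : gc (Fin k) h ≠ 0 := (gc_pos (κ := Fin k) h hh).1.ne'
  field_simp

end T5aux

open T5aux in
/-- T5 -/
theorem ct (_h1 : S_ZN) : S_CT := by
  intro k B νa νb ha hb
  have := ha.prob
  have := hb.prob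
  have hc := Phi_cont νa νb ha hb
  refine ⟨?_, ?_⟩
  · have h1 : ContinuousOn (fun h => Phi νa νb (Real.sqrt h)⁻¹) (Ioi 0) := by
      refine hc.comp_continuousOn ?_
      refine ContinuousOn.inv₀ (Real.continuous_sqrt.continuousOn) ?_
      intro h hh
      exact (Real.sqrt_pos.2 hh).ne'
    refine h1.congr ?_
    intro h hh
    exact aff_eq νa νb hh
  · have h1 : Tendsto (fun h : ℝ => (Real.sqrt h)⁻¹) atTop (𝓝 0) :=
      tendsto_inv_atTop_zero.comp Real.tendsto_sqrt_atTop
    have h2 : Tendsto (fun h : ℝ => Phi νa νb (Real.sqrt h)⁻¹) atTop (𝓝 (Phi νa νb 0)) :=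
      (hc.tendsto 0).comp h1
    rw [Phi_zero] at h2
    refine h2.congr' ?_
    filter_upwards [Ioi_mem_atTop 0] with h hh
    exact (aff_eq νa νb hh).symm

end Pool.Agent.R755.KF
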