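import Pool.Agent.H59.L.S8.R755.KF.Defs2
import Pool.Agent.H59.L.S8.R755.KF.T36
import Pool.Agent.H59.L.S8.R755.KF.T6

/-!
# T6W: the means of Lipschitz functions are close (weak Poincaré inequality)
-/

set_option autoImplicit false

namespace Pool.Agent.R755.KF

open MeasureTheory Set Filter Topology
open scoped ENNReal InnerProductSpace
open Pool.Agent.H888R2.KT (gs gc gc_pos gs_deriv)
open Pool.Agent.R754.KG (E)

namespace T6Waux

open T36 T6aux

variable {k : ℕ} {h : ℝ}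

/-- variance of a Lipschitz function bounded by `1`, weak Poincaré inequality -/
theorem var_leW (h1 : S_REP) (h4 : S_GP) (hh : 0 < h) {A δ s B C L : ℝ} {ν : Measure (E k)}
    (hA : 0 < A) (hν : PW A δ s B ν) {f : E k → ℝ} (hf : BL C f) (hf1 : ∀ y, |f y| ≤ 1)
    (hL : 0 ≤ L) (hfL : ∀ y, ‖fderiv ℝ f y‖ ≤ L) :
    ey h ν (fun y => f y ^ 2) - ey h ν f ^ 2 ≤ (h + A) * L ^ 2 + δ := by
  have := hν.pb.prob
  have hfc : Continuous f := hf.c1.continuous
  have hG : ContDiff ℝ 1 (gs h f) := (gs_deriv h hh f hf.c1 C hf.bd hf.gd).1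
  have hGc : Continuous (gs h f) := hG.continuous
  have b2 : ∀ y, |f y ^ 2| ≤ C ^ 2 := by
    intro y
    rw [abs_pow]
    exact pow_le_pow_left₀ (abs_nonneg _) (hf.bd y) 2
  have i1 : Integrable (gs h fun y => f y ^ 2) ν := ey_int h1 hh hν.pb (hfc.pow 2) (lg_of_bd b2)
  have i2 : Integrable (fun x => gs h f x ^ 2) ν := pb_int hν.pb (hGc.pow 2)
  have e1 : ey h ν (fun y => f y ^ 2) - ∫ x, gs h f x ^ 2 ∂ν ≤ h * L ^ 2 := by
    unfold ey
    rw [← integral_sub i1 i2]
    have : ∫ _x : E k, h * L ^ 2 ∂ν = h * L ^ 2 := by simp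
    rw [← this]
    refine integral_mono (i1.sub i2) (integrable_const _) fun x => ?_
    refine (h4 k h C f hh hf x).trans ?_
    refine mul_le_mul_of_nonneg_left ?_ hh.le
    refine (le_abs_self _).trans (gs_le_bd hh (cont_nfd hf) (fun y => ?_) x)
    rw [abs_of_nonneg (by positivity)]
    exact pow_le_pow_left₀ (norm_nonneg _) (hfL y) 2
  have g1 : ∀ y, |gs h f y| ≤ 1 := fun y => gs_le_bd hh hfc hf1 y
  have gL : ∀ y, ‖fderiv ℝ (gs h f) y‖ ≤ L := fun y => grad_le hh hf hL hfL y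
  have hGB : BL (max 1 L) (gs h f) :=
    ⟨hG, fun y => (g1 y).trans (le_max_left _ _), fun y => (gL y).trans (le_max_right _ _)⟩
  have e2' : (∫ x, gs h f x ^ 2 ∂ν) - (∫ x, gs h f x ∂ν) ^ 2 ≤ δ + A * L ^ 2 := by
    refine (hν.poi _ _ hGB g1).trans ?_
    refine add_le_add (le_refl _) (mul_le_mul_of_nonneg_left ?_ hA.le)
    have : ∫ _x : E k, L ^ 2 ∂ν = L ^ 2 := by simp
    rw [← this]
    refine integral_mono (pb_int hν.pb ((hG.continuous_fderiv (by norm_num)).norm.pow 2))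
      (integrable_const _) fun x => ?_
    exact pow_le_pow_left₀ (norm_nonneg _) (gL x) 2
  have : ey h ν f = ∫ x, gs h f x ∂ν := rfl
  rw [this]
  linarith

end T6Waux

open T36 T6aux T6Waux in
theorem tmw (h1 : S_REP) (h2 : S_ZN) (h3 : S_OM) (h4 : S_GP) (h4' : S_BE) (h5 : S_AFF)
    (h6 : S_CLW) (h7 : S_CT) : S_TMW := by
  intro k h0 A δ sg B D η L νa νb hA hδ hδ1 hsg h32 h64 hD hB hη hL hη1 hD1 ha hb hm hpl C f hf hf1
    hfL
  have hh0 : 0 < h0 := by linarith
  have := ha.pb.prob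
  have := hb.pb.prob
  -- small angle for all h
  have step : ∀ h, h0 ≤ h → 1 - aff h νa νb ≤ 1 / 500 →
      e2 h νa νb (fun y => om h νa νb y ^ 2) ≤ 23 / 10000 := by
    intro h hle hal
    have hh : 0 < h := by linarith
    have a1 := (h5 k h B νa νb hh hB ha.pb hb.pb).2
    have a2 := h6 k h A δ sg B D η νa νb hA hδ hδ1 hsg (by linarith) (by linarith) hD hB hη ha hb hm
      (hpl h hle) (by linarith)
    have a3 : 5 * D ^ 2 / h ≤ 5 / 8000 := by
      rw [div_le_iff₀ hh]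
      linarith
    linarith
  have step2 : ∀ h, h0 ≤ h → 1 - aff h νa νb ≤ 1 / 500 → 1 - aff h νa νb ≤ 23 / 20000 := by
    intro h hle hal
    have hh : 0 < h := by linarith
    have a1 := (h5 k h B νa νb hh hB ha.pb hb.pb).1
    have := step h hle hal
    linarith
  obtain ⟨hct, hlim⟩ := h7 k B νa νb ha.pb hb.pb
  have al0 : 1 - aff h0 νa νb ≤ 1 / 500 := by
    by_contra hc
    push Not at hc
    have hev : ∀ᶠ h in atTop, 1 - 23 / 20000 < aff h νa νb := hlim.eventually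
      (lt_mem_nhds (by norm_num))
    obtain ⟨h', hh', hge⟩ := (hev.and (eventually_ge_atTop h0)).exists
    have hcont : ContinuousOn (fun h => aff h νa νb) (Icc h0 h') :=
      hct.mono fun x hx => lt_of_lt_of_le hh0 hx.1
    have hiv := intermediate_value_Icc hge hcont
    have hmem : (1 - 3 / 2000 : ℝ) ∈ Icc (aff h0 νa νb) (aff h' νa νb) := by
      constructor
      · linarith
      · linarith
    obtain ⟨h'', hh'', he⟩ := hiv hmem
    have he' : aff h'' νa νb = 1 - 3 / 2000 := he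
    have := step2 h'' hh''.1 (by rw [he']; norm_num)
    rw [he'] at this
    norm_num at this
  have hQ := step h0 (le_refl _) al0
  set o := om h0 νa νb with ho
  set Q := e2 h0 νa νb (fun y => o y ^ 2) with hQd
  obtain ⟨⟨C0, hom⟩, -, hsin, -, -⟩ := h3 k h0 B νa νb hh0 hB ha.pb hb.pb
  have hoc : Continuous o := hom.c1.continuous
  set s : E k → ℝ := fun y => Real.sin (o y) with hs
  have hsc : Continuous s := Real.continuous_sin.comp hoc
  have hsb : ∀ y, |s y| ≤ 1 := fun y => Real.abs_sin_le_one _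
  have hfc : Continuous f := hf.c1.continuous
  set fa := ey h0 νa f with hfa
  set fb := ey h0 νb f with hfb
  set d := fb - fa with hd
  set c := (fa + fb) / 2 with hc
  have hgc : Continuous fun y => f y - c := hfc.sub continuous_const
  have hgb : ∀ y, |f y - c| ≤ C + |c| := fun y =>
    (abs_sub _ _).trans (add_le_add (hf.bd y) (le_refl _))
  have cb : ∀ y : E k, |(fun _ => c : E k → ℝ) y| ≤ |c| := fun _ => le_refl _
  have eyc : ∀ ν : Measure (E k), PB B ν → ey h0 ν (fun y => f y - c) = ey h0 ν f - c := by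
    intro ν hν
    have := hν.prob
    rw [ey_sub h1 hh0 hν hfc continuous_const (lg_of_bd hf.bd) (lg_of_bd cb), ey_const hh0]
  have k1 : 2 * e2 h0 νa νb (fun y => s y * (f y - c)) = d := by
    have := key h1 h2 h3 hh0 hB ha.pb hb.pb hgc (lg_of_bd hgb)
    rw [eyc νa ha.pb, eyc νb hb.pb] at this
    unfold e2
    rw [hd]
    linarith
  have k2 := cs h1 hh0 ha.pb hb.pb hsc hgc hsb hgb
  have bo : ∀ y, |o y ^ 2| ≤ C0 ^ 2 := by
    intro y
    rw [abs_pow]
    exact pow_le_pow_left₀ (abs_nonneg _) (hom.bd y) 2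
  have bs : ∀ y, |s y ^ 2| ≤ 1 := by
    intro y
    rw [abs_pow]
    exact pow_le_one₀ (abs_nonneg _) (hsb y)
  have sle : ∀ y, s y ^ 2 ≤ o y ^ 2 := fun y => Real.sin_sq_le_sq
  have k3 : e2 h0 νa νb (fun y => s y ^ 2) ≤ Q := by
    rw [hQd]
    unfold e2
    have := ey_mono h1 hh0 ha.pb (f := fun y => s y ^ 2) (g := fun y => o y ^ 2) (hsc.pow 2)
      (hoc.pow 2) (lg_of_bd bs) (lg_of_bd bo) sle
    have := ey_mono h1 hh0 hb.pb (f := fun y => s y ^ 2) (g := fun y => o y ^ 2) (hsc.pow 2)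
      (hoc.pow 2) (lg_of_bd bs) (lg_of_bd bo) sle
    linarith
  have bf2 : ∀ y, |f y ^ 2| ≤ C ^ 2 := by
    intro y
    rw [abs_pow]
    exact pow_le_pow_left₀ (abs_nonneg _) (hf.bd y) 2
  have exp2 : ∀ ν : Measure (E k), PB B ν → ey h0 ν (fun y => (f y - c) ^ 2) =
      ey h0 ν (fun y => f y ^ 2) - 2 * c * ey h0 ν f + c ^ 2 := by
    intro ν hν
    have := hν.prob
    have e : (fun y => (f y - c) ^ 2) = fun y => (f y ^ 2 - (2 * c) * f y) + c ^ 2 := by
      funext y
      ring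
    have b1 : ∀ y, |(2 * c) * f y| ≤ |2 * c| * C := by
      intro y
      rw [abs_mul]
      exact mul_le_mul_of_nonneg_left (hf.bd y) (abs_nonneg _)
    have b2 : ∀ y, |f y ^ 2 - (2 * c) * f y| ≤ C ^ 2 + |2 * c| * C := fun y =>
      (abs_sub _ _).trans (add_le_add (bf2 y) (b1 y))
    have b3 : ∀ y : E k, |(fun _ => c ^ 2 : E k → ℝ) y| ≤ |c ^ 2| := fun _ => le_refl _
    have c1 : Continuous fun y => (2 * c) * f y := continuous_const.mul hfc
    have c2 : Continuous fun y => f y ^ 2 - (2 * c) * f y := (hfc.pow 2).sub c1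
    have c0 : Continuous fun y => f y ^ 2 := hfc.pow 2
    rw [e, ey_add h1 hh0 hν c2 continuous_const (lg_of_bd b2) (lg_of_bd b3),
      ey_sub h1 hh0 hν c0 c1 (lg_of_bd bf2) (lg_of_bd b1), ey_cm, ey_const hh0]
  have va := var_leW h1 h4 hh0 hA ha hf hf1 hL hfL
  have vb := var_leW h1 h4 hh0 hA hb hf hf1 hL hfL
  rw [← hfa] at va
  rw [← hfb] at vb
  have k4 : e2 h0 νa νb (fun y => (f y - c) ^ 2) ≤ (h0 + A) * L ^ 2 + δ + d ^ 2 / 4 := by
    unfold e2
    rw [exp2 νa ha.pb, exp2 νb hb.pb, ← hfa, ← hfb, hd, hc]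
    nlinarith [va, vb]
  have s0 : 0 ≤ e2 h0 νa νb (fun y => s y ^ 2) := by
    unfold e2
    have := ey_nonneg (ν := νa) hh0 (f := fun y => s y ^ 2) fun y => sq_nonneg _
    have := ey_nonneg (ν := νb) hh0 (f := fun y => s y ^ 2) fun y => sq_nonneg _
    linarith
  have g0 : 0 ≤ e2 h0 νa νb (fun y => (f y - c) ^ 2) := by
    unfold e2
    have := ey_nonneg (ν := νa) hh0 (f := fun y => (f y - c) ^ 2) fun y => sq_nonneg _
    have := ey_nonneg (ν := νb) hh0 (f := fun y => (f y - c) ^ 2) fun y => sq_nonneg _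
    linarith
  have R0 : 0 ≤ (h0 + A) * L ^ 2 + δ := by positivity
  have fin : d ^ 2 ≤ (A + h0) * L ^ 2 + δ := by
    have q1 : d ^ 2 ≤ 4 * (23 / 10000 * ((h0 + A) * L ^ 2 + δ + d ^ 2 / 4)) := by
      have q2 : e2 h0 νa νb (fun y => s y ^ 2) * e2 h0 νa νb (fun y => (f y - c) ^ 2) ≤
          23 / 10000 * ((h0 + A) * L ^ 2 + δ + d ^ 2 / 4) :=
        mul_le_mul (k3.trans hQ) k4 g0 (by norm_num)
      have q3 : d ^ 2 = 4 * e2 h0 νa νb (fun y => s y * (f y - c)) ^ 2 := by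
        rw [← k1]
        ring
      rw [q3]
      linarith
    nlinarith [sq_nonneg d]
  exact fin

end Pool.Agent.R755.KF
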