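import Pool.Agent.H59.L.S8.R755.KF.G1
import Pool.Agent.H59.L.S8.R755.KF.G2
import Pool.Agent.H59.L.S8.R755.KF.G3
import Pool.Agent.H59.L.S8.R755.KF.G4
import Pool.Agent.H59.L.S8.R755.KF.G5
import Pool.Agent.H59.L.S8.R755.KF.P1
import Pool.Agent.H59.L.S8.R755.KF.P2
import Pool.Agent.H59.L.S8.R755.KF.P3W
import Pool.Agent.H59.L.S8.R755.KF.T1
import Pool.Agent.H59.L.S8.R755.KF.T2
import Pool.Agent.H59.L.S8.R755.KF.T2b
import Pool.Agent.H59.L.S8.R755.KF.T3W
import Pool.Agent.H59.L.S8.R755.KF.T4W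
import Pool.Agent.H59.L.S8.R755.KF.T5
import Pool.Agent.H59.L.S8.R755.KF.T6W
import Pool.Agent.H59.L.S8.R755.KF.L1
import Pool.Agent.H59.L.S8.R755.KF.L2
import Pool.Agent.H59.L.S8.R755.KF.L3
import Pool.Agent.H59.L.S8.R755.KF.K1
import Pool.Agent.H59.L.S8.R755.KF.K2
import Pool.Agent.H59.L.S8.R755.KF.K3
import Pool.Agent.H59.L.S8.R755.KF.K4
import Pool.Agent.H59.L.S8.R755.KF.K5W

/-!
# Convex bodies fibred over a base of small dimension: collection of the parts
-/

set_option autoImplicit false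

namespace Pool.Agent.R755.KF

theorem impR : S_IMP := imp gp sg an be
theorem omR : S_OM := om_ok zn_ok
theorem grdR : S_GRD := grd rep zn_ok omR
theorem affR : S_AFF := aff_ok rep zn_ok omR
theorem varR : S_VARW := varw impR be
theorem stR : S_STW := stw rep zn_ok omR be
theorem clR : S_CLW := clw rep zn_ok omR varR grdR stR
theorem tmR : S_TMW := tmw rep zn_ok omR gp be affR clR (ct zn_ok)
theorem chnR : S_CHNW := chnw geo mom eta fib (plh zn_ok) tmR gp be
theorem pxR : S_PX := px rep zn_ok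
theorem tlR : S_TAIL := tl geo

end Pool.Agent.R755.KF
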