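import Pool.Agent.H59.L.S8.Y506.PV.Stm
import Pool.Agent.H59.L.S8.R754.KG.A

/-!
# Adding a bounded number of dimensions: statements
-/

set_option autoImplicit false

namespace Pool.Agent.R755.KF

open MeasureTheory Set Filter Topology
open scoped ENNReal InnerProductSpace
open Pool.Agent.R754.KG (E)
open Pool.Agent.Y506.RG (EW VW Adm)
open Pool.Agent.Y506.PV (CcW ind LCn ConcS drp)

/-- D1: multiplying with a concave density -/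
def S_DENR : Prop := ∀ δ : ℝ, 0 < δ → ∃ δ0 c : ℝ, 0 < δ0 ∧ 0 < c ∧
  ∀ (n : ℕ) (κ : ℝ) (w u : E n → ℝ), 0 < κ → Adm w → LCn w → Measurable u →
  (∀ x, 0 ≤ u x) → ConcS w u → Adm (fun x => u x * w x) → CcW κ δ0 w →
  CcW (c * κ) δ (fun x => u x * w x)

/-- D2: adding one dimension -/
def S_LIFT1 : Prop := ∀ δ : ℝ, 0 < δ → ∃ δ0 : ℝ, 0 < δ0 ∧ ∀ κ : ℝ, 0 < κ → ∃ κ' : ℝ, 0 < κ' ∧
  ∀ (n : ℕ) (K : Set (E (n + 1))), IsCompact K → Convex ℝ K → (interior K).Nonempty →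
  CcW κ δ0 (ind (drp n '' K)) → CcW κ' δ (ind K)

/-- D3: adding `j` dimensions -/
def S_LIFT : Prop := ∀ (j : ℕ) (δ : ℝ), 0 < δ → ∃ δ0 : ℝ, 0 < δ0 ∧ ∀ κ : ℝ, 0 < κ →
  ∃ κ' : ℝ, 0 < κ' ∧ ∀ (n : ℕ) (K : Set (E (n + j))) (A : E (n + j) →ₗ[ℝ] E n),
  Function.Surjective A → IsCompact K → Convex ℝ K → (interior K).Nonempty →
  CcW κ δ0 (ind (A '' K)) → CcW κ' δ (ind K)

end Pool.Agent.R755.KF
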