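import Pool.Agent.H59.L.S8.R755.KF.Defs

/-!
# The Poincaré inequality in isotropic position
-/

set_option autoImplicit false

namespace Pool.Agent.R755.KF

open MeasureTheory Set Filter Topology
open scoped ENNReal InnerProductSpace
open Pool.Agent.R754.KG (E un sl Rv)

/-- the Poincaré inequality in isotropic position gives the inequality for all linear images -/
theorem kp_of_iso {N : ℕ} {C : Set (E N)} (h0 : volume C ≠ 0) (hb : Bornology.IsBounded C)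
    {c0 : ℝ} (hc0 : 0 ≤ c0) (A : E N ≃ₗ[ℝ] E N)
    (hA : ∀ θ : E N, (∫ x, ⟪A x, θ⟫_ℝ ^ 2 ∂(un C)) - (∫ x, ⟪A x, θ⟫_ℝ ∂(un C)) ^ 2 = ‖θ‖ ^ 2)
    (hP : ∀ f : E N → ℝ, ContDiff ℝ 1 f →
      (∫ x, f (A x) ^ 2 ∂(un C)) - (∫ x, f (A x) ∂(un C)) ^ 2 ≤
        c0 * ∫ x, ‖fderiv ℝ f (A x)‖ ^ 2 ∂(un C)) : KP c0 C := by
  intro k T s hs hT v hv
  obtain ⟨L, hL⟩ : ∃ L : E N →L[ℝ] E k, ∀ x, L x = T (A.symm x) :=
    ⟨LinearMap.toContinuousLinearMap (T ∘ₗ A.symm.toLinearMap), fun x => rfl⟩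
  have hLA : ∀ x, L (A x) = T x := fun x => by rw [hL, A.symm_apply_apply]
  -- the adjoint
  have hadj : ∀ θ : E k, ‖ContinuousLinearMap.adjoint L θ‖ ^ 2 ≤ s * ‖θ‖ ^ 2 := by
    intro θ
    rcases eq_or_ne θ 0 with rfl | hθ
    · simp
    have hθ' : ‖θ‖ ≠ 0 := norm_ne_zero_iff.2 hθ
    have h1 := hT (‖θ‖⁻¹ • θ) (by rw [norm_smul, norm_inv, norm_norm, inv_mul_cancel₀ hθ'])
    have h2 := hA (ContinuousLinearMap.adjoint L θ)
    have e1 : ∀ x, ⟪A x, ContinuousLinearMap.adjoint L θ⟫_ℝ = ⟪T x, θ⟫_ℝ := fun x => by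
      rw [ContinuousLinearMap.adjoint_inner_right, hLA]
    simp only [e1] at h2
    simp only [inner_smul_right, mul_pow] at h1
    rw [integral_const_mul, integral_const_mul, mul_pow, ← mul_sub, h2] at h1
    have h3 : 0 < ‖θ‖ ^ 2 := by positivity
    rw [inv_pow] at h1
    calc ‖ContinuousLinearMap.adjoint L θ‖ ^ 2
        = ‖θ‖ ^ 2 * ((‖θ‖ ^ 2)⁻¹ * ‖ContinuousLinearMap.adjoint L θ‖ ^ 2) := by
          field_simp
      _ ≤ ‖θ‖ ^ 2 * s := mul_le_mul_of_nonneg_left h1 h3.le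
      _ = _ := mul_comm _ _
  have hnorm : ‖L‖ ^ 2 ≤ s := by
    have h1 : ‖ContinuousLinearMap.adjoint L‖ ≤ Real.sqrt s := by
      refine ContinuousLinearMap.opNorm_le_bound _ (Real.sqrt_nonneg _) fun θ => ?_
      have h2 := Real.sqrt_le_sqrt (hadj θ)
      rwa [Real.sqrt_sq (norm_nonneg _), Real.sqrt_mul hs.le, Real.sqrt_sq (norm_nonneg _)] at h2
    have h2 : ‖ContinuousLinearMap.adjoint L‖ = ‖L‖ :=
      (ContinuousLinearMap.adjoint (𝕜 := ℝ) (E := E N) (F := E k)).norm_map L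
    rw [h2] at h1
    calc ‖L‖ ^ 2 ≤ (Real.sqrt s) ^ 2 := pow_le_pow_left₀ (norm_nonneg _) h1 2
      _ = s := Real.sq_sqrt hs.le
  have hf : ContDiff ℝ 1 fun y => v (L y) := hv.comp L.contDiff
  have key := hP (fun y => v (L y)) hf
  simp only [hLA] at key
  have hfd : ∀ y, fderiv ℝ (fun y => v (L y)) y = (fderiv ℝ v (L y)).comp L := by
    intro y
    have h1 : HasFDerivAt v (fderiv ℝ v (L y)) (L y) :=
      ((hv.differentiable one_ne_zero) (L y)).hasFDerivAt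
    exact (h1.comp y L.hasFDerivAt).fderiv
  have hle : ∀ x, ‖fderiv ℝ (fun y => v (L y)) (A x)‖ ^ 2 ≤ s * ‖fderiv ℝ v (T x)‖ ^ 2 := by
    intro x
    rw [hfd, hLA]
    have h1 : ‖(fderiv ℝ v (T x)).comp L‖ ≤ ‖fderiv ℝ v (T x)‖ * ‖L‖ :=
      ContinuousLinearMap.opNorm_comp_le _ _
    calc ‖(fderiv ℝ v (T x)).comp L‖ ^ 2 ≤ (‖fderiv ℝ v (T x)‖ * ‖L‖) ^ 2 :=
          pow_le_pow_left₀ (norm_nonneg _) h1 2
      _ = ‖fderiv ℝ v (T x)‖ ^ 2 * ‖L‖ ^ 2 := by ring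
      _ ≤ ‖fderiv ℝ v (T x)‖ ^ 2 * s := mul_le_mul_of_nonneg_left hnorm (sq_nonneg _)
      _ = _ := mul_comm _ _
  have hAc : Continuous A := A.toLinearMap.continuous_of_finiteDimensional
  have hTc : Continuous T := T.continuous_of_finiteDimensional
  have hvd : Continuous (fderiv ℝ v) := hv.continuous_fderiv one_ne_zero
  have hfd' : Continuous (fderiv ℝ fun y => v (L y)) := hf.continuous_fderiv one_ne_zero
  refine key.trans ?_
  rw [mul_assoc]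
  refine mul_le_mul_of_nonneg_left ?_ hc0
  rw [← integral_const_mul]
  refine integral_mono (Pool.Agent.R754.KG.un_int h0 hb ?_)
    (Pool.Agent.R754.KG.un_int h0 hb ?_) hle
  · exact (hfd'.comp hAc).norm.pow 2
  · exact ((hvd.comp hTc).norm.pow 2).const_mul s

/-- convex bodies with a Poincaré inequality in isotropic position -/
structure PI (c0 : ℝ) {N : ℕ} (C : Set (E N)) : Prop where
  comp : IsCompact C
  conv : Convex ℝ C
  int : (interior C).Nonempty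
  poi : ∃ A : E N ≃ₗ[ℝ] E N,
    (∀ θ : E N, (∫ x, ⟪A x, θ⟫_ℝ ^ 2 ∂(un C)) - (∫ x, ⟪A x, θ⟫_ℝ ∂(un C)) ^ 2 = ‖θ‖ ^ 2) ∧
    ∀ f : E N → ℝ, ContDiff ℝ 1 f →
      (∫ x, f (A x) ^ 2 ∂(un C)) - (∫ x, f (A x) ∂(un C)) ^ 2 ≤
        c0 * ∫ x, ‖fderiv ℝ f (A x)‖ ^ 2 ∂(un C)

theorem vol_ne {N : ℕ} {C : Set (E N)} (h : (interior C).Nonempty) : volume C ≠ 0 :=
  (lt_of_lt_of_le (isOpen_interior.measure_pos volume h) (measure_mono interior_subset)).ne'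

theorem PI.kp {c0 : ℝ} (hc0 : 0 ≤ c0) {N : ℕ} {C : Set (E N)} (h : PI c0 C) : KP c0 C := by
  obtain ⟨A, h1, h2⟩ := h.poi
  exact kp_of_iso (vol_ne h.int) h.comp.isBounded hc0 A h1 h2

end Pool.Agent.R755.KF
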