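import Mathlib
import Pool.Agent.H59.L.S8.H888R2.KT.Defs
import Pool.Agent.H59.L.S8.R754.KG.B

/-!
# Convex bodies fibred over a base of small dimension: statements

Everything is stated as a `Prop` (`S_...`); the theorems are in the other files of this folder.
`gs h f x` is the Gaussian average of `f` around `x` with variance `h` (in each direction), and
`gc κ h` the normalisation.
-/

set_option autoImplicit false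

namespace Pool.Agent.R755.KF

open MeasureTheory Set Filter Topology
open scoped ENNReal InnerProductSpace
open Pool.Agent.H888R2.KT (gs gc)
open Pool.Agent.R754.KG (E un sl Rv)

/-! ### Gaussian averages -/

/-- bounded `C¹` functions with bounded gradient -/
structure BL {k : ℕ} (B : ℝ) (f : E k → ℝ) : Prop where
  c1 : ContDiff ℝ 1 f
  bd : ∀ y, |f y| ≤ B
  gd : ∀ y, ‖fderiv ℝ f y‖ ≤ B

/-- partial derivatives -/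
noncomputable def pd {k : ℕ} (f : E k → ℝ) (j : Fin k) (y : E k) : ℝ :=
  fderiv ℝ f y (EuclideanSpace.single j 1)

/-- G1: Gaussian Poincaré inequality -/
def S_GP : Prop := ∀ (k : ℕ) (h B : ℝ) (f : E k → ℝ), 0 < h → BL B f → ∀ x,
  gs h (fun y => f y ^ 2) x - gs h f x ^ 2 ≤ h * gs h (fun y => ‖fderiv ℝ f y‖ ^ 2) x

/-- G2: semigroup property -/
def S_SG : Prop := ∀ (k : ℕ) (h B : ℝ) (f : E k → ℝ), 0 < h → Continuous f → (∀ y, |f y| ≤ B) →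
  ∀ x, gs h (gs h f) x = gs (2 * h) f x

/-- G3: functions of a sum of two independent variables -/
def S_AN : Prop := ∀ (k : ℕ) (h B : ℝ) (f : E k → ℝ), 0 < h → Continuous f → (∀ y, |f y| ≤ B) →
  ∀ x, 2 * gs h (fun y => gs h f y ^ 2) x ≤
    gs h (gs h (fun y => f y ^ 2)) x + (gs h (gs h f) x) ^ 2

/-- G4: derivative of Gaussian averages and Bessel's inequality, for bounded continuous `f` -/
def S_BE : Prop := ∀ (k : ℕ) (h B : ℝ) (f : E k → ℝ), 0 < h → Continuous f → (∀ y, |f y| ≤ B) →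
  ContDiff ℝ 1 (gs h f) ∧
  (∀ x w, fderiv ℝ (gs h f) x w = gs h (fun y => f y * (⟪y - x, w⟫_ℝ / h)) x) ∧
  ∀ x, h * ‖fderiv ℝ (gs h f) x‖ ^ 2 ≤ gs h (fun y => f y ^ 2) x - gs h f x ^ 2

/-- G5: improved Gaussian Poincaré inequality -/
def S_IMP : Prop := ∀ (k : ℕ) (h B : ℝ) (f : E k → ℝ), 0 < h → BL B f → ∀ x,
  gs h (fun y => f y ^ 2) x - gs h f x ^ 2 ≤
    h * (3 / 4 * gs h (fun y => ‖fderiv ℝ f y‖ ^ 2) x + 1 / 4 * ‖fderiv ℝ (gs h f) x‖ ^ 2)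

/-! ### measures -/

/-- probability measures of bounded support -/
structure PB {k : ℕ} (B : ℝ) (ν : Measure (E k)) : Prop where
  prob : IsProbabilityMeasure ν
  bdd : ∀ᵐ x ∂ν, ‖x‖ ≤ B

/-- probability measures of bounded support with a Poincaré inequality -/
structure PO {k : ℕ} (A B : ℝ) (ν : Measure (E k)) : Prop where
  pb : PB B ν
  poi : ∀ f : E k → ℝ, ContDiff ℝ 1 f →
    (∫ x, f x ^ 2 ∂ν) - (∫ x, f x ∂ν) ^ 2 ≤ A * ∫ x, ‖fderiv ℝ f x‖ ^ 2 ∂ν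

/-- density of `X + √h Z`, `X` of law `ν`, up to the factor `gc h` -/
noncomputable def zn {k : ℕ} (h : ℝ) (ν : Measure (E k)) (y : E k) : ℝ :=
  ∫ x, Real.exp (-(‖x - y‖ ^ 2 / (2 * h))) ∂ν

/-- `E f(X + √h Z)` -/
noncomputable def ey {k : ℕ} (h : ℝ) (ν : Measure (E k)) (f : E k → ℝ) : ℝ := ∫ x, gs h f x ∂ν

/-- average over two measures -/
noncomputable def e2 {k : ℕ} (h : ℝ) (νa νb : Measure (E k)) (f : E k → ℝ) : ℝ :=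
  (ey h νa f + ey h νb f) / 2

/-- P1: expectations with the density -/
def S_REP : Prop := ∀ (k : ℕ) (h B C : ℝ) (ν : Measure (E k)) (f : E k → ℝ), 0 < h → PB B ν →
  Continuous f → (∀ y, |f y| ≤ C * (1 + ‖y‖)) →
  Integrable (gs h f) ν ∧ Integrable (fun y => f y * zn h ν y) ∧
  ey h ν f = (gc (Fin k) h)⁻¹ * ∫ y, f y * zn h ν y

/-- P2: properties of the density -/
def S_ZN : Prop := ∀ (k : ℕ) (h B : ℝ) (ν : Measure (E k)), 0 < h → 0 ≤ B → PB B ν →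
  ContDiff ℝ 1 (zn h ν) ∧ (∀ y, 0 < zn h ν y) ∧ (∀ y, zn h ν y ≤ 1) ∧
  (∀ y, ‖fderiv ℝ (zn h ν) y + ((1 / h) * zn h ν y) • innerSL ℝ y‖ ≤ B / h * zn h ν y) ∧
  (∀ y v, zn h ν y * Real.exp (fderiv ℝ (zn h ν) y v / zn h ν y - ‖v‖ ^ 2 / (2 * h)) ≤
    zn h ν (y + v)) ∧
  Integrable (zn h ν) ∧ ∫ y, zn h ν y = gc (Fin k) h

/-- P3: variances of functions of `X + √h Z` -/
def S_VAR : Prop := ∀ (k : ℕ) (h A B C K : ℝ) (ν : Measure (E k)) (f : E k → ℝ), 0 < A →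
  32 * A ≤ h → PO A B ν → BL C f → 0 ≤ K →
  (∀ v : E k, |ey h ν fun y => fderiv ℝ f y v| ≤ K * ‖v‖) →
  ey h ν (fun y => f y ^ 2) - ey h ν f ^ 2 ≤
    19 / 25 * h * ey h ν (fun y => ‖fderiv ℝ f y‖ ^ 2) + 3 / 10 * h * K ^ 2

/-! ### two measures -/

/-- the angle between the two densities -/
noncomputable def om {k : ℕ} (h : ℝ) (νa νb : Measure (E k)) (y : E k) : ℝ :=
  2 * Real.arctan (Real.sqrt (zn h νb y / zn h νa y)) - Real.pi / 2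

/-- half the difference of the logarithmic derivatives of the densities -/
noncomputable def sd {k : ℕ} (h : ℝ) (νa νb : Measure (E k)) (y : E k) : E k →L[ℝ] ℝ :=
  (1 / 2 : ℝ) • ((zn h νb y)⁻¹ • fderiv ℝ (zn h νb) y - (zn h νa y)⁻¹ • fderiv ℝ (zn h νa) y)

/-- T1 -/
def S_OM : Prop := ∀ (k : ℕ) (h B : ℝ) (νa νb : Measure (E k)), 0 < h → 0 ≤ B → PB B νa →
  PB B νb → (∃ C, BL C (om h νa νb)) ∧ (∀ y, |om h νa νb y| < Real.pi / 2) ∧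
  (∀ y, Real.sin (om h νa νb y) = (zn h νb y - zn h νa y) / (zn h νa y + zn h νb y)) ∧
  (∀ y, Real.cos (om h νa νb y) =
    2 * Real.sqrt (zn h νa y * zn h νb y) / (zn h νa y + zn h νb y)) ∧
  (∀ y, fderiv ℝ (om h νa νb) y = Real.cos (om h νa νb y) • sd h νa νb y)

/-- affinity -/
noncomputable def aff {k : ℕ} (h : ℝ) (νa νb : Measure (E k)) : ℝ :=
  (gc (Fin k) h)⁻¹ * ∫ y, Real.sqrt (zn h νa y * zn h νb y)

/-- the consequence of the Prékopa–Leindler inequality which is used -/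
def PLH {k : ℕ} (h η : ℝ) (νa νb : Measure (E k)) : Prop :=
  ∃ Zm : E k → ℝ, (∀ y, 0 ≤ Zm y) ∧ Integrable Zm ∧ ∫ y, Zm y ≤ (1 + η) * gc (Fin k) h ∧
    ∀ y v, zn h νa (y - v) * zn h νb (y + v) ≤ Zm y ^ 2

/-- T2 -/
def S_GRD : Prop := ∀ (k : ℕ) (h B η : ℝ) (νa νb : Measure (E k)), 0 < h → 0 ≤ B → PB B νa →
  PB B νb → PLH h η νa νb →
  h * e2 h νa νb (fun y => ‖fderiv ℝ (om h νa νb) y‖ ^ 2) ≤
    2 * η + e2 h νa νb (fun y => om h νa νb y ^ 2)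

/-- T2': relation to the affinity -/
def S_AFF : Prop := ∀ (k : ℕ) (h B : ℝ) (νa νb : Measure (E k)), 0 < h → 0 ≤ B → PB B νa →
  PB B νb → 2 * (1 - aff h νa νb) ≤ e2 h νa νb (fun y => om h νa νb y ^ 2) ∧
  e2 h νa νb (fun y => om h νa νb y ^ 2) ≤ 5 * (1 - aff h νa νb)

/-- T3: Stein's identity -/
def S_ST : Prop := ∀ (k : ℕ) (h A B D : ℝ) (νa νb : Measure (E k)), 0 < A → 32 * A ≤ h →
  0 ≤ D → 0 ≤ B → PO A B νa → PO A B νb →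
  (∀ v : E k, |(∫ x, ⟪x, v⟫_ℝ ∂νb) - ∫ x, ⟪x, v⟫_ℝ ∂νa| ≤ D * ‖v‖) →
  ∀ v : E k, h * |e2 h νa νb fun y => Real.cos (om h νa νb y) * fderiv ℝ (om h νa νb) y v| ≤
    (D / 2 * (1 + e2 h νa νb (fun y => om h νa νb y ^ 2)) +
      A * Real.sqrt (e2 h νa νb (fun y => ‖fderiv ℝ (om h νa νb) y‖ ^ 2))) * ‖v‖

/-- T4: the main estimate, for small angles -/
def S_CL : Prop := ∀ (k : ℕ) (h A B D η : ℝ) (νa νb : Measure (E k)), 0 < A → 32 * A ≤ h →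
  0 ≤ D → 0 ≤ B → 0 ≤ η → PO A B νa → PO A B νb →
  (∀ v : E k, |(∫ x, ⟪x, v⟫_ℝ ∂νb) - ∫ x, ⟪x, v⟫_ℝ ∂νa| ≤ D * ‖v‖) → PLH h η νa νb →
  e2 h νa νb (fun y => om h νa νb y ^ 2) ≤ 1 / 100 →
  e2 h νa νb (fun y => om h νa νb y ^ 2) ≤ 9 * η + 5 * D ^ 2 / h

/-- T5: dependence on `h` -/
def S_CT : Prop := ∀ (k : ℕ) (B : ℝ) (νa νb : Measure (E k)), PB B νa → PB B νb →
  ContinuousOn (fun h => aff h νa νb) (Ioi 0) ∧ Tendsto (fun h => aff h νa νb) atTop (𝓝 1)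

/-- T6: the means of Lipschitz functions are close -/
def S_TM : Prop := ∀ (k : ℕ) (h0 A B D η L : ℝ) (νa νb : Measure (E k)), 0 < A → 32 * A ≤ h0 →
  0 ≤ D → 0 ≤ B → 0 ≤ η → 0 ≤ L → η ≤ 1 / 4000 → D ^ 2 ≤ h0 / 4000 → PO A B νa → PO A B νb →
  (∀ v : E k, |(∫ x, ⟪x, v⟫_ℝ ∂νb) - ∫ x, ⟪x, v⟫_ℝ ∂νa| ≤ D * ‖v‖) →
  (∀ h, h0 ≤ h → PLH h η νa νb) →
  ∀ (C : ℝ) (f : E k → ℝ), BL C f → (∀ y, ‖fderiv ℝ f y‖ ≤ L) →
  |ey h0 νb f - ey h0 νa f| ≤ L * Real.sqrt (A + h0)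

/-! ### the Prékopa–Leindler inequality for images of bodies -/

/-- Prékopa–Leindler for three measures, with a factor -/
def PL3 {k : ℕ} (νa νb νm : Measure (E k)) (r : ℝ) : Prop :=
  ∀ f g h : E k → ℝ≥0∞, Measurable f → Measurable g → Measurable h →
  (∀ x y, f x * g y ≤ h ((1 / 2 : ℝ) • (x + y)) ^ 2) →
  (∫⁻ x, f x ∂νa) * (∫⁻ x, g x ∂νb) ≤ ENNReal.ofReal r * (∫⁻ x, h x ∂νm) ^ 2

/-- L1 -/
def S_PLH : Prop := ∀ (k : ℕ) (h B η : ℝ) (νa νb νm : Measure (E k)), 0 < h → 0 ≤ B → 0 ≤ η →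
  PB B νa → PB B νb → PB B νm → PL3 νa νb νm ((1 + η) ^ 2) → PLH h η νa νb

/-- L2: from `X + √h Z` to `X` -/
def S_PX : Prop := ∀ (k : ℕ) (h B L : ℝ) (ν : Measure (E k)), 0 < h → 0 ≤ B → 0 ≤ L → PB B ν →
  PL3 ν ν ν 1 → ∀ v : E k → ℝ, ContDiff ℝ 1 v → (∀ y, |v y| ≤ 1) → (∀ y, ‖fderiv ℝ v y‖ ≤ L) →
  ∃ f : E k → ℝ, ContDiff ℝ 1 f ∧ (∀ y, |f y| ≤ 1) ∧ (∀ y, ‖fderiv ℝ f y‖ ≤ 2 * L) ∧
  (∫ x, v x ^ 2 ∂ν) - (∫ x, v x ∂ν) ^ 2 ≤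
    2 * h * L ^ 2 + (ey h ν (fun y => f y ^ 2) - ey h ν f ^ 2)

/-- compact convex sets of positive volume in the product -/
structure CB {N d : ℕ} (K : Set (E N × E d)) : Prop where
  conv : Convex ℝ K
  comp : IsCompact K
  pos : 0 < volume K

/-- the law of `T (x, t)`, `x` uniform in the fibre over `t` -/
noncomputable def lw {N d k : ℕ} (K : Set (E N × E d)) (T : E N × E d →ₗ[ℝ] E k) (t : E d) :
    Measure (E k) := Measure.map (fun x => T (x, t)) (un (sl K t))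

/-- L3 -/
def S_FIB : Prop := ∀ (N d k : ℕ) (K : Set (E N × E d)) (T : E N × E d →ₗ[ℝ] E k) (t0 t1 : E d),
  CB K → 0 < Rv K t0 → 0 < Rv K t1 → 0 < Rv K ((1 / 2 : ℝ) • (t0 + t1)) →
  PL3 (lw K T t0) (lw K T t1) (lw K T ((1 / 2 : ℝ) • (t0 + t1)))
    (Rv K ((1 / 2 : ℝ) • (t0 + t1)) ^ 2 / (Rv K t0 * Rv K t1))

/-- L4 -/
def S_WH : Prop := ∀ (n k : ℕ) (K : Set (E n)) (T : E n →ₗ[ℝ] E k), Convex ℝ K → IsCompact K →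
  0 < volume K → PL3 (Measure.map T (un K)) (Measure.map T (un K)) (Measure.map T (un K)) 1

/-! ### geometry of the fibres -/

/-- K1: log-concavity of the volume of the fibres -/
def S_GEO : Prop := ∀ (N d : ℕ) (K : Set (E N × E d)), CB K → ∀ (t0 t1 : E d) (l : ℝ), 0 < l →
  l < 1 → Rv K t0 ^ (1 - l) * Rv K t1 ^ l ≤ Rv K ((1 - l) • t0 + l • t1)

/-- K2: second moments over large fibres -/
def S_MOM : Prop := ∀ (N d : ℕ) (K : Set (E N × E d)), CB K → ∀ (S ε : ℝ) (t0 : E d), 0 < S →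
  0 < ε → (∀ t, Rv K t ≤ S) → ε * S ≤ Rv K t0 → ∀ ℓ : E N × E d → ℝ, Continuous ℓ →
  (∀ z z', ℓ ((1 / 2 : ℝ) • (z + z')) = (ℓ z + ℓ z') / 2) →
  ∫ x, ℓ (x, t0) ^ 2 ∂(un (sl K t0)) ≤ 36 * 4 ^ d / ε * ∫ z, ℓ z ^ 2 ∂(un K)

/-- K3: most of the body is over points which are well inside -/
def S_TAIL : Prop := ∀ (d : ℕ) (δ : ℝ), 0 < δ → ∃ ε γ ρ : ℝ, 0 < ε ∧ ε < 1 ∧ 0 < γ ∧ 0 < ρ ∧
  ρ < 1 ∧ ∀ (N : ℕ) (K : Set (E N × E d)), CB K → ∀ (S : ℝ) (ts : E d), 0 < S →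
  (∀ t, Rv K t ≤ S) → (1 - ρ) * S ≤ Rv K ts →
  ∫⁻ t in {t | Rv K (ts + (1 + γ) • (t - ts)) < ε * S}, volume (sl K t) ≤
    ENNReal.ofReal δ * volume K

/-- K4: subdivision of a segment -/
def S_ETA : Prop := ∀ ε γ η : ℝ, 0 < ε → ε < 1 → 0 < γ → 0 < η → ∃ (n : ℕ) (ρ : ℝ), 1 ≤ n ∧
  0 < ρ ∧ ρ < 1 ∧ ∀ (r : ℝ → ℝ) (S : ℝ), 0 < S →
  (∀ x ∈ Icc (0 : ℝ) (1 + γ), 0 < r x ∧ r x ≤ S) →
  (∀ x ∈ Icc (0 : ℝ) (1 + γ), ∀ y ∈ Icc (0 : ℝ) (1 + γ), ∀ l : ℝ, 0 < l → l < 1 →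
    r x ^ (1 - l) * r y ^ l ≤ r ((1 - l) * x + l * y)) →
  (1 - ρ) * S ≤ r 0 → ε * S ≤ r (1 + γ) →
  ∀ j : ℕ, j < n → r ((j + 1 / 2) / n) ≤ (1 + η) * Real.sqrt (r (j / n) * r ((j + 1) / n))

/-- Poincaré inequality for all linear images of `C`, relative to the covariance -/
def KP (c0 : ℝ) {N : ℕ} (C : Set (E N)) : Prop :=
  ∀ (k : ℕ) (T : E N →ₗ[ℝ] E k) (s : ℝ), 0 < s → (∀ θ : E k, ‖θ‖ = 1 →
    (∫ x, ⟪T x, θ⟫_ℝ ^ 2 ∂(un C)) - (∫ x, ⟪T x, θ⟫_ℝ ∂(un C)) ^ 2 ≤ s) →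
  ∀ v : E k → ℝ, ContDiff ℝ 1 v →
  (∫ x, v (T x) ^ 2 ∂(un C)) - (∫ x, v (T x) ∂(un C)) ^ 2 ≤
    c0 * s * ∫ x, ‖fderiv ℝ v (T x)‖ ^ 2 ∂(un C)

/-- K5: from one fibre to the next -/
def S_CHN : Prop := ∀ (d : ℕ) (c0 ε γ : ℝ), 0 < c0 → 0 < ε → ε < 1 → 0 < γ →
  ∃ C C2 ρ : ℝ, 0 < C ∧ 0 < C2 ∧ 0 < ρ ∧ ρ < 1 ∧
  ∀ (N k : ℕ) (K : Set (E N × E d)), CB K → (∀ t, volume (sl K t) ≠ 0 → KP c0 (sl K t)) →
  ∀ (T : E N × E d →ₗ[ℝ] E k) (s S : ℝ), 0 < s → 0 < S → (∀ t, Rv K t ≤ S) →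
  (∀ θ : E k, ‖θ‖ = 1 →
    (∫ z, ⟪T z, θ⟫_ℝ ^ 2 ∂(un K)) - (∫ z, ⟪T z, θ⟫_ℝ ∂(un K)) ^ 2 ≤ s) →
  ∀ ts : E d, (1 - ρ) * S ≤ Rv K ts → ∀ t : E d, ε * S ≤ Rv K (ts + (1 + γ) • (t - ts)) →
  ∀ (f : E k → ℝ) (L : ℝ), ContDiff ℝ 1 f → 0 ≤ L → (∀ y, |f y| ≤ 1) →
  (∀ y, ‖fderiv ℝ f y‖ ≤ L) →
  ey (C * s) (lw K T t) (fun y => (f y - ey (C * s) (lw K T ts) f) ^ 2) ≤ C2 * s * L ^ 2

end Pool.Agent.R755.KF
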