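import Pool.Agent.H59.L.S8.R755.KF.Defs
import Pool.Agent.H59.L.S8.H888R2.KT.N0
import Pool.Agent.H59.L.S8.H888R2.KT.N5b

/-!
# G1 (helper141): the Gaussian Poincare inequality for Gaussian averages
-/

set_option autoImplicit false

namespace Pool.Agent.R755.KF

open MeasureTheory Set Filter Topology
open scoped ENNReal InnerProductSpace
open Pool.Agent.H888R2.KT (gs gc gc_pos LC pst zz var_contr)
open Pool.Agent.R754.KG (E un sl Rv)

namespace G1aux

/-- indicator of a ball -/
noncomputable def ib (k n : ℕ) : E k → ℝ :=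
  (Metric.closedBall (0 : E k) n).indicator fun _ => 1

theorem mu_ib (k n : ℕ) : Pool.Agent.H212R2.KLS.mu (ib k n) univ =
    volume (Metric.closedBall (0 : E k) n) := by
  unfold Pool.Agent.H212R2.KLS.mu
  rw [withDensity_apply _ MeasurableSet.univ, Measure.restrict_univ]
  have : (fun x => ENNReal.ofReal (ib k n x)) =
      (Metric.closedBall (0 : E k) n).indicator 1 := by
    funext x
    unfold ib
    by_cases hx : x ∈ Metric.closedBall (0 : E k) (n : ℝ)
    · rw [indicator_of_mem hx, indicator_of_mem hx, ENNReal.ofReal_one, Pi.one_apply]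
    · rw [indicator_of_notMem hx, indicator_of_notMem hx, ENNReal.ofReal_zero]
  rw [this, lintegral_indicator_one Metric.isClosed_closedBall.measurableSet]

theorem lc (k n : ℕ) (hn : 0 < n) : LC (ib k n) where
  nonneg x := indicator_nonneg (fun _ _ => zero_le_one) x
  meas := measurable_const.indicator Metric.isClosed_closedBall.measurableSet
  logc x y t ht0 ht1 := by
    have h0 : 0 ≤ ib k n ((1 - t) • x + t • y) := indicator_nonneg (fun _ _ => zero_le_one) _
    by_cases hx : x ∈ Metric.closedBall (0 : E k) (n : ℝ)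
    · by_cases hy : y ∈ Metric.closedBall (0 : E k) (n : ℝ)
      · have hz : (1 - t) • x + t • y ∈ Metric.closedBall (0 : E k) (n : ℝ) :=
          convex_closedBall (0 : E k) (n : ℝ) hx hy (by linarith) ht0.le (by ring)
        unfold ib
        rw [indicator_of_mem hx, indicator_of_mem hy, indicator_of_mem hz, Real.one_rpow,
          Real.one_rpow, mul_one]
      · have : ib k n y = 0 := indicator_of_notMem hy _
        rw [this, Real.zero_rpow ht0.ne', mul_zero]
        exact h0
    · have : ib k n x = 0 := indicator_of_notMem hx _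
      rw [this, Real.zero_rpow (by linarith), zero_mul]
      exact h0
  bdd := ⟨n, fun x hx => indicator_of_notMem (by
    rw [mem_closedBall_zero_iff]
    exact not_le.2 hx) _⟩
  fin := by
    rw [mu_ib]
    exact measure_closedBall_lt_top.ne
  ne := by
    intro h
    have h1 := mu_ib k n
    rw [h] at h1
    have h2 : 0 < volume (Metric.closedBall (0 : E k) (n : ℝ)) :=
      Metric.measure_closedBall_pos volume (0 : E k) (by exact_mod_cast hn)
    rw [← h1] at h2
    simp at h2

theorem lim0 {k : ℕ} (g : E k → ℝ) (hg : Integrable g) :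
    Tendsto (fun n : ℕ => ∫ x, ib k n x * g x) atTop (𝓝 (∫ x, g x)) := by
  refine tendsto_integral_of_dominated_convergence (fun x => ‖g x‖) (fun n => ?_) hg.norm
    (fun n => Filter.Eventually.of_forall fun x => ?_) (Filter.Eventually.of_forall fun x => ?_)
  · exact ((measurable_const.indicator
      Metric.isClosed_closedBall.measurableSet).aestronglyMeasurable).mul hg.aestronglyMeasurable
  · unfold ib
    by_cases hx : x ∈ Metric.closedBall (0 : E k) (n : ℝ)
    · rw [indicator_of_mem hx, one_mul]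
    · rw [indicator_of_notMem hx, zero_mul, norm_zero]
      exact norm_nonneg _
  · refine tendsto_const_nhds.congr' ?_
    obtain ⟨N, hN⟩ := exists_nat_ge ‖x‖
    filter_upwards [eventually_ge_atTop N] with n hn
    have hx : x ∈ Metric.closedBall (0 : E k) (n : ℝ) := by
      rw [mem_closedBall_zero_iff]
      exact hN.trans (by exact_mod_cast hn)
    unfold ib
    rw [indicator_of_mem hx, one_mul]

theorem lim {k : ℕ} (h : ℝ) (hh : 0 < h) (φ : E k → ℝ) (hφ : Continuous φ) (C : ℝ)
    (hC : ∀ y, |φ y| ≤ C) (x : E k) :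
    Tendsto (fun n : ℕ => pst h (ib k n) φ x) atTop (𝓝 (gs h φ x)) := by
  obtain ⟨gp, g1, g2, g3⟩ := gc_pos (κ := Fin k) h hh
  have hsym : ∀ y : E k, Real.exp (-(‖x - y‖ ^ 2 / (2 * h))) =
      Real.exp (-(‖y - x‖ ^ 2 / (2 * h))) := fun y => by rw [norm_sub_rev]
  have I0 : Integrable fun y : E k => Real.exp (-(‖y - x‖ ^ 2 / (2 * h))) := by
    simpa only [hsym] using g2 x
  have e0 : ∫ y : E k, Real.exp (-(‖y - x‖ ^ 2 / (2 * h))) = gc (Fin k) h := by
    simpa only [hsym] using g1 x
  have I1 : Integrable fun y : E k => φ y * Real.exp (-(‖y - x‖ ^ 2 / (2 * h))) := by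
    refine (I0.const_mul C).mono' (by fun_prop) (Filter.Eventually.of_forall fun y => ?_)
    rw [norm_mul, Real.norm_eq_abs, Real.norm_of_nonneg (Real.exp_pos _).le]
    exact mul_le_mul_of_nonneg_right (hC y) (Real.exp_pos _).le
  have e1 : gs h φ x = (∫ y : E k, φ y * Real.exp (-(‖y - x‖ ^ 2 / (2 * h)))) /
      ∫ y : E k, Real.exp (-(‖y - x‖ ^ 2 / (2 * h))) := by
    rw [e0]
    unfold gs
    simp only [hsym]
  rw [e1]
  refine ((lim0 _ I1).div (lim0 _ I0) (by rw [e0]; exact gp.ne')).congr' ?_
  filter_upwards [eventually_gt_atTop 0] with n hn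
  unfold pst zz
  rw [Pool.Agent.H888R2.KT.N5bx.conv (lc k n hn), Pool.Agent.H888R2.KT.N5bx.conv (lc k n hn)]
  rfl

end G1aux

open G1aux

theorem gp : S_GP := by
  intro k h B f hh hf x
  have hB0 : 0 ≤ B := (abs_nonneg _).trans (hf.bd 0)
  have hc : Continuous f := hf.c1.continuous
  have hd : Continuous (fderiv ℝ f) := hf.c1.continuous_fderiv (by norm_num)
  have t1 := lim h hh f hc B hf.bd x
  have t2 := lim h hh (fun y => f y ^ 2) (hc.pow 2) (B ^ 2) (fun y => by
    rw [abs_pow]
    exact pow_le_pow_left₀ (abs_nonneg _) (hf.bd y) 2) x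
  have t3 := lim h hh (fun y => ‖fderiv ℝ f y‖ ^ 2) (hd.norm.pow 2) (B ^ 2) (fun y => by
    rw [abs_pow, abs_norm]
    exact pow_le_pow_left₀ (norm_nonneg _) (hf.gd y) 2) x
  refine le_of_tendsto_of_tendsto (t2.sub (t1.pow 2)) (t3.const_mul h) ?_
  filter_upwards [eventually_gt_atTop 0] with n hn
  exact var_contr (lc k n hn) h hh f hf.c1 x

end Pool.Agent.R755.KF
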